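import Pool.Agent.H36.CV.Defs

/-!
# CV-ASSIGN: minimum cost matchings are a valuated matroid

`u : Fin m → Fin n → ℝ` a cost matrix, `cost u π = Σ_a u a (π a)` for injective `π`,
`fA u S` = minimum cost of the injective `π` with image `S` (`0` if there is none).

`fA_le`, `fA_attained`: finite nonempty minimum. (There is an injective `π` with image `S` iff
`S.card = m`.)

`fA_VM`, the exchange axiom. Let `S, S' ∈ U n m`, `i ∈ S \ S'`; `π, π'` optimal for `S`, `S'`.
Let `a0` with `π a0 = i` and let `R ⊆ Fin m` be the set of `a` with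
`Relation.ReflTransGen (fun x y => π y = π' x) a0 a`. Define `σ = π'` on `R`, `π` off `R`;
`σ' = π` on `R`, `π'` off `R`.
(1) `σ` is injective: `a ∈ R`, `c ∉ R`, `π' a = π c` would give `c ∈ R`.
(2) `σ'` is injective: `a ∈ R`, `c ∉ R`, `π a = π' c`: if `a = a0` then `i = π' c ∈ S'`, contradiction;
otherwise (`Relation.ReflTransGen.cases_tail`) `π a = π' a1` with `a1 ∈ R`, so `π' c = π' a1`,
`c = a1 ∈ R`, contradiction.
(3) `cost σ + cost σ' = cost π + cost π'` (termwise).
(4) Images: `π(R) = {i} ∪ (π'(R) ∩ S)`: an element `π a`, `a ∈ R`, `a ≠ a0` is `π' a1` with `a1 ∈ R`; and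
`π' a1 = π a ∈ S`, `a1 ∈ R` implies `a ∈ R`. `i ∉ π'(R)`. As `|π(R)| = |π'(R)|`, the set `π'(R) \ S`
has exactly one element `j`, and `j ∈ S' \ S`. So the image of `σ` is
`(S \ π(R)) ∪ π'(R) = S - i + j = sw S i j` and the image of `σ'` is `(S' \ π'(R)) ∪ π(R) = sw S' j i`.
Hence `fA (sw S i j) + fA (sw S' j i) ≤ cost σ + cost σ' = fA S + fA S'`.
-/

set_option autoImplicit false

open Finset

namespace Pool.Agent.H36.CV

variable {m n : ℕ}

/-- The cost of an injective assignment. -/
def cost (u : Fin m → Fin n → ℝ) (π : Fin m ↪ Fin n) : ℝ := ∑ a, u a (π a)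

/-- The minimal cost of an assignment with image `S`. -/
noncomputable def fA (u : Fin m → Fin n → ℝ) (S : Finset (Fin n)) : ℝ :=
  sInf (cost u '' {π : Fin m ↪ Fin n | univ.map π = S})

theorem assign_finite (u : Fin m → Fin n → ℝ) (S : Finset (Fin n)) :
    (cost u '' {π : Fin m ↪ Fin n | univ.map π = S}).Finite :=
  (Set.toFinite _).image _

theorem fA_le (u : Fin m → Fin n → ℝ) (π : Fin m ↪ Fin n) :
    fA u (univ.map π) ≤ cost u π :=
  csInf_le (assign_finite u _).bddBelow ⟨π, rfl, rfl⟩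

theorem fA_attained (u : Fin m → Fin n → ℝ) (S : Finset (Fin n)) (hS : S ∈ U n m) :
    ∃ π : Fin m ↪ Fin n, univ.map π = S ∧ cost u π = fA u S := by
  have hc : S.card = m := (mem_powersetCard.1 hS).2
  have hne : (cost u '' {π : Fin m ↪ Fin n | univ.map π = S}).Nonempty := by
    refine ⟨_, (S.orderEmbOfFin hc).toEmbedding, ?_, rfl⟩
    exact Finset.map_orderEmbOfFin_univ S hc
  obtain ⟨π, hπ, h⟩ := hne.csInf_mem (assign_finite u S)
  exact ⟨π, hπ, h⟩

theorem fA_VM (u : Fin m → Fin n → ℝ) : VM m (fA u) := by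
  classical
  intro S hS S' hS' i hi
  obtain ⟨π, hπ, hcπ⟩ := fA_attained u S hS
  obtain ⟨π', hπ', hcπ'⟩ := fA_attained u S' hS'
  obtain ⟨hiS, hiS'⟩ := mem_sdiff.1 hi
  have memS : ∀ a, π a ∈ S := fun a => hπ ▸ mem_map_of_mem π (mem_univ a)
  have memS' : ∀ a, π' a ∈ S' := fun a => hπ' ▸ mem_map_of_mem π' (mem_univ a)
  have exS : ∀ y ∈ S, ∃ a, π a = y := by
    intro y hy
    rw [← hπ, mem_map] at hy
    obtain ⟨a, _, ha⟩ := hy
    exact ⟨a, ha⟩
  have exS' : ∀ y ∈ S', ∃ a, π' a = y := by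
    intro y hy
    rw [← hπ', mem_map] at hy
    obtain ⟨a, _, ha⟩ := hy
    exact ⟨a, ha⟩
  obtain ⟨a0, ha0⟩ := exS i hiS
  let r : Fin m → Fin m → Prop := fun x y => π y = π' x
  let R : Fin m → Prop := fun a => Relation.ReflTransGen r a0 a
  have hR0 : R a0 := Relation.ReflTransGen.refl
  have hRr : ∀ a c, R a → π c = π' a → R c := fun a c ha h => ha.tail h
  have hRt : ∀ a, R a → a = a0 ∨ ∃ a1, R a1 ∧ π a = π' a1 := by
    intro a ha
    rcases Relation.ReflTransGen.cases_tail ha with h | ⟨c, hc, h⟩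
    · exact Or.inl h
    · exact Or.inr ⟨c, hc, h⟩
  have hiB : ∀ a, π' a ≠ i := fun a h => hiS' (h ▸ memS' a)
  -- the two new assignments
  let σ : Fin m → Fin n := fun a => if R a then π' a else π a
  let σ' : Fin m → Fin n := fun a => if R a then π a else π' a
  have σR : ∀ a, R a → σ a = π' a := fun a h => if_pos h
  have σN : ∀ a, ¬ R a → σ a = π a := fun a h => if_neg h
  have σ'R : ∀ a, R a → σ' a = π a := fun a h => if_pos h
  have σ'N : ∀ a, ¬ R a → σ' a = π' a := fun a h => if_neg h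
  have hσ : Function.Injective σ := by
    intro a c h
    by_cases ha : R a <;> by_cases hc : R c
    · rw [σR a ha, σR c hc] at h
      exact π'.injective h
    · rw [σR a ha, σN c hc] at h
      exact absurd (hRr a c ha h.symm) hc
    · rw [σN a ha, σR c hc] at h
      exact absurd (hRr c a hc h) ha
    · rw [σN a ha, σN c hc] at h
      exact π.injective h
  have aux : ∀ a c, R a → ¬ R c → π a ≠ π' c := by
    intro a c ha hc h
    rcases hRt a ha with h1 | ⟨a1, h1, h2⟩
    · rw [h1, ha0] at h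
      exact hiB c h.symm
    · have h3 : c = a1 := π'.injective (h.symm.trans h2)
      exact hc (h3 ▸ h1)
  have hσ' : Function.Injective σ' := by
    intro a c h
    by_cases ha : R a <;> by_cases hc : R c
    · rw [σ'R a ha, σ'R c hc] at h
      exact π.injective h
    · rw [σ'R a ha, σ'N c hc] at h
      exact absurd h (aux a c ha hc)
    · rw [σ'N a ha, σ'R c hc] at h
      exact absurd h.symm (aux c a hc ha)
    · rw [σ'N a ha, σ'N c hc] at h
      exact π'.injective h
  let e : Fin m ↪ Fin n := ⟨σ, hσ⟩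
  let e' : Fin m ↪ Fin n := ⟨σ', hσ'⟩
  have hcost : cost u e + cost u e' = cost u π + cost u π' := by
    unfold cost
    rw [← sum_add_distrib, ← sum_add_distrib]
    refine sum_congr rfl fun a _ => ?_
    change u a (σ a) + u a (σ' a) = u a (π a) + u a (π' a)
    by_cases ha : R a
    · rw [σR a ha, σ'R a ha, add_comm]
    · rw [σN a ha, σ'N a ha]
  -- the element `j`
  let RA : Finset (Fin m) := univ.filter R
  have memA : ∀ y, y ∈ RA.map π ↔ ∃ a, R a ∧ π a = y := by
    intro y
    simp [RA]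
  have memB : ∀ y, y ∈ RA.map π' ↔ ∃ a, R a ∧ π' a = y := by
    intro y
    simp [RA]
  have hA : RA.map π = insert i (RA.map π' ∩ S) := by
    ext y
    rw [mem_insert, mem_inter, memA, memB]
    constructor
    · rintro ⟨a, ha, rfl⟩
      rcases hRt a ha with h1 | ⟨a1, h1, h2⟩
      · left; rw [h1, ha0]
      · right; exact ⟨⟨a1, h1, h2.symm⟩, memS a⟩
    · rintro (rfl | ⟨⟨a, ha, rfl⟩, hy⟩)
      · exact ⟨a0, hR0, ha0⟩
      · obtain ⟨c, hc⟩ := exS _ hy
        exact ⟨c, hRr a c ha hc, hc⟩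
  have hiB' : i ∉ RA.map π' ∩ S := by
    rw [mem_inter, memB]
    rintro ⟨⟨a, _, h⟩, _⟩
    exact hiB a h
  have hcard : (RA.map π' \ S).card = 1 := by
    have h1 : (RA.map π).card = (RA.map π' ∩ S).card + 1 := by
      rw [hA, card_insert_of_notMem hiB']
    have h2 : (RA.map π' \ S).card + (RA.map π' ∩ S).card = (RA.map π').card :=
      card_sdiff_add_card_inter _ _
    rw [card_map] at h1 h2
    omega
  obtain ⟨j, hj⟩ := card_eq_one.1 hcard
  have hjB : ∀ y, (∃ a, R a ∧ π' a = y) → y ∉ S → y = j := by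
    intro y h1 h2
    have : y ∈ RA.map π' \ S := mem_sdiff.2 ⟨(memB y).2 h1, h2⟩
    rw [hj, mem_singleton] at this
    exact this
  have hj' : j ∈ RA.map π' \ S := by rw [hj]; exact mem_singleton_self j
  obtain ⟨hj1, hjS⟩ := mem_sdiff.1 hj'
  obtain ⟨aj, haj, haj'⟩ := (memB j).1 hj1
  have hjS' : j ∈ S' := haj' ▸ memS' aj
  have memA' : ∀ y, (∃ a, R a ∧ π a = y) ↔ y = i ∨ ((∃ a, R a ∧ π' a = y) ∧ y ∈ S) := by
    intro y
    rw [← memA, hA, mem_insert, mem_inter, memB]
  have im1 : univ.map e = sw S i j := by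
    ext y
    simp only [mem_map, mem_univ, true_and, sw, mem_insert, mem_erase]
    constructor
    · rintro ⟨a, ha⟩
      change σ a = y at ha
      by_cases hRa : R a
      · rw [σR a hRa] at ha
        by_cases hy : y ∈ S
        · right
          exact ⟨fun h => hiB a (ha.trans h), hy⟩
        · left
          exact hjB y ⟨a, hRa, ha⟩ hy
      · rw [σN a hRa] at ha
        right
        refine ⟨fun h => hRa ?_, ha ▸ memS a⟩
        have h3 : a = a0 := π.injective (by rw [ha, h, ha0])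
        exact h3 ▸ hR0
    · rintro (h | ⟨h1, h2⟩)
      · refine ⟨aj, ?_⟩
        change σ aj = y
        rw [σR aj haj, haj', h]
      · obtain ⟨a, ha⟩ := exS y h2
        by_cases hRa : R a
        · rcases (memA' y).1 ⟨a, hRa, ha⟩ with h3 | ⟨⟨c, hc, hc'⟩, _⟩
          · exact absurd h3 h1
          · refine ⟨c, ?_⟩
            change σ c = y
            rw [σR c hc, hc']
        · refine ⟨a, ?_⟩
          change σ a = y
          rw [σN a hRa, ha]
  have im2 : univ.map e' = sw S' j i := by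
    ext y
    simp only [mem_map, mem_univ, true_and, sw, mem_insert, mem_erase]
    constructor
    · rintro ⟨a, ha⟩
      change σ' a = y at ha
      by_cases hRa : R a
      · rw [σ'R a hRa] at ha
        rcases (memA' y).1 ⟨a, hRa, ha⟩ with h3 | ⟨⟨c, hc, hc'⟩, hy⟩
        · exact Or.inl h3
        · right
          exact ⟨fun h => hjS (h ▸ hy), hc' ▸ memS' c⟩
      · rw [σ'N a hRa] at ha
        right
        refine ⟨fun h => hRa ?_, ha ▸ memS' a⟩
        have h3 : a = aj := π'.injective (by rw [ha, h, haj'])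
        rw [h3]; exact haj
    · rintro (h | ⟨h1, h2⟩)
      · refine ⟨a0, ?_⟩
        change σ' a0 = y
        rw [σ'R a0 hR0, ha0, h]
      · obtain ⟨a, ha⟩ := exS' y h2
        by_cases hRa : R a
        · have hy : y ∈ S := by
            by_contra hy
            exact h1 (hjB y ⟨a, hRa, ha⟩ hy)
          obtain ⟨c, hc, hc'⟩ := (memA' y).2 (Or.inr ⟨⟨a, hRa, ha⟩, hy⟩)
          refine ⟨c, ?_⟩
          change σ' c = y
          rw [σ'R c hc, hc']
        · refine ⟨a, ?_⟩
          change σ' a = y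
          rw [σ'N a hRa, ha]
  refine ⟨j, mem_sdiff.2 ⟨hjS', hjS⟩, ?_⟩
  have h1 := fA_le u e
  have h2 := fA_le u e'
  rw [im1] at h1
  rw [im2] at h2
  rw [← hcπ, ← hcπ', ← hcost]
  exact add_le_add h1 h2

end Pool.Agent.H36.CV
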