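import Mathlib

/-!
# CV-SS: planar points separated by few lines

`K` a finite family of affine functions `h k (x, y) = a k + b k * x + c k * y` on the plane, `C` a
finite set of points such that any two different points are separated strictly by some member. Then
`|C| ≤ 1 + |K| + C(|K|, 2)`.

Proof (Sauer-Shelah). For `z ∈ C` let `S z = {k ∈ K | 0 < h k z}`; `z ↦ S z` is injective on `C` (the
separating `k` is in exactly one of `S z, S z'`). Let `𝒜 = C.image S`, a family of subsets of `K`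
(work with the type `↥K` or with `ι` finite: `Fintype ι`). The family shatters no set of three
elements `k1, k2, k3`: there are reals `(l1, l2, l3) ≠ 0` with `l1 b1 + l2 b2 + l3 b3 = 0 =
l1 c1 + l2 c2 + l3 c3` (three vectors in the plane), so `l1 h1 + l2 h2 + l3 h3` is a constant `d`.
If some `li > 0`: the pattern `{i | li > 0}` gives a point with `li hi > 0` for these and
`li hi ≥ 0` for the others (`li < 0`, `hi ≤ 0`, or `li = 0`), so `d > 0`; the pattern `{i | li ≤ 0}`
(the complement) gives a point with `li hi ≤ 0` for all `i`, so `d ≤ 0`. Contradiction.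
If all `li ≤ 0` replace `l` by `-l`.
So `𝒜.vcDim ≤ 2` and `Finset.card_le_card_shatterer`, `Finset.card_shatterer_le_sum_vcDim` give
`|C| = |𝒜| ≤ Σ_{k ≤ 2} C(|K|, k)`.
-/

set_option autoImplicit false

open Finset

namespace Pool.Agent.H36.CV

theorem exists_relation (b1 b2 b3 c1 c2 c3 : ℝ) : ∃ l1 l2 l3 : ℝ,
    (0 < l1 ∨ 0 < l2 ∨ 0 < l3) ∧ l1 * b1 + l2 * b2 + l3 * b3 = 0 ∧
      l1 * c1 + l2 * c2 + l3 * c3 = 0 := by
  have key : ∃ l1 l2 l3 : ℝ, (l1 ≠ 0 ∨ l2 ≠ 0 ∨ l3 ≠ 0) ∧ l1 * b1 + l2 * b2 + l3 * b3 = 0 ∧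
      l1 * c1 + l2 * c2 + l3 * c3 = 0 := by
    by_cases h : b2 * c3 - b3 * c2 ≠ 0 ∨ b3 * c1 - b1 * c3 ≠ 0 ∨ b1 * c2 - b2 * c1 ≠ 0
    · exact ⟨_, _, _, h, by ring, by ring⟩
    · push Not at h
      obtain ⟨_, _, h3⟩ := h
      by_cases hb : b1 = 0
      · by_cases hc : c1 = 0
        · exact ⟨1, 0, 0, Or.inl one_ne_zero, by rw [hb]; ring, by rw [hc]; ring⟩
        · exact ⟨c2, -c1, 0, Or.inr (Or.inl (neg_ne_zero.2 hc)), by linarith, by ring⟩
      · exact ⟨b2, -b1, 0, Or.inr (Or.inl (neg_ne_zero.2 hb)), by ring, by linarith⟩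
  obtain ⟨l1, l2, l3, hne, e1, e2⟩ := key
  by_cases hp : 0 < l1 ∨ 0 < l2 ∨ 0 < l3
  · exact ⟨l1, l2, l3, hp, e1, e2⟩
  · push Not at hp
    obtain ⟨p1, p2, p3⟩ := hp
    refine ⟨-l1, -l2, -l3, ?_, by linarith, by linarith⟩
    rcases hne with h | h | h
    · exact Or.inl (neg_pos.2 (lt_of_le_of_ne p1 h))
    · exact Or.inr (Or.inl (neg_pos.2 (lt_of_le_of_ne p2 h)))
    · exact Or.inr (Or.inr (neg_pos.2 (lt_of_le_of_ne p3 h)))

theorem card_le_of_separated {ι : Type*} [Fintype ι] [DecidableEq ι] (a b c : ι → ℝ)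
    (C : Finset (ℝ × ℝ))
    (hsep : ∀ z ∈ C, ∀ z' ∈ C, z ≠ z' → ∃ k : ι,
      (a k + b k * z.1 + c k * z.2) * (a k + b k * z'.1 + c k * z'.2) < 0) :
    C.card ≤ 1 + Fintype.card ι + (Fintype.card ι).choose 2 := by
  classical
  set h : ι → ℝ × ℝ → ℝ := fun k z => a k + b k * z.1 + c k * z.2 with hh
  set S : ℝ × ℝ → Finset ι := fun z => Finset.univ.filter (fun k => 0 < h k z) with hS
  have memS : ∀ z k, k ∈ S z ↔ 0 < h k z := by
    intro z k
    simp [hS]
  have hinj : Set.InjOn S (C : Set (ℝ × ℝ)) := by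
    intro z hz z' hz' he
    by_contra hne
    obtain ⟨k, hk⟩ := hsep z hz z' hz' hne
    have hk' : h k z * h k z' < 0 := hk
    have e : (0 < h k z) ↔ (0 < h k z') := by
      rw [← memS, ← memS, he]
    rcases mul_neg_iff.1 hk' with ⟨p, q⟩ | ⟨p, q⟩
    · exact absurd (e.1 p) (not_lt.2 q.le)
    · exact absurd (e.2 q) (not_lt.2 p.le)
  have hvc : (C.image S).vcDim ≤ 2 := by
    unfold Finset.vcDim
    apply Finset.sup_le
    intro s hs
    by_contra hcard
    rw [Finset.mem_shatterer] at hs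
    push Not at hcard
    obtain ⟨t, hts, htc⟩ := Finset.exists_subset_card_eq (show 3 ≤ s.card by omega)
    have hsh := hs.mono_right hts
    obtain ⟨k1, k2, k3, h12, h13, h23, rfl⟩ := Finset.card_eq_three.1 htc
    obtain ⟨l1, l2, l3, hpos, e1, e2⟩ :=
      exists_relation (b k1) (b k2) (b k3) (c k1) (c k2) (c k3)
    have hpat : ∀ p : ι → Prop, ∃ z : ℝ × ℝ, (0 < h k1 z ↔ p k1) ∧ (0 < h k2 z ↔ p k2) ∧
        (0 < h k3 z ↔ p k3) := by
      intro p
      obtain ⟨u, hu, hut⟩ := hsh (Finset.filter_subset p {k1, k2, k3})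
      rw [Finset.mem_image] at hu
      obtain ⟨z, _, rfl⟩ := hu
      have hmem : ∀ k ∈ ({k1, k2, k3} : Finset ι), (0 < h k z ↔ p k) := by
        intro k hk
        have h1 : k ∈ ({k1, k2, k3} : Finset ι) ∩ S z ↔
            k ∈ ({k1, k2, k3} : Finset ι).filter p := by rw [hut]
        rw [Finset.mem_inter, memS, Finset.mem_filter] at h1
        constructor
        · intro hp
          exact (h1.1 ⟨hk, hp⟩).2
        · intro hp
          exact (h1.2 ⟨hk, hp⟩).2
      exact ⟨z, hmem k1 (by simp), hmem k2 (by simp), hmem k3 (by simp)⟩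
    -- numbers l k
    set l : ι → ℝ := fun k => if k = k1 then l1 else if k = k2 then l2 else l3 with hl
    have hl1 : l k1 = l1 := by simp [hl]
    have hl2 : l k2 = l2 := by simp [hl, h12.symm]
    have hl3 : l k3 = l3 := by simp [hl, h13.symm, h23.symm]
    have hconst : ∀ z, l1 * h k1 z + l2 * h k2 z + l3 * h k3 z =
        l1 * a k1 + l2 * a k2 + l3 * a k3 := by
      intro z
      simp only [hh]
      linear_combination z.1 * e1 + z.2 * e2
    obtain ⟨z, z1, z2, z3⟩ := hpat (fun k => 0 < l k)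
    obtain ⟨z', y1, y2, y3⟩ := hpat (fun k => ¬ 0 < l k)
    simp only [hl1, hl2, hl3] at z1 z2 z3 y1 y2 y3
    have hge : ∀ L H : ℝ, (0 < H ↔ 0 < L) → 0 ≤ L * H := by
      intro L H hLH
      by_cases hL : 0 < L
      · exact (mul_pos hL (hLH.2 hL)).le
      · have hH : ¬ 0 < H := fun hH => hL (hLH.1 hH)
        exact mul_nonneg_of_nonpos_of_nonpos (not_lt.1 hL) (not_lt.1 hH)
    have hle : ∀ L H : ℝ, (0 < H ↔ ¬ 0 < L) → L * H ≤ 0 := by
      intro L H hLH
      by_cases hL : 0 < L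
      · have hH : ¬ 0 < H := fun hH => (hLH.1 hH) hL
        exact mul_nonpos_of_nonneg_of_nonpos hL.le (not_lt.1 hH)
      · exact mul_nonpos_of_nonpos_of_nonneg (not_lt.1 hL) (hLH.2 hL).le
    have hd1 : 0 < l1 * h k1 z + l2 * h k2 z + l3 * h k3 z := by
      have g1 := hge _ _ z1
      have g2 := hge _ _ z2
      have g3 := hge _ _ z3
      rcases hpos with hp | hp | hp
      · have := mul_pos hp (z1.2 hp)
        linarith
      · have := mul_pos hp (z2.2 hp)
        linarith
      · have := mul_pos hp (z3.2 hp)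
        linarith
    have hd2 : l1 * h k1 z' + l2 * h k2 z' + l3 * h k3 z' ≤ 0 := by
      have g1 := hle _ _ y1
      have g2 := hle _ _ y2
      have g3 := hle _ _ y3
      linarith
    rw [hconst] at hd1 hd2
    linarith
  calc C.card = (C.image S).card := (Finset.card_image_of_injOn hinj).symm
    _ ≤ (C.image S).shatterer.card := Finset.card_le_card_shatterer _
    _ ≤ ∑ k ∈ Finset.Iic (C.image S).vcDim, (Fintype.card ι).choose k :=
        Finset.card_shatterer_le_sum_vcDim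
    _ ≤ ∑ k ∈ Finset.Iic 2, (Fintype.card ι).choose k :=
        Finset.sum_le_sum_of_subset (Finset.Iic_subset_Iic.2 hvc)
    _ = 1 + Fintype.card ι + (Fintype.card ι).choose 2 := by
        have : (Finset.Iic 2 : Finset ℕ) = {0, 1, 2} := by decide
        rw [this]
        simp
        ring

end Pool.Agent.H36.CV
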