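import Pool.Agent.H36.CV.Sep
import Pool.Agent.H36.CV.SS

/-!
# CV-CELLS: the number of cells is at most the number of regions of the key lines

See the header of Sep.lean, last paragraph: choose witnesses `z s` for the cells (`Classical.choose`);
`z` is injective on the cells; apply `card_le_of_separated` to `C = (cells U f P Q).image z` and
`ι = ↥((W U f P Q).image key)`; for `k : ι` choose `w ∈ W` with `key w = k` and take the affine
function `F · w.2 - F · w.1`, i.e. `a = f w.2 - f w.1`, `b = P w.2 - P w.1`, `c = Q w.2 - Q w.1`.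
By `hkey` this does not depend on the choice of `w`, so the wall of `exists_wall_between`, which may
be a different wall with the same key, is covered.
-/

set_option autoImplicit false

open Finset

namespace Pool.Agent.H36.CV

variable {α : Type*} [DecidableEq α] (U : Finset α) (f P Q : α → ℝ)

theorem cells_card {κ : Type*} [DecidableEq κ] (key : α × α → κ)
    (hkey : ∀ w w' : α × α, key w = key w' →
      f w.2 - f w.1 = f w'.2 - f w'.1 ∧ P w.2 - P w.1 = P w'.2 - P w'.1 ∧
        Q w.2 - Q w.1 = Q w'.2 - Q w'.1)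
    (hadj : ∀ v : ℝ × ℝ, ∀ dx dy : ℝ, ∀ s ∈ opt U f P Q v, ∀ t ∈ opt U f P Q v,
      dx * P t + dy * Q t < dx * P s + dy * Q s →
      ∃ t' ∈ opt U f P Q v, dx * P t' + dy * Q t' < dx * P s + dy * Q s ∧
        ((s, t') ∈ W U f P Q ∨ (t', s) ∈ W U f P Q)) :
    (cells U f P Q).card ≤ 1 + ((W U f P Q).image key).card +
      ((W U f P Q).image key).card.choose 2 := by
  classical
  -- witnesses
  have hcell : ∀ s ∈ cells U f P Q, s ∈ U ∧ ∃ z : ℝ × ℝ, ∀ t ∈ U, t ≠ s →
      F f P Q z.1 z.2 s < F f P Q z.1 z.2 t := by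
    intro s hs
    unfold cells at hs
    rw [Finset.mem_filter] at hs
    obtain ⟨hsU, x, y, h⟩ := hs
    exact ⟨hsU, (x, y), h⟩
  have hU : ∀ s ∈ cells U f P Q, s ∈ U := fun s hs => (hcell s hs).1
  have hzex : ∀ s : α, ∃ z : ℝ × ℝ, s ∈ cells U f P Q → ∀ t ∈ U, t ≠ s →
      F f P Q z.1 z.2 s < F f P Q z.1 z.2 t := by
    intro s
    by_cases hs : s ∈ cells U f P Q
    · obtain ⟨z, hz⟩ := (hcell s hs).2
      exact ⟨z, fun _ => hz⟩
    · exact ⟨(0, 0), fun h => absurd h hs⟩
  choose z hz using hzex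
  have hinj : Set.InjOn z (cells U f P Q : Set α) := by
    intro s hs s' hs' hzz
    by_contra hne
    have hs1 : s ∈ cells U f P Q := hs
    have hs1' : s' ∈ cells U f P Q := hs'
    have h1 := hz s hs1 s' (hU s' hs1') (Ne.symm hne)
    have h2 := hz s' hs1' s (hU s hs1) hne
    rw [hzz] at h1
    exact lt_irrefl _ (h1.trans h2)
  -- key representatives
  have hrep : ∀ k : ↥((W U f P Q).image key), ∃ w ∈ W U f P Q, key w = k.1 := by
    intro k
    have := k.2
    rw [Finset.mem_image] at this
    obtain ⟨w, hw, hwk⟩ := this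
    exact ⟨w, hw, hwk⟩
  choose w hwW hwk using hrep
  have hmain := card_le_of_separated (ι := ↥((W U f P Q).image key))
    (fun k => f (w k).2 - f (w k).1) (fun k => P (w k).2 - P (w k).1)
    (fun k => Q (w k).2 - Q (w k).1) ((cells U f P Q).image z) (by
      intro p hp p' hp' hne
      rw [Finset.mem_image] at hp hp'
      obtain ⟨s, hs, rfl⟩ := hp
      obtain ⟨s', hs', rfl⟩ := hp'
      have hss : s ≠ s' := fun h => hne (by rw [h])
      obtain ⟨v, hvW, hv⟩ := exists_wall_between U f P Q hadj s s' (hU s hs) (hU s' hs') hss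
        (z s) (z s') (hz s hs) (hz s' hs')
      refine ⟨⟨key v, Finset.mem_image_of_mem key hvW⟩, ?_⟩
      have hk := hkey (w ⟨key v, Finset.mem_image_of_mem key hvW⟩) v
        (hwk ⟨key v, Finset.mem_image_of_mem key hvW⟩)
      obtain ⟨e1, e2, e3⟩ := hk
      simp only [e1, e2, e3]
      have ha : ∀ q : ℝ × ℝ, f v.2 - f v.1 + (P v.2 - P v.1) * q.1 + (Q v.2 - Q v.1) * q.2
          = F f P Q q.1 q.2 v.2 - F f P Q q.1 q.2 v.1 := by
        intro q
        unfold F
        ring
      rw [ha, ha]
      exact hv)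
  rw [Finset.card_image_of_injOn hinj, Fintype.card_coe] at hmain
  exact hmain

end Pool.Agent.H36.CV
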