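import Pool.Agent.H36.CV.Defs

/-!
# CV-CROSS: the local sum at a crossing

`opt v = {s, s1, s2, s3}` (distinct) and the planar points form a nondegenerate parallelogram:
`P s3 = P s1 + P s2 - P s`, `Q s3 = Q s1 + Q s2 - Q s`, `D P Q s s1 s2 ≠ 0`, `P s1 ≠ P s`,
`P s2 ≠ P s`. `Om` antisymmetric with boundary sum
`E := Om s s1 + Om s1 s3 + Om s3 s2 + Om s2 s`, `D P Q s s1 s2 * E ≤ 0`. Then
`Σ_{Low v} Om - Σ_{Upp v} Om ≤ 0`.

Proof. Put `d := D s s1 s2`. By `unfold D; ring` (after substituting `P s3, Q s3`):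
`D s s1 s2 = D s s1 s3 = d`, `D s1 s3 s = D s1 s3 s2 = d`, `D s3 s2 s = D s3 s2 s1 = d`,
`D s2 s s1 = D s2 s s3 = d` (the boundary pairs), the reversed pairs have `-d`;
for the diagonals `D s s3 s1 = d', D s s3 s2 = -d'` with `d' = ±d`, and
`D s1 s2 s = -D s1 s2 s3 = ± d`: both signs occur, so diagonals are neither in `Low` nor in `Upp`.
If `d > 0`: `Low v = B.filter (P w.2 < P w.1)` with `B = {(s,s1),(s1,s3),(s3,s2),(s2,s)}` and
`Upp v = B.swap.filter (P w.2 < P w.1)`; for each of the four edges exactly one order satisfies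
`P w.2 < P w.1` (`P s1 ≠ P s`, `P s3 - P s1 = P s2 - P s ≠ 0`, ...), so `Σ_Low - Σ_Upp = E ≤ 0`.
If `d < 0`: exchange the roles of `B` and `B.swap`: `Σ_Low - Σ_Upp = -E ≤ 0`.
(One may assume `d > 0` by exchanging `s1` and `s2`: `D s s2 s1 = - D s s1 s2` and `E` changes sign.)

`cross_key`: if moreover `key (s,s1) = key (s2,s3)`, `key (s1,s) = key (s3,s2)`,
`key (s,s2) = key (s1,s3)`, `key (s2,s) = key (s3,s1)`, then each `w ∈ Low v` has a `w' ∈ Upp v` with
the same key: `w` is one of the eight ordered edges; `w'` is the opposite edge in the same direction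
(for `(s,s1)` it is `(s2,s3)`): it has the same `P`-difference and the opposite `D`s.
`cross_edges`: each pair of neighbours is in `Low ∪ Upp` in one of the orders.
-/

set_option autoImplicit false

open Finset

namespace Pool.Agent.H36.CV

variable {α : Type*} [DecidableEq α] (U : Finset α) (f P Q : α → ℝ)

theorem cr_mem_Low (v : ℝ × ℝ) (a b : α) :
    (a, b) ∈ Low U f P Q v ↔ (a ∈ opt U f P Q v ∧ b ∈ opt U f P Q v) ∧ P b < P a ∧
      (∃ t ∈ opt U f P Q v, t ≠ a ∧ t ≠ b) ∧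
      ∀ t ∈ opt U f P Q v, t ≠ a → t ≠ b → 0 < D P Q a b t := by
  classical
  unfold Low
  simp only [mem_filter, mem_product]

theorem cr_mem_Upp (v : ℝ × ℝ) (a b : α) :
    (a, b) ∈ Upp U f P Q v ↔ (a ∈ opt U f P Q v ∧ b ∈ opt U f P Q v) ∧ P b < P a ∧
      (∃ t ∈ opt U f P Q v, t ≠ a ∧ t ≠ b) ∧
      ∀ t ∈ opt U f P Q v, t ≠ a → t ≠ b → D P Q a b t < 0 := by
  classical
  unfold Upp
  simp only [mem_filter, mem_product]

/-- distinctness -/
theorem cr_ne (s s1 s2 s3 : α)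
    (hP : P s3 = P s1 + P s2 - P s) (hQ : Q s3 = Q s1 + Q s2 - Q s)
    (h1 : P s1 ≠ P s) (h2 : P s2 ≠ P s) (hD : D P Q s s1 s2 ≠ 0) :
    s ≠ s1 ∧ s ≠ s2 ∧ s ≠ s3 ∧ s1 ≠ s2 ∧ s1 ≠ s3 ∧ s2 ≠ s3 := by
  refine ⟨?_, ?_, ?_, ?_, ?_, ?_⟩
  · rintro rfl; exact h1 rfl
  · rintro rfl; exact h2 rfl
  · rintro rfl
    apply hD
    have e1 : P s2 = 2 * P s - P s1 := by linarith
    have e2 : Q s2 = 2 * Q s - Q s1 := by linarith
    unfold D; rw [e1, e2]; ring
  · rintro rfl
    apply hD; unfold D; ring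
  · rintro rfl
    apply h2; linarith
  · rintro rfl
    apply h1; linarith

/-- An edge of the clockwise boundary is in `Low` or its reverse is in `Upp`, according to `P`. -/
theorem cr_edge (v : ℝ × ℝ) (a b c d : α) (hopt : opt U f P Q v = {a, b, c, d})
    (hab : a ≠ b) (hca : c ≠ a) (hcb : c ≠ b)
    (hc : 0 < D P Q a b c) (hd : d ≠ a → d ≠ b → 0 < D P Q a b d) :
    (P b < P a → (a, b) ∈ Low U f P Q v) ∧ (P a < P b → (b, a) ∈ Upp U f P Q v) := by
  have sw : ∀ t, D P Q b a t = - D P Q a b t := by intro t; unfold D; ring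
  constructor
  · intro h
    rw [cr_mem_Low, hopt]
    refine ⟨⟨by simp, by simp⟩, h, ⟨c, by simp, hca, hcb⟩, ?_⟩
    intro t ht hta htb
    simp only [mem_insert, mem_singleton] at ht
    rcases ht with rfl | rfl | rfl | rfl
    · exact absurd rfl hta
    · exact absurd rfl htb
    · exact hc
    · exact hd hta htb
  · intro h
    rw [cr_mem_Upp, hopt]
    refine ⟨⟨by simp, by simp⟩, h, ⟨c, by simp, hcb, hca⟩, ?_⟩
    intro t ht htb hta
    simp only [mem_insert, mem_singleton] at ht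
    rcases ht with rfl | rfl | rfl | rfl
    · exact absurd rfl hta
    · exact absurd rfl htb
    · rw [sw]; linarith
    · rw [sw]; linarith [hd hta htb]

/-- The case of positive `D`: the two sets of edges. -/
theorem cr_low (v : ℝ × ℝ)
    (s s1 s2 s3 : α) (hopt : opt U f P Q v = {s, s1, s2, s3})
    (hP : P s3 = P s1 + P s2 - P s) (hQ : Q s3 = Q s1 + Q s2 - Q s)
    (h1 : P s1 ≠ P s) (h2 : P s2 ≠ P s) (hD : 0 < D P Q s s1 s2) :
    Low U f P Q v = ({(s, s1), (s1, s3), (s3, s2), (s2, s)} : Finset (α × α)).filter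
      (fun w => P w.2 < P w.1) ∧
    Upp U f P Q v = ({(s1, s), (s3, s1), (s2, s3), (s, s2)} : Finset (α × α)).filter
      (fun w => P w.2 < P w.1) := by
  obtain ⟨n1, n2, n3, n4, n5, n6⟩ := cr_ne P Q s s1 s2 s3 hP hQ h1 h2 hD.ne'
  have d1 : D P Q s s1 s3 = D P Q s s1 s2 := by unfold D; rw [hP, hQ]; ring
  have d2 : D P Q s1 s3 s = D P Q s s1 s2 := by unfold D; rw [hP, hQ]; ring
  have d3 : D P Q s1 s3 s2 = D P Q s s1 s2 := by unfold D; rw [hP, hQ]; ring
  have d4 : D P Q s3 s2 s = D P Q s s1 s2 := by unfold D; rw [hP, hQ]; ring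
  have d5 : D P Q s3 s2 s1 = D P Q s s1 s2 := by unfold D; rw [hP, hQ]; ring
  have d6 : D P Q s2 s s1 = D P Q s s1 s2 := by unfold D; ring
  have d7 : D P Q s2 s s3 = D P Q s s1 s2 := by unfold D; rw [hP, hQ]; ring
  have e1 : D P Q s s3 s1 = - D P Q s s1 s2 := by unfold D; rw [hP, hQ]; ring
  have e2 : D P Q s s3 s2 = D P Q s s1 s2 := by unfold D; rw [hP, hQ]; ring
  have e3 : D P Q s1 s2 s = D P Q s s1 s2 := by unfold D; ring
  have e4 : D P Q s1 s2 s3 = - D P Q s s1 s2 := by unfold D; rw [hP, hQ]; ring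
  have sw : ∀ a b t, D P Q b a t = - D P Q a b t := by intro a b t; unfold D; ring
  have o1 : opt U f P Q v = {s1, s3, s, s2} := by
    rw [hopt]; ext x; simp only [mem_insert, mem_singleton]; tauto
  have o2 : opt U f P Q v = {s3, s2, s, s1} := by
    rw [hopt]; ext x; simp only [mem_insert, mem_singleton]; tauto
  have o3 : opt U f P Q v = {s2, s, s1, s3} := by
    rw [hopt]; ext x; simp only [mem_insert, mem_singleton]; tauto
  obtain ⟨E1, E1'⟩ := cr_edge U f P Q v s s1 s2 s3 hopt n1 n2.symm n4.symm hD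
    (fun _ _ => by rw [d1]; exact hD)
  obtain ⟨E2, E2'⟩ := cr_edge U f P Q v s1 s3 s s2 o1 n5 n1 n3 (by rw [d2]; exact hD)
    (fun _ _ => by rw [d3]; exact hD)
  obtain ⟨E3, E3'⟩ := cr_edge U f P Q v s3 s2 s s1 o2 n6.symm n3 n2 (by rw [d4]; exact hD)
    (fun _ _ => by rw [d5]; exact hD)
  obtain ⟨E4, E4'⟩ := cr_edge U f P Q v s2 s s1 s3 o3 n2.symm n4 n1.symm (by rw [d6]; exact hD)
    (fun _ _ => by rw [d7]; exact hD)
  have m0 : s ∈ opt U f P Q v := by rw [hopt]; simp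
  have m1 : s1 ∈ opt U f P Q v := by rw [hopt]; simp
  have m2 : s2 ∈ opt U f P Q v := by rw [hopt]; simp
  have m3 : s3 ∈ opt U f P Q v := by rw [hopt]; simp
  constructor
  · ext ⟨a, b⟩
    rw [mem_filter]
    constructor
    · intro h
      obtain ⟨⟨ha, hb⟩, hlt, -, hall⟩ := (cr_mem_Low U f P Q v a b).1 h
      refine ⟨?_, hlt⟩
      have ha' := ha
      have hb' := hb
      rw [hopt] at ha' hb'
      simp only [mem_insert, mem_singleton] at ha' hb'
      rcases ha' with rfl | rfl | rfl | rfl <;> rcases hb' with rfl | rfl | rfl | rfl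
      · exact absurd hlt (lt_irrefl _)
      · simp
      · have := hall _ m1 n1.symm n4
        rw [sw _ _ _, d6] at this; linarith
      · have := hall _ m1 n1.symm n5
        rw [e1] at this; linarith
      · have := hall _ m2 n4.symm n2.symm
        rw [sw] at this; linarith
      · exact absurd hlt (lt_irrefl _)
      · have := hall _ m3 n5.symm n6.symm
        rw [e4] at this; linarith
      · simp
      · simp
      · have := hall _ m0 n2 n1
        rw [sw, e3] at this; linarith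
      · exact absurd hlt (lt_irrefl _)
      · have := hall _ m0 n2 n3
        rw [sw, d4] at this; linarith
      · have := hall _ m2 n6 n2.symm
        rw [sw, e2] at this; linarith
      · have := hall _ m0 n3 n1
        rw [sw, d2] at this; linarith
      · simp
      · exact absurd hlt (lt_irrefl _)
    · rintro ⟨h, hlt⟩
      simp only [mem_insert, mem_singleton, Prod.mk.injEq] at h
      rcases h with ⟨rfl, rfl⟩ | ⟨rfl, rfl⟩ | ⟨rfl, rfl⟩ | ⟨rfl, rfl⟩
      · exact E1 hlt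
      · exact E2 hlt
      · exact E3 hlt
      · exact E4 hlt
  · ext ⟨a, b⟩
    rw [mem_filter]
    constructor
    · intro h
      obtain ⟨⟨ha, hb⟩, hlt, -, hall⟩ := (cr_mem_Upp U f P Q v a b).1 h
      refine ⟨?_, hlt⟩
      have ha' := ha
      have hb' := hb
      rw [hopt] at ha' hb'
      simp only [mem_insert, mem_singleton] at ha' hb'
      rcases ha' with rfl | rfl | rfl | rfl <;> rcases hb' with rfl | rfl | rfl | rfl
      · exact absurd hlt (lt_irrefl _)
      · have := hall _ m2 n2.symm n4.symm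
        linarith
      · simp
      · have := hall _ m2 n2.symm n6
        rw [e2] at this; linarith
      · simp
      · exact absurd hlt (lt_irrefl _)
      · have := hall _ m0 n1 n2
        rw [e3] at this; linarith
      · have := hall _ m0 n1 n3
        rw [d2] at this; linarith
      · have := hall _ m1 n4 n1.symm
        rw [d6] at this; linarith
      · have := hall _ m3 n6.symm n5.symm
        rw [sw, e4] at this; linarith
      · exact absurd hlt (lt_irrefl _)
      · simp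
      · have := hall _ m1 n5 n1.symm
        rw [sw, e1] at this; linarith
      · simp
      · have := hall _ m0 n3 n2
        rw [d4] at this; linarith
      · exact absurd hlt (lt_irrefl _)
    · rintro ⟨h, hlt⟩
      simp only [mem_insert, mem_singleton, Prod.mk.injEq] at h
      rcases h with ⟨rfl, rfl⟩ | ⟨rfl, rfl⟩ | ⟨rfl, rfl⟩ | ⟨rfl, rfl⟩
      · exact E1' hlt
      · exact E2' hlt
      · exact E3' hlt
      · exact E4' hlt

theorem cr_sum_pos (Om : α → α → ℤ) (hanti : ∀ a b, Om a b = - Om b a) (v : ℝ × ℝ)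
    (s s1 s2 s3 : α) (hopt : opt U f P Q v = {s, s1, s2, s3})
    (hP : P s3 = P s1 + P s2 - P s) (hQ : Q s3 = Q s1 + Q s2 - Q s)
    (h1 : P s1 ≠ P s) (h2 : P s2 ≠ P s) (hD : 0 < D P Q s s1 s2) :
    (∑ w ∈ Low U f P Q v, Om w.1 w.2) - (∑ w ∈ Upp U f P Q v, Om w.1 w.2) =
      Om s s1 + Om s1 s3 + Om s3 s2 + Om s2 s := by
  obtain ⟨n1, n2, n3, n4, n5, n6⟩ := cr_ne P Q s s1 s2 s3 hP hQ h1 h2 hD.ne'
  obtain ⟨hL, hU⟩ := cr_low U f P Q v s s1 s2 s3 hopt hP hQ h1 h2 hD
  rw [hL, hU, sum_filter, sum_filter]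
  rw [sum_insert, sum_insert, sum_insert, sum_singleton, sum_insert, sum_insert, sum_insert,
    sum_singleton]
  · have a1 := hanti s1 s
    have a2 := hanti s3 s1
    have a3 := hanti s2 s3
    have a4 := hanti s s2
    have key : ∀ a b : α, P a ≠ P b → Om b a = - Om a b →
        (if P b < P a then Om a b else 0) - (if P a < P b then Om b a else 0) = Om a b := by
      intro a b hab hO
      rcases lt_or_gt_of_ne hab with h | h
      · rw [if_neg (not_lt.2 h.le), if_pos h, hO]; ring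
      · rw [if_pos h, if_neg (not_lt.2 h.le)]; ring
    have k1 := key s s1 h1.symm a1
    have k2 := key s1 s3 (by rw [hP]; intro h; apply h2; linarith) a2
    have k3 := key s3 s2 (by rw [hP]; intro h; apply h1; linarith) a3
    have k4 := key s2 s h2 a4
    simp only
    linarith
  all_goals
    simp only [mem_insert, mem_singleton, Prod.mk.injEq, not_or, not_and]
    try simp [n1, n2, n3, n4, n5, n6, n1.symm, n2.symm, n3.symm, n4.symm, n5.symm, n6.symm]

theorem cross_sum (Om : α → α → ℤ) (hanti : ∀ a b, Om a b = - Om b a) (v : ℝ × ℝ)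
    (s s1 s2 s3 : α) (hopt : opt U f P Q v = {s, s1, s2, s3})
    (hP : P s3 = P s1 + P s2 - P s) (hQ : Q s3 = Q s1 + Q s2 - Q s)
    (h1 : P s1 ≠ P s) (h2 : P s2 ≠ P s) (hD : D P Q s s1 s2 ≠ 0)
    (hpos : 0 < D P Q s s1 s2 → Om s s1 + Om s1 s3 + Om s3 s2 + Om s2 s ≤ 0)
    (hneg : D P Q s s1 s2 < 0 → 0 ≤ Om s s1 + Om s1 s3 + Om s3 s2 + Om s2 s) :
    (∑ w ∈ Low U f P Q v, Om w.1 w.2) - (∑ w ∈ Upp U f P Q v, Om w.1 w.2) ≤ 0 := by
  rcases lt_or_gt_of_ne hD with h | h
  · have o1 : opt U f P Q v = {s, s2, s1, s3} := by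
      rw [hopt]; ext x; simp only [mem_insert, mem_singleton]; tauto
    have hD' : 0 < D P Q s s2 s1 := by
      have : D P Q s s2 s1 = - D P Q s s1 s2 := by unfold D; ring
      linarith
    rw [cr_sum_pos U f P Q Om hanti v s s2 s1 s3 o1 (by linarith) (by linarith) h2 h1 hD']
    have := hneg h
    have a1 := hanti s s1
    have a2 := hanti s1 s3
    have a3 := hanti s3 s2
    have a4 := hanti s2 s
    linarith
  · rw [cr_sum_pos U f P Q Om hanti v s s1 s2 s3 hopt hP hQ h1 h2 h]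
    exact hpos h

theorem cr_key_pos {κ : Type*} (key : α × α → κ) (v : ℝ × ℝ)
    (s s1 s2 s3 : α) (hopt : opt U f P Q v = {s, s1, s2, s3})
    (hP : P s3 = P s1 + P s2 - P s) (hQ : Q s3 = Q s1 + Q s2 - Q s)
    (h1 : P s1 ≠ P s) (h2 : P s2 ≠ P s) (hD : 0 < D P Q s s1 s2)
    (k1 : key (s, s1) = key (s2, s3)) (k2 : key (s1, s) = key (s3, s2))
    (k3 : key (s, s2) = key (s1, s3)) (k4 : key (s2, s) = key (s3, s1))
    (w : α × α) (hw : w ∈ Low U f P Q v) :
    ∃ w' ∈ Upp U f P Q v, key w' = key w := by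
  obtain ⟨hL, hU⟩ := cr_low U f P Q v s s1 s2 s3 hopt hP hQ h1 h2 hD
  rw [hL, mem_filter] at hw
  obtain ⟨hw, hlt⟩ := hw
  obtain ⟨a, b⟩ := w
  simp only [mem_insert, mem_singleton, Prod.mk.injEq] at hw hlt
  rw [hU]
  rcases hw with ⟨rfl, rfl⟩ | ⟨rfl, rfl⟩ | ⟨rfl, rfl⟩ | ⟨rfl, rfl⟩
  · refine ⟨(s2, s3), mem_filter.2 ⟨by simp, ?_⟩, k1.symm⟩
    simp only; linarith
  · refine ⟨(s, s2), mem_filter.2 ⟨by simp, ?_⟩, k3⟩
    simp only; linarith
  · refine ⟨(s1, s), mem_filter.2 ⟨by simp, ?_⟩, k2⟩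
    simp only; linarith
  · refine ⟨(s3, s1), mem_filter.2 ⟨by simp, ?_⟩, k4.symm⟩
    simp only; linarith

theorem cross_key {κ : Type*} (key : α × α → κ) (v : ℝ × ℝ)
    (s s1 s2 s3 : α) (hopt : opt U f P Q v = {s, s1, s2, s3})
    (hP : P s3 = P s1 + P s2 - P s) (hQ : Q s3 = Q s1 + Q s2 - Q s)
    (h1 : P s1 ≠ P s) (h2 : P s2 ≠ P s) (hD : D P Q s s1 s2 ≠ 0)
    (k1 : key (s, s1) = key (s2, s3)) (k2 : key (s1, s) = key (s3, s2))
    (k3 : key (s, s2) = key (s1, s3)) (k4 : key (s2, s) = key (s3, s1))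
    (w : α × α) (hw : w ∈ Low U f P Q v) :
    ∃ w' ∈ Upp U f P Q v, key w' = key w := by
  rcases lt_or_gt_of_ne hD with h | h
  · have o1 : opt U f P Q v = {s, s2, s1, s3} := by
      rw [hopt]; ext x; simp only [mem_insert, mem_singleton]; tauto
    have hD' : 0 < D P Q s s2 s1 := by
      have : D P Q s s2 s1 = - D P Q s s1 s2 := by unfold D; ring
      linarith
    exact cr_key_pos U f P Q key v s s2 s1 s3 o1 (by linarith) (by linarith) h2 h1 hD'
      k3 k4 k1 k2 w hw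
  · exact cr_key_pos U f P Q key v s s1 s2 s3 hopt hP hQ h1 h2 h k1 k2 k3 k4 w hw

theorem cr_edges_pos (v : ℝ × ℝ)
    (s s1 s2 s3 : α) (hopt : opt U f P Q v = {s, s1, s2, s3})
    (hP : P s3 = P s1 + P s2 - P s) (hQ : Q s3 = Q s1 + Q s2 - Q s)
    (h1 : P s1 ≠ P s) (h2 : P s2 ≠ P s) (hD : 0 < D P Q s s1 s2)
    (a b : α) (hab : (a, b) ∈ ({(s, s1), (s, s2), (s1, s3), (s2, s3)} : Finset (α × α))) :
    (a, b) ∈ Low U f P Q v ∪ Upp U f P Q v ∨ (b, a) ∈ Low U f P Q v ∪ Upp U f P Q v := by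
  obtain ⟨hL, hU⟩ := cr_low U f P Q v s s1 s2 s3 hopt hP hQ h1 h2 hD
  rw [hL, hU]
  simp only [mem_insert, mem_singleton, Prod.mk.injEq] at hab
  have g : ∀ a b : α, P a ≠ P b → P b < P a ∨ P a < P b := fun a b h =>
    (lt_or_gt_of_ne h).symm
  rcases hab with ⟨rfl, rfl⟩ | ⟨rfl, rfl⟩ | ⟨rfl, rfl⟩ | ⟨rfl, rfl⟩
  · rcases g a b h1.symm with h | h
    · left; exact mem_union_left _ (mem_filter.2 ⟨by simp, h⟩)
    · right; exact mem_union_right _ (mem_filter.2 ⟨by simp, h⟩)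
  · rcases g a b h2.symm with h | h
    · left; exact mem_union_right _ (mem_filter.2 ⟨by simp, h⟩)
    · right; exact mem_union_left _ (mem_filter.2 ⟨by simp, h⟩)
  · rcases g a b (by rw [hP]; intro h; apply h2; linarith) with h | h
    · left; exact mem_union_left _ (mem_filter.2 ⟨by simp, h⟩)
    · right; exact mem_union_right _ (mem_filter.2 ⟨by simp, h⟩)
  · rcases g a b (by rw [hP]; intro h; apply h1; linarith) with h | h
    · left; exact mem_union_right _ (mem_filter.2 ⟨by simp, h⟩)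
    · right; exact mem_union_left _ (mem_filter.2 ⟨by simp, h⟩)

theorem cross_edges (v : ℝ × ℝ)
    (s s1 s2 s3 : α) (hopt : opt U f P Q v = {s, s1, s2, s3})
    (hP : P s3 = P s1 + P s2 - P s) (hQ : Q s3 = Q s1 + Q s2 - Q s)
    (h1 : P s1 ≠ P s) (h2 : P s2 ≠ P s) (hD : D P Q s s1 s2 ≠ 0)
    (a b : α) (hab : (a, b) ∈ ({(s, s1), (s, s2), (s1, s3), (s2, s3)} : Finset (α × α))) :
    (a, b) ∈ Low U f P Q v ∪ Upp U f P Q v ∨ (b, a) ∈ Low U f P Q v ∪ Upp U f P Q v := by
  rcases lt_or_gt_of_ne hD with h | h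
  · have o1 : opt U f P Q v = {s, s2, s1, s3} := by
      rw [hopt]; ext x; simp only [mem_insert, mem_singleton]; tauto
    have hD' : 0 < D P Q s s2 s1 := by
      have : D P Q s s2 s1 = - D P Q s s1 s2 := by unfold D; ring
      linarith
    refine cr_edges_pos U f P Q v s s2 s1 s3 o1 (by linarith) (by linarith) h2 h1 hD' a b ?_
    simp only [mem_insert, mem_singleton, Prod.mk.injEq] at hab ⊢
    tauto
  · exact cr_edges_pos U f P Q v s s1 s2 s3 hopt hP hQ h1 h2 h a b hab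

end Pool.Agent.H36.CV
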