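import Pool.Agent.H36.CV.Shape

/-!
# CV-OMEGA: the alternating form and convex position

All proofs are elementary. `sg a b` is the sign of `b - a`; `om S T = Σ_{a ∈ S} Σ_{b ∈ T} sg a b`.
`om_anti`: `Finset.sum_comm` and `sg a b = - sg b a`.
Exchange formulas: for `i ∈ S`, `j ∉ S`
  `om T (sw S i j) = om T S + Σ_{a ∈ T} (sg a j - sg a i)`,
  `om (sw S i j) T = om S T + Σ_{b ∈ T} (sg j b - sg i b)`
(`Finset.sum_insert`, `Finset.sum_erase_eq_sub` / `Finset.add_sum_erase`).
`om_bound`: `om S (sw S i j) = om S S + Σ_{a ∈ S} (sg a j - sg a i)`, `om S S = 0` by antisymmetry,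
each summand has absolute value `≤ 2`.
`om_white`: with `S1 = sw S i j`, `S2 = sw S i k` the cyclic sum is
`ω(e_j - e_i, e_k - e_i) = sg j k - sg j i - sg i k = sg i j + sg j k + sg k i`, and
`D S S1 S2 = - det3 i j k` (by `sm_sw`, ring). By convexity `sg i j + sg j k + sg k i` is `1` if
`det3 i j k > 0` and `-1` if `det3 i j k < 0` (six orders of `i, j, k`; `det3` is invariant under
cyclic shifts and changes sign under transpositions).
`om_black`: `S1 = sw S i k`, `S2 = sw S j k` (`i, j ∈ S`, `k ∉ S`): the cyclic sum is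
`ω(e_k - e_i, e_k - e_j) = - sg k j - sg i k + sg i j`, the same; and `D S S1 S2 = - det3 i j k`
(ring). `om_cross`: `S1 = sw S i k`, `S2 = sw S j l`, `S3 = sw (sw S i k) j l`,
the cyclic sum `om S S1 + om S1 S3 + om S3 S2 + om S2 S` is `2 ω(e_k - e_i, e_l - e_j)
= 2 (sg k l - sg k j - sg i l + sg i j)` and `D S S1 S2 = - ((p k - p i)(q l - q j) -
(q k - q i)(p l - p j))`. Claim `cross_sign`: for four different `i, j, k, l` in convex position
`ω > 0` implies `(p k - p i)(q l - q j) - (q k - q i)(p l - p j) > 0` and `ω < 0` implies `< 0`.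
The number `ω = sg k l - sg k j - sg i l + sg i j` is `±2` iff the chords `ik`, `jl` cross and `0`
otherwise. Proof: 24 orders; in a crossing case, e.g. `i < j < k < l`, `ω = 1 + 1 - 1 + 1 = 2` and
`(p k - p i)(q l - q j) - (q k - q i)(p l - p j) = det3 i k l + det3 i j k` (ring identity), both
`> 0`. In general it equals `det3 i k l - det3 i k j` for all `i, j, k, l`, and `det3 i k l`,
`det3 i k j` have the signs of `sg i k + sg k l + sg l i` and `sg i k + sg k j + sg j i` by
`det3_sign`; the difference of these two cyclic signs is `ω`; so `ω = 2` means signs `1, -1`,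
`ω = -2` means `-1, 1`, and otherwise `ω = 0`. (Cyclic signs are `±1` for three different elements.)
-/

set_option autoImplicit false

open Finset

namespace Pool.Agent.H36.CV

variable {n : ℕ}

theorem omg_sg_anti (a b : Fin n) : sg a b = - sg b a := by
  unfold sg
  rcases lt_trichotomy a b with h | h | h
  · simp [h, lt_asymm h]
  · subst h
    simp
  · simp [h, lt_asymm h]

theorem omg_sg_self (a : Fin n) : sg a a = 0 := by
  unfold sg
  simp

theorem omg_sg_abs (a b : Fin n) : |sg a b| ≤ 1 := by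
  unfold sg
  split_ifs <;> simp

/-- The sum of the signs over a set. -/
def omgR (T : Finset (Fin n)) (x : Fin n) : ℤ := ∑ a ∈ T, sg a x

theorem omg_R_sw (S : Finset (Fin n)) (i j x : Fin n) (hi : i ∈ S) (hj : j ∉ S) :
    omgR (sw S i j) x = omgR S x + sg j x - sg i x := by
  unfold omgR sw
  have hj' : j ∉ S.erase i := fun h => hj (mem_of_mem_erase h)
  rw [sum_insert hj', ← add_sum_erase S (fun a => sg a x) hi]
  ring

theorem omg_right (T S : Finset (Fin n)) (i j : Fin n) (hi : i ∈ S) (hj : j ∉ S) :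
    om T (sw S i j) = om T S + omgR T j - omgR T i := by
  have hj' : j ∉ S.erase i := fun h => hj (mem_of_mem_erase h)
  unfold om omgR sw
  rw [← sum_add_distrib, ← sum_sub_distrib]
  apply sum_congr rfl
  intro a _
  rw [sum_insert hj', ← add_sum_erase S (fun b => sg a b) hi]
  ring

theorem om_anti (S T : Finset (Fin n)) : om S T = - om T S := by
  unfold om
  rw [sum_comm, ← sum_neg_distrib]
  apply sum_congr rfl
  intro a _
  rw [← sum_neg_distrib]
  apply sum_congr rfl
  intro b _
  exact omg_sg_anti b a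

theorem omg_self (S : Finset (Fin n)) : om S S = 0 := by
  have := om_anti S S
  omega

theorem omg_left (T S : Finset (Fin n)) (i j : Fin n) (hi : i ∈ S) (hj : j ∉ S) :
    om (sw S i j) T = om S T - omgR T j + omgR T i := by
  rw [om_anti (sw S i j) T, omg_right T S i j hi hj, om_anti S T]
  ring

theorem om_bound (S : Finset (Fin n)) (i j : Fin n) (hi : i ∈ S) (hj : j ∉ S) :
    |om S (sw S i j)| ≤ 2 * S.card := by
  rw [omg_right S S i j hi hj, omg_self]
  unfold omgR
  rw [zero_add, ← sum_sub_distrib]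
  calc |∑ a ∈ S, (sg a j - sg a i)| ≤ ∑ a ∈ S, |sg a j - sg a i| := abs_sum_le_sum_abs _ _
    _ ≤ ∑ _a ∈ S, (2 : ℤ) := by
        apply sum_le_sum
        intro a _
        calc |sg a j - sg a i| ≤ |sg a j| + |sg a i| := abs_sub _ _
          _ ≤ 1 + 1 := add_le_add (omg_sg_abs a j) (omg_sg_abs a i)
          _ = 2 := by norm_num
    _ = 2 * S.card := by
        rw [sum_const, nsmul_eq_mul]
        ring

/-- The cyclic sign of three different elements is `±1` and is the sign of `det3`. -/
theorem det3_sign (p q : Fin n → ℝ) (hc : Cvx p q) (i j k : Fin n) (hij : i ≠ j) (hjk : j ≠ k)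
    (hki : k ≠ i) :
    (0 < det3 p q i j k ∧ sg i j + sg j k + sg k i = 1) ∨
    (det3 p q i j k < 0 ∧ sg i j + sg j k + sg k i = -1) := by
  have sgl : ∀ a b : Fin n, a < b → sg a b = 1 ∧ sg b a = -1 := by
    intro a b h
    unfold sg
    refine ⟨by rw [if_pos h], by rw [if_neg (lt_asymm h), if_pos h]⟩
  have cyc : det3 p q j k i = det3 p q i j k := by unfold det3; ring
  have cyc2 : det3 p q k i j = det3 p q i j k := by unfold det3; ring
  have tr1 : det3 p q j i k = - det3 p q i j k := by unfold det3; ring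
  have tr2 : det3 p q i k j = - det3 p q i j k := by unfold det3; ring
  have tr3 : det3 p q k j i = - det3 p q i j k := by unfold det3; ring
  rcases lt_or_gt_of_ne hij with h1 | h1 <;> rcases lt_or_gt_of_ne hjk with h2 | h2 <;>
    rcases lt_or_gt_of_ne hki with h3 | h3
  · exact absurd (h1.trans (h2.trans h3)) (lt_irrefl _)
  · -- i < j < k
    left
    refine ⟨hc i j k h1 h2, ?_⟩
    rw [(sgl _ _ h1).1, (sgl _ _ h2).1, (sgl _ _ h3).2]
    norm_num
  · -- i < j, k < j, k < i : k < i < j
    left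
    have := hc k i j h3 h1
    rw [cyc2] at this
    refine ⟨this, ?_⟩
    rw [(sgl _ _ h1).1, (sgl _ _ h2).2, (sgl _ _ h3).1]
    norm_num
  · -- i < j, k < j, i < k : i < k < j
    right
    have := hc i k j h3 h2
    rw [tr2] at this
    refine ⟨by linarith, ?_⟩
    rw [(sgl _ _ h1).1, (sgl _ _ h2).2, (sgl _ _ h3).2]
    norm_num
  · -- j < i, j < k, k < i : j < k < i
    left
    have := hc j k i h2 h3
    rw [cyc] at this
    refine ⟨this, ?_⟩
    rw [(sgl _ _ h1).2, (sgl _ _ h2).1, (sgl _ _ h3).1]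
    norm_num
  · -- j < i, j < k, i < k : j < i < k
    right
    have := hc j i k h1 h3
    rw [tr1] at this
    refine ⟨by linarith, ?_⟩
    rw [(sgl _ _ h1).2, (sgl _ _ h2).1, (sgl _ _ h3).2]
    norm_num
  · -- j < i, k < j, k < i : k < j < i
    right
    have := hc k j i h2 h1
    rw [tr3] at this
    refine ⟨by linarith, ?_⟩
    rw [(sgl _ _ h1).2, (sgl _ _ h2).2, (sgl _ _ h3).1]
    norm_num
  · exact absurd (h3.trans (h2.trans h1)) (lt_irrefl _)

theorem om_white (p q : Fin n → ℝ) (hc : Cvx p q) (S : Finset (Fin n)) (i j k : Fin n)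
    (hi : i ∈ S) (hj : j ∉ S) (hk : k ∉ S) (hjk : j ≠ k) :
    (0 < D (sm p) (sm q) S (sw S i j) (sw S i k) →
      om S (sw S i j) + om (sw S i j) (sw S i k) + om (sw S i k) S = -1) ∧
    (D (sm p) (sm q) S (sw S i j) (sw S i k) < 0 →
      om S (sw S i j) + om (sw S i j) (sw S i k) + om (sw S i k) S = 1) := by
  have hij : i ≠ j := fun h => hj (h ▸ hi)
  have hki : k ≠ i := fun h => hk (h ▸ hi)
  have hsum : om S (sw S i j) + om (sw S i j) (sw S i k) + om (sw S i k) S
      = sg i j + sg j k + sg k i := by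
    rw [omg_right (sw S i j) S i k hi hk, omg_left S S i j hi hj, omg_left S S i k hi hk,
      omg_right S S i j hi hj, omg_self, omg_R_sw S i j k hi hj, omg_R_sw S i j i hi hj,
      omg_sg_self, omg_sg_anti j i, omg_sg_anti i k]
    ring
  have hD : D (sm p) (sm q) S (sw S i j) (sw S i k) = - det3 p q i j k := by
    unfold D det3
    rw [sm_sw p S i j hi hj, sm_sw q S i j hi hj, sm_sw p S i k hi hk, sm_sw q S i k hi hk]
    ring
  rw [hsum, hD]
  rcases det3_sign p q hc i j k hij hjk hki with ⟨h1, h2⟩ | ⟨h1, h2⟩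
  · exact ⟨fun h => absurd h (by linarith), fun _ => h2⟩
  · exact ⟨fun _ => h2, fun h => absurd h (by linarith)⟩

theorem om_black (p q : Fin n → ℝ) (hc : Cvx p q) (S : Finset (Fin n)) (i j k : Fin n)
    (hi : i ∈ S) (hj : j ∈ S) (hij : i ≠ j) (hk : k ∉ S) :
    (0 < D (sm p) (sm q) S (sw S i k) (sw S j k) →
      om S (sw S i k) + om (sw S i k) (sw S j k) + om (sw S j k) S = -1) ∧
    (D (sm p) (sm q) S (sw S i k) (sw S j k) < 0 →
      om S (sw S i k) + om (sw S i k) (sw S j k) + om (sw S j k) S = 1) := by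
  have hki : k ≠ i := fun h => hk (h ▸ hi)
  have hjk : j ≠ k := fun h => hk (h ▸ hj)
  have hsum : om S (sw S i k) + om (sw S i k) (sw S j k) + om (sw S j k) S
      = sg i j + sg j k + sg k i := by
    rw [omg_right (sw S i k) S j k hj hk, omg_left S S i k hi hk, omg_left S S j k hj hk,
      omg_right S S i k hi hk, omg_self, omg_R_sw S i k k hi hk, omg_R_sw S i k j hi hk,
      omg_sg_self, omg_sg_anti k j, omg_sg_anti i k]
    ring
  have hD : D (sm p) (sm q) S (sw S i k) (sw S j k) = - det3 p q i j k := by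
    unfold D det3
    rw [sm_sw p S i k hi hk, sm_sw q S i k hi hk, sm_sw p S j k hj hk, sm_sw q S j k hj hk]
    ring
  rw [hsum, hD]
  rcases det3_sign p q hc i j k hij hjk hki with ⟨h1, h2⟩ | ⟨h1, h2⟩
  · exact ⟨fun h => absurd h (by linarith), fun _ => h2⟩
  · exact ⟨fun _ => h2, fun h => absurd h (by linarith)⟩

theorem om_cross (p q : Fin n → ℝ) (hc : Cvx p q) (S : Finset (Fin n)) (i j k l : Fin n)
    (hi : i ∈ S) (hj : j ∈ S) (hij : i ≠ j) (hk : k ∉ S) (hl : l ∉ S) (hkl : k ≠ l) :
    (0 < D (sm p) (sm q) S (sw S i k) (sw S j l) →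
      om S (sw S i k) + om (sw S i k) (sw (sw S i k) j l)
        + om (sw (sw S i k) j l) (sw S j l) + om (sw S j l) S ≤ 0) ∧
    (D (sm p) (sm q) S (sw S i k) (sw S j l) < 0 →
      0 ≤ om S (sw S i k) + om (sw S i k) (sw (sw S i k) j l)
        + om (sw (sw S i k) j l) (sw S j l) + om (sw S j l) S) := by
  have hki : k ≠ i := fun h => hk (h ▸ hi)
  have hli : l ≠ i := fun h => hl (h ▸ hi)
  have hkj : k ≠ j := fun h => hk (h ▸ hj)
  have hlj : l ≠ j := fun h => hl (h ▸ hj)
  have hj1 : j ∈ sw S i k := by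
    unfold sw
    exact mem_insert_of_mem (mem_erase.2 ⟨hij.symm, hj⟩)
  have hl1 : l ∉ sw S i k := by
    unfold sw
    rw [mem_insert, mem_erase]
    rintro (h | h)
    · exact hkl h.symm
    · exact hl h.2
  have hsum : om S (sw S i k) + om (sw S i k) (sw (sw S i k) j l)
        + om (sw (sw S i k) j l) (sw S j l) + om (sw S j l) S
      = 2 * ((sg i k + sg k l + sg l i) - (sg i k + sg k j + sg j i)) := by
    rw [omg_right (sw S i k) (sw S i k) j l hj1 hl1, omg_left (sw S j l) (sw S i k) j l hj1 hl1,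
      omg_right (sw S i k) S j l hj hl, omg_left S S i k hi hk, omg_left S S j l hj hl,
      omg_right S S i k hi hk, omg_self, omg_self, omg_R_sw S i k l hi hk,
      omg_R_sw S i k j hi hk, omg_R_sw S j l l hj hl, omg_R_sw S j l j hj hl,
      omg_sg_self, omg_sg_self, omg_sg_anti l j, omg_sg_anti l i, omg_sg_anti j i]
    ring
  have hD : D (sm p) (sm q) S (sw S i k) (sw S j l) =
      - (det3 p q i k l - det3 p q i k j) := by
    unfold D det3
    rw [sm_sw p S i k hi hk, sm_sw q S i k hi hk, sm_sw p S j l hj hl, sm_sw q S j l hj hl]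
    ring
  rw [hsum, hD]
  rcases det3_sign p q hc i k l hki.symm hkl hli with ⟨h1, h2⟩ | ⟨h1, h2⟩ <;>
    rcases det3_sign p q hc i k j hki.symm hkj hij.symm with ⟨h3, h4⟩ | ⟨h3, h4⟩ <;>
    rw [h2, h4]
  · norm_num
  · exact ⟨fun h => absurd h (by linarith), fun _ => by norm_num⟩
  · exact ⟨fun _ => by norm_num, fun h => absurd h (by linarith)⟩
  · norm_num

end Pool.Agent.H36.CV
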