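import Pool.Agent.H36.CV.Shape

/-!
# CV-PERT: generic perturbation

`exists_gen`: `f` with `VM m f`, any planar points. There is `f'` with `VM m f'`, `Gen m f' p q` and all
cells of `f` are cells of `f'`.

Proof. `f' S = f S + Σ_{l ∈ S} η ^ (l + 1)` with small `η > 0` (`l + 1` as a natural exponent,
`(l : ℕ)`).
`VM`: the added function is modular: `sm ε (sw S i j) + sm ε (sw S' j i) = sm ε S + sm ε S'` for
`i ∈ S \ S'`, `j ∈ S' \ S` (`sm_sw`).
Cells: finitely many cells `S`, each with a witness `(x, y)` and a gap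
`δ_S = min_{T ≠ S} (F x y T - F x y S) > 0` (if there is no `T` nothing to show); if
`|Σ_{l ∈ T} η^(l+1) - Σ_{l ∈ S} η^(l+1)| < δ` for all `S, T` (true for all small `η`, e.g. by continuity
at `η = 0` of the finitely many polynomials; `∀ᶠ η in 𝓝[>] 0`) then `S` is still the unique
minimiser at `(x, y)`.
`Gen`: for a 4-tuple `τ = (S0, S1, S2, S3)` call it bad if there are reals `(a, b, c)` with
`a (sm p S1 - sm p S0) + b (...) + c (...) = 0`, the same for `q`, but
`z l := a (ind S1 l - ind S0 l) + b (ind S2 l - ind S0 l) + c (ind S3 l - ind S0 l)` not identically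
zero; choose such `(a, b, c)` for each bad `τ`. If the four values of `f'` at some point `(x, y)` are
equal then `0 = a (F S1 - F S0) + b (F S2 - F S0) + c (F S3 - F S0)
 = a (f S1 - f S0) + b (f S2 - f S0) + c (f S3 - f S0) + Σ_l z l * η ^ (l + 1)`
(`Σ_{l ∈ S} ε l = Σ_l ind S l * ε l`). The right side is a nonzero polynomial in `η` (the coefficient
of `η^(l+1)` is `z l`), with finitely many roots. Finitely many `τ`; so all small `η > 0` outside a
finite set have the property (`∀ᶠ η in 𝓝[>] 0`, since a finite set is avoided near `0` on the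
right). If `Gen` failed for `f'` at `(x, y)` and `S0..S3` with coefficients `a', b', c'` then
`τ = (S0..S3)` would be bad and its chosen coefficients contradict the choice of `η`.
-/

set_option autoImplicit false

open Finset

namespace Pool.Agent.H36.CV

variable {n : ℕ}

/-- the perturbation -/
def pe (η : ℝ) (l : Fin n) : ℝ := η ^ ((l : ℕ) + 1)

/-- the perturbed function -/
def pf (f : Finset (Fin n) → ℝ) (η : ℝ) (S : Finset (Fin n)) : ℝ := f S + sm (pe η) S

theorem pert_vm (m : ℕ) (f : Finset (Fin n) → ℝ) (hVM : VM m f) (η : ℝ) : VM m (pf f η) := by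
  intro S hS S' hS' i hi
  obtain ⟨j, hj, hle⟩ := hVM S hS S' hS' i hi
  refine ⟨j, hj, ?_⟩
  rw [mem_sdiff] at hi hj
  unfold pf
  rw [sm_sw _ S i j hi.1 hj.2, sm_sw _ S' j i hj.1 hi.2]
  linarith

theorem pert_sm_ind (ε : Fin n → ℝ) (S : Finset (Fin n)) : sm ε S = ∑ l, ind S l * ε l := by
  unfold sm ind
  simp only [ite_mul, one_mul, zero_mul]
  rw [Finset.sum_ite_mem, Finset.univ_inter]

theorem pert_cont (f : Finset (Fin n) → ℝ) (p q : Fin n → ℝ) (x y : ℝ) (S : Finset (Fin n)) :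
    Continuous fun η : ℝ => F (pf f η) (sm p) (sm q) x y S := by
  unfold F pf sm pe
  fun_prop

theorem pert_zero (f : Finset (Fin n) → ℝ) : pf f 0 = f := by
  funext S
  unfold pf sm pe
  simp

theorem pert_cells (m : ℕ) (f : Finset (Fin n) → ℝ) (p q : Fin n → ℝ) :
    ∀ᶠ η in nhds (0 : ℝ), cells (U n m) f (sm p) (sm q) ⊆ cells (U n m) (pf f η) (sm p) (sm q) := by
  classical
  have h1 : ∀ᶠ η in nhds (0 : ℝ), ∀ S ∈ cells (U n m) f (sm p) (sm q),
      S ∈ cells (U n m) (pf f η) (sm p) (sm q) := by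
    rw [Filter.eventually_all_finset]
    intro S hS
    unfold cells at hS
    rw [mem_filter] at hS
    obtain ⟨hSU, x, y, hxy⟩ := hS
    have h2 : ∀ᶠ η in nhds (0 : ℝ), ∀ T ∈ U n m, T ≠ S →
        F (pf f η) (sm p) (sm q) x y S < F (pf f η) (sm p) (sm q) x y T := by
      rw [Filter.eventually_all_finset]
      intro T hT
      by_cases hTS : T = S
      · exact Filter.Eventually.of_forall fun η h => absurd hTS h
      · have h3 := hxy T hT hTS
        have h4 : F (pf f 0) (sm p) (sm q) x y S < F (pf f 0) (sm p) (sm q) x y T := by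
          rw [pert_zero]
          exact h3
        have h5 := (pert_cont f p q x y S).continuousAt.eventually_lt
          (pert_cont f p q x y T).continuousAt h4
        filter_upwards [h5] with η hη _
        exact hη
    filter_upwards [h2] with η hη
    unfold cells
    rw [mem_filter]
    exact ⟨hSU, x, y, hη⟩
  filter_upwards [h1] with η hη
  exact hη

open Polynomial in
theorem pert_poly (c0 : ℝ) (z : Fin n → ℝ) (hz : ∃ l, z l ≠ 0) :
    ∀ᶠ η in nhdsWithin (0 : ℝ) {0}ᶜ, c0 + ∑ l, z l * pe η l ≠ 0 := by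
  obtain ⟨l, hl⟩ := hz
  set P : Polynomial ℝ := C c0 + ∑ k : Fin n, C (z k) * X ^ ((k : ℕ) + 1) with hP
  have hcoef : P.coeff ((l : ℕ) + 1) = z l := by
    rw [hP, coeff_add, finsetSum_coeff, coeff_C]
    rw [if_neg (by omega), zero_add, Finset.sum_eq_single l]
    · simp
    · intro k _ hk
      rw [coeff_C_mul, coeff_X_pow, if_neg, mul_zero]
      intro h
      apply hk
      apply Fin.ext
      omega
    · intro h
      exact absurd (Finset.mem_univ l) h
  have hP0 : P ≠ 0 := by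
    intro h
    rw [h, coeff_zero] at hcoef
    exact hl hcoef.symm
  have hfin : {η : ℝ | P.eval η = 0}.Finite := by
    have : {η : ℝ | P.eval η = 0} = {η : ℝ | IsRoot P η} := rfl
    rw [this]
    exact Polynomial.finite_setOfPred_isRoot hP0
  have h1 : ∀ᶠ η in nhdsWithin (0 : ℝ) {0}ᶜ, η ∉ {η : ℝ | P.eval η = 0} :=
    (nhdsNE_le_cofinite 0) hfin.compl_mem_cofinite
  filter_upwards [h1] with η hη h
  apply hη
  show P.eval η = 0
  rw [hP, eval_add, eval_C, eval_finsetSum]
  simp only [eval_mul, eval_C, eval_pow, eval_X]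
  exact h

theorem pert_tuple (f : Finset (Fin n) → ℝ) (p q : Fin n → ℝ)
    (S0 S1 S2 S3 : Finset (Fin n)) :
    ∀ᶠ η in nhdsWithin (0 : ℝ) {0}ᶜ, ∀ x y : ℝ,
      F (pf f η) (sm p) (sm q) x y S1 = F (pf f η) (sm p) (sm q) x y S0 →
      F (pf f η) (sm p) (sm q) x y S2 = F (pf f η) (sm p) (sm q) x y S0 →
      F (pf f η) (sm p) (sm q) x y S3 = F (pf f η) (sm p) (sm q) x y S0 →
      ∀ a b c : ℝ,
      a * (sm p S1 - sm p S0) + b * (sm p S2 - sm p S0) + c * (sm p S3 - sm p S0) = 0 →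
      a * (sm q S1 - sm q S0) + b * (sm q S2 - sm q S0) + c * (sm q S3 - sm q S0) = 0 →
      ∀ l : Fin n, a * (ind S1 l - ind S0 l) + b * (ind S2 l - ind S0 l)
        + c * (ind S3 l - ind S0 l) = 0 := by
  by_cases hbad : ∃ a b c : ℝ,
      a * (sm p S1 - sm p S0) + b * (sm p S2 - sm p S0) + c * (sm p S3 - sm p S0) = 0 ∧
      a * (sm q S1 - sm q S0) + b * (sm q S2 - sm q S0) + c * (sm q S3 - sm q S0) = 0 ∧
      ∃ l : Fin n, a * (ind S1 l - ind S0 l) + b * (ind S2 l - ind S0 l)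
        + c * (ind S3 l - ind S0 l) ≠ 0
  · obtain ⟨a, b, c, h1, h2, h3⟩ := hbad
    have h4 := pert_poly (a * (f S1 - f S0) + b * (f S2 - f S0) + c * (f S3 - f S0))
      (fun l => a * (ind S1 l - ind S0 l) + b * (ind S2 l - ind S0 l)
        + c * (ind S3 l - ind S0 l)) h3
    filter_upwards [h4] with η hη x y e1 e2 e3
    exfalso
    apply hη
    have h5 : ∑ l, (a * (ind S1 l - ind S0 l) + b * (ind S2 l - ind S0 l)
        + c * (ind S3 l - ind S0 l)) * pe η l = a * (sm (pe η) S1 - sm (pe η) S0) +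
        b * (sm (pe η) S2 - sm (pe η) S0) + c * (sm (pe η) S3 - sm (pe η) S0) := by
      rw [pert_sm_ind, pert_sm_ind, pert_sm_ind, pert_sm_ind, ← Finset.sum_sub_distrib,
        ← Finset.sum_sub_distrib, ← Finset.sum_sub_distrib, Finset.mul_sum, Finset.mul_sum,
        Finset.mul_sum, ← Finset.sum_add_distrib, ← Finset.sum_add_distrib]
      refine Finset.sum_congr rfl fun l _ => ?_
      ring
    rw [h5]
    unfold F pf at e1 e2 e3
    linear_combination a * e1 + b * e2 + c * e3 - x * h1 - y * h2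
  · refine Filter.Eventually.of_forall fun η x y _ _ _ a b c h1 h2 l => ?_
    by_contra h3
    exact hbad ⟨a, b, c, h1, h2, l, h3⟩

theorem exists_gen (m : ℕ) (f : Finset (Fin n) → ℝ) (p q : Fin n → ℝ) (hVM : VM m f) :
    ∃ f' : Finset (Fin n) → ℝ, VM m f' ∧ Gen m f' p q ∧
      cells (U n m) f (sm p) (sm q) ⊆ cells (U n m) f' (sm p) (sm q) := by
  have h1 : ∀ᶠ η in nhdsWithin (0 : ℝ) {0}ᶜ,
      cells (U n m) f (sm p) (sm q) ⊆ cells (U n m) (pf f η) (sm p) (sm q) :=
    (pert_cells m f p q).filter_mono nhdsWithin_le_nhds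
  have h2 : ∀ᶠ η in nhdsWithin (0 : ℝ) {0}ᶜ, ∀ S0 ∈ U n m, ∀ S1 ∈ U n m, ∀ S2 ∈ U n m,
      ∀ S3 ∈ U n m, ∀ x y : ℝ,
      F (pf f η) (sm p) (sm q) x y S1 = F (pf f η) (sm p) (sm q) x y S0 →
      F (pf f η) (sm p) (sm q) x y S2 = F (pf f η) (sm p) (sm q) x y S0 →
      F (pf f η) (sm p) (sm q) x y S3 = F (pf f η) (sm p) (sm q) x y S0 →
      ∀ a b c : ℝ,
      a * (sm p S1 - sm p S0) + b * (sm p S2 - sm p S0) + c * (sm p S3 - sm p S0) = 0 →
      a * (sm q S1 - sm q S0) + b * (sm q S2 - sm q S0) + c * (sm q S3 - sm q S0) = 0 →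
      ∀ l : Fin n, a * (ind S1 l - ind S0 l) + b * (ind S2 l - ind S0 l)
        + c * (ind S3 l - ind S0 l) = 0 := by
    simp only [Filter.eventually_all_finset]
    intro S0 _ S1 _ S2 _ S3 _
    exact pert_tuple f p q S0 S1 S2 S3
  obtain ⟨η, hη1, hη2⟩ := (h1.and h2).exists
  refine ⟨pf f η, pert_vm m f hVM η, ?_, hη1⟩
  intro x y S0 hS0 S1 hS1 S2 hS2 S3 hS3
  exact hη2 S0 hS0 S1 hS1 S2 hS2 S3 hS3 x y

end Pool.Agent.H36.CV
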