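import Pool.Agent.H36.CV.Shape

/-!
# CV-RAYS: the number of extreme pairs is at most n

`(S, S')` with `S' = sw S i j` such that all `T ∈ U n m` lie to the right of (or on) the line from
`S` to `S'` in the sense `0 ≤ D (sm p) (sm q) S S' T`. In convex position there are at most `n` such
pairs, because `j` determines the pair.

Proof. Let `g l = (q j - q i) * p l + (p i - p j) * q l`. For `T = sw S a c` (`a ∈ S`, `c ∉ S`):
`D S S' T = g c - g a` (`sm_sw`, ring), so `g a ≤ g c` for all `a ∈ S`, `c ∉ S`.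
Also `g i = g j`, and `g l - g i = - det3 p q i j l`. For `a ∈ S`, `a ≠ i`: `g a ≤ g j = g i`, so
`0 ≤ det3 i j a`, and `det3 i j a ≠ 0` by convexity (three different indices), so `0 < det3 i j a`.
For `c ∉ S`, `c ≠ j`: `g i ≤ g c`, so `det3 i j c ≤ 0`. Hence
`S.erase i = univ.filter (fun a => a ≠ i ∧ a ≠ j ∧ 0 < det3 p q i j a)`, of card `m - 1`.
In convex position (`i ≠ j`, `a ≠ i, j`): `0 < det3 i j a` iff (`i < j < a` or `j < a < i` or
`a < i < j`). So if `j < i` the set is `Ioo j i`, with `i - j - 1` elements (as naturals), and if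
`i < j` it is `{a < i} ∪ {a > j}`, with `i + (n - 1 - j)` elements. Equal to `m - 1`: in the first case
`i = j + m`, in the second `i + n = j + m`. Given `j` these cannot both occur for `i, i' < n`
(`i' = j + m < n` and `i + n = j + m` with `i ≥ 0`). So `j` determines `i`, hence `S.erase i`, hence `S`
and `S'`. The map `w ↦ j` (choose `i, j`) is injective on the family, so its card is `≤ n`.
(For the `Finset.card_le_card_of_injOn` use the map `w ↦` the unique element of `w.2 \ w.1`, or
`Classical.choose`; `sw S i j \ S = {j}`, `S \ sw S i j = {i}`.)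
-/

set_option autoImplicit false

open Finset

namespace Pool.Agent.H36.CV

variable {n : ℕ}

theorem Rays_sdiff (S : Finset (Fin n)) (i j : Fin n) (hj : j ∉ S) :
    sw S i j \ S = {j} := by
  ext x
  unfold sw
  rw [mem_sdiff, mem_insert, mem_erase, mem_singleton]
  constructor
  · rintro ⟨h | h, h'⟩
    · exact h
    · exact absurd h.2 h'
  · intro h
    exact ⟨Or.inl h, h ▸ hj⟩

/-- The sign of `det3` on distinct indices, in terms of the cyclic order. -/
theorem Rays_sign (p q : Fin n → ℝ) (hc : Cvx p q) (i j a : Fin n) (hij : i ≠ j) (hai : a ≠ i)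
    (haj : a ≠ j) :
    (0 < det3 p q i j a ∧ ((i < j ∧ (a < i ∨ j < a)) ∨ (j < i ∧ j < a ∧ a < i))) ∨
    (det3 p q i j a < 0 ∧ ¬ ((i < j ∧ (a < i ∨ j < a)) ∨ (j < i ∧ j < a ∧ a < i))) := by
  rcases lt_or_gt_of_ne hij with h1 | h1
  · rcases lt_or_gt_of_ne hai with h2 | h2
    · left
      refine ⟨?_, Or.inl ⟨h1, Or.inl h2⟩⟩
      have := hc a i j h2 h1
      unfold det3 at this ⊢
      linarith
    · rcases lt_or_gt_of_ne haj with h3 | h3
      · right
        refine ⟨?_, ?_⟩
        · have := hc i a j h2 h3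
          unfold det3 at this ⊢
          linarith
        · rintro (⟨_, h | h⟩ | ⟨h, _, _⟩)
          · exact absurd h (lt_asymm h2)
          · exact absurd h (lt_asymm h3)
          · exact absurd h (lt_asymm h1)
      · left
        refine ⟨hc i j a h1 h3, Or.inl ⟨h1, Or.inr h3⟩⟩
  · rcases lt_or_gt_of_ne haj with h2 | h2
    · right
      refine ⟨?_, ?_⟩
      · have := hc a j i h2 h1
        unfold det3 at this ⊢
        linarith
      · rintro (⟨h, _⟩ | ⟨_, h, _⟩)
        · exact absurd h (lt_asymm h1)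
        · exact absurd h (lt_asymm h2)
    · rcases lt_or_gt_of_ne hai with h3 | h3
      · left
        refine ⟨?_, Or.inr ⟨h1, h2, h3⟩⟩
        have := hc j a i h2 h3
        unfold det3 at this ⊢
        linarith
      · right
        refine ⟨?_, ?_⟩
        · have := hc j i a h1 h3
          unfold det3 at this ⊢
          linarith
        · rintro (⟨h, _⟩ | ⟨_, _, h⟩)
          · exact absurd h (lt_asymm h1)
          · exact absurd h (lt_asymm h3)

/-- `S - i` is a cyclic interval determined by `i, j`. -/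
theorem Rays_erase (m : ℕ) (p q : Fin n → ℝ) (hc : Cvx p q) (S : Finset (Fin n))
    (hS : S ∈ U n m) (i j : Fin n) (hi : i ∈ S) (hj : j ∉ S)
    (hD : ∀ T ∈ U n m, 0 ≤ D (sm p) (sm q) S (sw S i j) T) :
    (j < i ∧ S.erase i = Ioo j i) ∨ (i < j ∧ S.erase i = Iio i ∪ Ioi j) := by
  have hij : i ≠ j := fun h => hj (h ▸ hi)
  have ha : ∀ a ∈ S, a ≠ i → 0 < det3 p q i j a := by
    intro a haS hai
    have haj : a ≠ j := fun h => hj (h ▸ haS)
    have h1 := hD _ (shape_sw_mem m S a j hS haS hj)
    unfold D at h1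
    rw [sm_sw p S i j hi hj, sm_sw q S i j hi hj, sm_sw p S a j haS hj, sm_sw q S a j haS hj] at h1
    rcases Rays_sign p q hc i j a hij hai haj with h | h
    · exact h.1
    · exfalso
      have h2 := h.1
      unfold det3 at h2
      nlinarith
  have hb : ∀ c, c ∉ S → c ≠ j → det3 p q i j c ≤ 0 := by
    intro c hcS hcj
    have h1 := hD _ (shape_sw_mem m S i c hS hi hcS)
    unfold D at h1
    rw [sm_sw p S i j hi hj, sm_sw q S i j hi hj, sm_sw p S i c hi hcS, sm_sw q S i c hi hcS] at h1
    unfold det3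
    nlinarith
  have key : ∀ a, a ≠ i → a ≠ j →
      (a ∈ S ↔ ((i < j ∧ (a < i ∨ j < a)) ∨ (j < i ∧ j < a ∧ a < i))) := by
    intro a hai haj
    rcases Rays_sign p q hc i j a hij hai haj with h | h
    · refine ⟨fun _ => h.2, fun _ => ?_⟩
      by_contra haS
      exact absurd h.1 (not_lt.mpr (hb a haS haj))
    · refine ⟨fun haS => absurd (ha a haS hai) (lt_asymm h.1), fun h' => absurd h' h.2⟩
  rcases lt_or_gt_of_ne hij with h1 | h1
  · right
    refine ⟨h1, ?_⟩
    ext a
    rw [mem_erase, mem_union, mem_Iio, mem_Ioi]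
    constructor
    · rintro ⟨hai, haS⟩
      have haj : a ≠ j := fun h => hj (h ▸ haS)
      rcases (key a hai haj).mp haS with h | h
      · exact h.2
      · exact absurd h.1 (lt_asymm h1)
    · intro h
      have hai : a ≠ i := by
        rcases h with h | h
        · exact ne_of_lt h
        · exact ne_of_gt (h1.trans h)
      have haj : a ≠ j := by
        rcases h with h | h
        · exact ne_of_lt (h.trans h1)
        · exact ne_of_gt h
      exact ⟨hai, (key a hai haj).mpr (Or.inl ⟨h1, h⟩)⟩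
  · left
    refine ⟨h1, ?_⟩
    ext a
    rw [mem_erase, mem_Ioo]
    constructor
    · rintro ⟨hai, haS⟩
      have haj : a ≠ j := fun h => hj (h ▸ haS)
      rcases (key a hai haj).mp haS with h | h
      · exact absurd h.1 (lt_asymm h1)
      · exact h.2
    · intro h
      exact ⟨ne_of_lt h.2, (key a (ne_of_lt h.2) (ne_of_gt h.1)).mpr (Or.inr ⟨h1, h⟩)⟩

theorem Rays_num (m : ℕ) (p q : Fin n → ℝ) (hc : Cvx p q) (S : Finset (Fin n))
    (hS : S ∈ U n m) (i j : Fin n) (hi : i ∈ S) (hj : j ∉ S)
    (hD : ∀ T ∈ U n m, 0 ≤ D (sm p) (sm q) S (sw S i j) T) :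
    (i : ℕ) = j + m ∨ (i : ℕ) + n = j + m := by
  have hcard : (S.erase i).card + 1 = m := by
    rw [card_erase_add_one hi]
    exact (mem_powersetCard.mp hS).2
  rcases Rays_erase m p q hc S hS i j hi hj hD with ⟨h1, h2⟩ | ⟨h1, h2⟩
  · left
    rw [h2, Fin.card_Ioo] at hcard
    have : (j : ℕ) < i := h1
    omega
  · right
    have hdis : Disjoint (Iio i) (Ioi j) := by
      rw [disjoint_left]
      intro x hx hx'
      rw [mem_Iio] at hx
      rw [mem_Ioi] at hx'
      exact absurd (hx.trans h1) (lt_asymm hx')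
    rw [h2, card_union_of_disjoint hdis, Fin.card_Iio, Fin.card_Ioi] at hcard
    have h3 : (i : ℕ) < j := h1
    have h4 := j.isLt
    omega

theorem ray_card (m : ℕ) (p q : Fin n → ℝ) (hc : Cvx p q)
    (R : Finset (Finset (Fin n) × Finset (Fin n)))
    (hR : ∀ w ∈ R, w.1 ∈ U n m ∧ (∃ i j, i ∈ w.1 ∧ j ∉ w.1 ∧ w.2 = sw w.1 i j) ∧
      ∀ T ∈ U n m, 0 ≤ D (sm p) (sm q) w.1 w.2 T) :
    R.card ≤ n := by
  have h1 : R.card ≤ (univ.image (fun j : Fin n => ({j} : Finset (Fin n)))).card := by
    refine card_le_card_of_injOn (fun w => w.2 \ w.1) ?_ ?_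
    · intro w hw
      obtain ⟨-, ⟨i, j, -, hj, h2⟩, -⟩ := hR w hw
      rw [mem_coe, mem_image]
      refine ⟨j, mem_univ _, ?_⟩
      change {j} = w.2 \ w.1
      rw [h2, Rays_sdiff _ _ _ hj]
    · intro w hw w' hw' heq
      obtain ⟨hU, ⟨i, j, hi, hj, h2⟩, hD⟩ := hR w hw
      obtain ⟨hU', ⟨i', j', hi', hj', h2'⟩, hD'⟩ := hR w' hw'
      change w.2 \ w.1 = w'.2 \ w'.1 at heq
      rw [h2, h2', Rays_sdiff _ _ _ hj, Rays_sdiff _ _ _ hj', singleton_inj] at heq
      subst heq
      rw [h2] at hD
      rw [h2'] at hD'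
      have e1 := Rays_num m p q hc _ hU i j hi hj hD
      have e2 := Rays_num m p q hc _ hU' i' j hi' hj' hD'
      have l1 := i.isLt
      have l2 := i'.isLt
      have hii : i = i' := by
        apply Fin.ext
        omega
      subst hii
      have hS : w.1 = w'.1 := by
        rw [← insert_erase hi, ← insert_erase hi']
        congr 1
        rcases Rays_erase m p q hc _ hU i j hi hj hD with ⟨h3, h4⟩ | ⟨h3, h4⟩ <;>
          rcases Rays_erase m p q hc _ hU' i j hi' hj' hD' with ⟨h5, h6⟩ | ⟨h5, h6⟩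
        · rw [h4, h6]
        · exact absurd h3 (lt_asymm h5)
        · exact absurd h3 (lt_asymm h5)
        · rw [h4, h6]
      exact Prod.ext hS (by rw [h2, h2', hS])
  refine h1.trans (card_image_le.trans ?_)
  rw [card_univ, Fintype.card_fin]

end Pool.Agent.H36.CV
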