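import Pool.Agent.H36.CV.Defs

/-!
# CV-TRIPOD: the local sum at a tripod

`opt v = {s1, s2, s3}` (distinct), pairwise distinct `P`, `0 < D P Q s1 s2 s3`
(clockwise triangle), `Om` antisymmetric with `Om s1 s2 + Om s2 s3 + Om s3 s1 = -1`.
Then `Σ_{Low v} Om - Σ_{Upp v} Om = -1`, `Low v` has at most two elements, and each of the three
pairs is a wall starting or ending at `v` (in one of the two orders).

Proof. `D` is invariant under cyclic shifts and changes sign under transpositions of its three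
arguments (all by `unfold D; ring`): `D s2 s3 s1 = D s3 s1 s2 = D s1 s2 s3 > 0`,
`D s2 s1 s3 = D s3 s2 s1 = D s1 s3 s2 = - D s1 s2 s3 < 0`.
So an ordered pair `(a, b)` of different elements of `opt v` with `P b < P a` is in `Low v` if
`(a, b) ∈ {(s1,s2), (s2,s3), (s3,s1)}` and in `Upp v` if `(b, a)` is in this set. Both sums:
`Low v = {(s1,s2),(s2,s3),(s3,s1)}.filter (P w.2 < P w.1)`,
`Upp v = {(s2,s1),(s3,s2),(s1,s3)}.filter (P w.2 < P w.1)`. For each of the three pairs exactly one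
of the two orders satisfies `P w.2 < P w.1`, so `Σ_Low - Σ_Upp = Om s1 s2 + Om s2 s3 + Om s3 s1`
(antisymmetry). `|Low| ≤ 2` since `P s2 < P s1`, `P s3 < P s2`, `P s1 < P s3` cannot all hold.
(One may also distinguish the 6 orders of `P s1, P s2, P s3` and compute `Low`, `Upp` explicitly.)
-/

set_option autoImplicit false

open Finset

namespace Pool.Agent.H36.CV

variable {α : Type*} [DecidableEq α] (U : Finset α) (f P Q : α → ℝ)

theorem tripod_low (v : ℝ × ℝ) (s1 s2 s3 : α)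
    (hopt : opt U f P Q v = {s1, s2, s3})
    (h12 : P s1 ≠ P s2) (h23 : P s2 ≠ P s3) (h31 : P s3 ≠ P s1)
    (hD : 0 < D P Q s1 s2 s3) (w : α × α) :
    w ∈ Low U f P Q v ↔
      (w = (s1, s2) ∨ w = (s2, s3) ∨ w = (s3, s1)) ∧ P w.2 < P w.1 := by
  have n12 : s1 ≠ s2 := fun h => h12 (by rw [h])
  have n23 : s2 ≠ s3 := fun h => h23 (by rw [h])
  have n31 : s3 ≠ s1 := fun h => h31 (by rw [h])
  have d1 : D P Q s2 s3 s1 = D P Q s1 s2 s3 := by unfold D; ring
  have d2 : D P Q s3 s1 s2 = D P Q s1 s2 s3 := by unfold D; ring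
  have d3 : D P Q s2 s1 s3 = - D P Q s1 s2 s3 := by unfold D; ring
  have d4 : D P Q s3 s2 s1 = - D P Q s1 s2 s3 := by unfold D; ring
  have d5 : D P Q s1 s3 s2 = - D P Q s1 s2 s3 := by unfold D; ring
  obtain ⟨a, b⟩ := w
  simp only [Low, mem_filter, mem_product, hopt, mem_insert, mem_singleton, Prod.mk.injEq]
  constructor
  · rintro ⟨⟨ha, hb⟩, hlt, -, hall⟩
    refine ⟨?_, hlt⟩
    rcases ha with ha | ha | ha <;> rcases hb with hb | hb | hb <;> rw [ha, hb] at hlt hall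
    · exact absurd hlt (lt_irrefl _)
    · exact Or.inl ⟨ha, hb⟩
    · have := hall s2 (Or.inr (Or.inl rfl)) n12.symm n23
      linarith
    · have := hall s3 (Or.inr (Or.inr rfl)) n23.symm n31
      linarith
    · exact absurd hlt (lt_irrefl _)
    · exact Or.inr (Or.inl ⟨ha, hb⟩)
    · exact Or.inr (Or.inr ⟨ha, hb⟩)
    · have := hall s1 (Or.inl rfl) n31.symm n12
      linarith
    · exact absurd hlt (lt_irrefl _)
  · rintro ⟨h, hlt⟩
    rcases h with ⟨ha, hb⟩ | ⟨ha, hb⟩ | ⟨ha, hb⟩ <;> rw [ha, hb] at hlt ⊢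
    · refine ⟨⟨Or.inl rfl, Or.inr (Or.inl rfl)⟩, hlt, ⟨s3, Or.inr (Or.inr rfl), n31, n23.symm⟩, ?_⟩
      rintro t (ht | ht | ht) h1 h2
      · exact absurd ht h1
      · exact absurd ht h2
      · rw [ht]; exact hD
    · refine ⟨⟨Or.inr (Or.inl rfl), Or.inr (Or.inr rfl)⟩, hlt, ⟨s1, Or.inl rfl, n12, n31.symm⟩, ?_⟩
      rintro t (ht | ht | ht) h1 h2
      · rw [ht, d1]; exact hD
      · exact absurd ht h1
      · exact absurd ht h2
    · refine ⟨⟨Or.inr (Or.inr rfl), Or.inl rfl⟩, hlt, ⟨s2, Or.inr (Or.inl rfl), n23, n12.symm⟩, ?_⟩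
      rintro t (ht | ht | ht) h1 h2
      · exact absurd ht h2
      · rw [ht, d2]; exact hD
      · exact absurd ht h1

theorem tripod_upp (v : ℝ × ℝ) (s1 s2 s3 : α)
    (hopt : opt U f P Q v = {s1, s2, s3})
    (h12 : P s1 ≠ P s2) (h23 : P s2 ≠ P s3) (h31 : P s3 ≠ P s1)
    (hD : 0 < D P Q s1 s2 s3) (w : α × α) :
    w ∈ Upp U f P Q v ↔
      (w = (s2, s1) ∨ w = (s3, s2) ∨ w = (s1, s3)) ∧ P w.2 < P w.1 := by
  have n12 : s1 ≠ s2 := fun h => h12 (by rw [h])
  have n23 : s2 ≠ s3 := fun h => h23 (by rw [h])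
  have n31 : s3 ≠ s1 := fun h => h31 (by rw [h])
  have d1 : D P Q s2 s3 s1 = D P Q s1 s2 s3 := by unfold D; ring
  have d2 : D P Q s3 s1 s2 = D P Q s1 s2 s3 := by unfold D; ring
  have d3 : D P Q s2 s1 s3 = - D P Q s1 s2 s3 := by unfold D; ring
  have d4 : D P Q s3 s2 s1 = - D P Q s1 s2 s3 := by unfold D; ring
  have d5 : D P Q s1 s3 s2 = - D P Q s1 s2 s3 := by unfold D; ring
  obtain ⟨a, b⟩ := w
  simp only [Upp, mem_filter, mem_product, hopt, mem_insert, mem_singleton, Prod.mk.injEq]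
  constructor
  · rintro ⟨⟨ha, hb⟩, hlt, -, hall⟩
    refine ⟨?_, hlt⟩
    rcases ha with ha | ha | ha <;> rcases hb with hb | hb | hb <;> rw [ha, hb] at hlt hall
    · exact absurd hlt (lt_irrefl _)
    · have := hall s3 (Or.inr (Or.inr rfl)) n31 n23.symm
      linarith
    · exact Or.inr (Or.inr ⟨ha, hb⟩)
    · exact Or.inl ⟨ha, hb⟩
    · exact absurd hlt (lt_irrefl _)
    · have := hall s1 (Or.inl rfl) n12 n31.symm
      linarith
    · have := hall s2 (Or.inr (Or.inl rfl)) n23 n12.symm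
      linarith
    · exact Or.inr (Or.inl ⟨ha, hb⟩)
    · exact absurd hlt (lt_irrefl _)
  · rintro ⟨h, hlt⟩
    rcases h with ⟨ha, hb⟩ | ⟨ha, hb⟩ | ⟨ha, hb⟩ <;> rw [ha, hb] at hlt ⊢
    · refine ⟨⟨Or.inr (Or.inl rfl), Or.inl rfl⟩, hlt, ⟨s3, Or.inr (Or.inr rfl), n23.symm, n31⟩, ?_⟩
      rintro t (ht | ht | ht) h1 h2
      · exact absurd ht h2
      · exact absurd ht h1
      · rw [ht]; linarith
    · refine ⟨⟨Or.inr (Or.inr rfl), Or.inr (Or.inl rfl)⟩, hlt, ⟨s1, Or.inl rfl, n31.symm, n12⟩, ?_⟩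
      rintro t (ht | ht | ht) h1 h2
      · rw [ht]; linarith
      · exact absurd ht h2
      · exact absurd ht h1
    · refine ⟨⟨Or.inl rfl, Or.inr (Or.inr rfl)⟩, hlt, ⟨s2, Or.inr (Or.inl rfl), n12.symm, n23⟩, ?_⟩
      rintro t (ht | ht | ht) h1 h2
      · exact absurd ht h1
      · rw [ht]; linarith
      · exact absurd ht h2

theorem tripod_sum (Om : α → α → ℤ) (hanti : ∀ a b, Om a b = - Om b a) (v : ℝ × ℝ) (s1 s2 s3 : α)
    (hopt : opt U f P Q v = {s1, s2, s3})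
    (h12 : P s1 ≠ P s2) (h23 : P s2 ≠ P s3) (h31 : P s3 ≠ P s1)
    (hD : 0 < D P Q s1 s2 s3) (hsum : Om s1 s2 + Om s2 s3 + Om s3 s1 = -1) :
    (∑ w ∈ Low U f P Q v, Om w.1 w.2) - (∑ w ∈ Upp U f P Q v, Om w.1 w.2) ≤ -1 ∧
      (Low U f P Q v).card ≤ 2 := by
  have n12 : s1 ≠ s2 := fun h => h12 (by rw [h])
  have n23 : s2 ≠ s3 := fun h => h23 (by rw [h])
  have n31 : s3 ≠ s1 := fun h => h31 (by rw [h])
  have hL : Low U f P Q v = ({(s1, s2), (s2, s3), (s3, s1)} : Finset (α × α)).filter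
      (fun w => P w.2 < P w.1) := by
    ext w
    rw [tripod_low U f P Q v s1 s2 s3 hopt h12 h23 h31 hD]
    simp only [mem_filter, mem_insert, mem_singleton]
  have hU : Upp U f P Q v = ({(s2, s1), (s3, s2), (s1, s3)} : Finset (α × α)).filter
      (fun w => P w.2 < P w.1) := by
    ext w
    rw [tripod_upp U f P Q v s1 s2 s3 hopt h12 h23 h31 hD]
    simp only [mem_filter, mem_insert, mem_singleton]
  have e1 : (s1, s2) ∉ ({(s2, s3), (s3, s1)} : Finset (α × α)) := by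
    simp [n12, n31.symm]
  have e2 : (s2, s3) ∉ ({(s3, s1)} : Finset (α × α)) := by
    simp [n23]
  have e3 : (s2, s1) ∉ ({(s3, s2), (s1, s3)} : Finset (α × α)) := by
    simp [n12.symm, n23]
  have e4 : (s3, s2) ∉ ({(s1, s3)} : Finset (α × α)) := by
    simp [n31]
  have a12 := hanti s2 s1
  have a23 := hanti s3 s2
  have a31 := hanti s1 s3
  constructor
  · rw [hL, hU, sum_filter, sum_filter, sum_insert e1, sum_insert e2, sum_singleton,
      sum_insert e3, sum_insert e4, sum_singleton]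
    dsimp only
    rcases lt_or_gt_of_ne h12 with c1 | c1 <;> rcases lt_or_gt_of_ne h23 with c2 | c2 <;>
      rcases lt_or_gt_of_ne h31 with c3 | c3 <;>
      simp only [c1, c2, c3, not_lt_of_gt c1, not_lt_of_gt c2, not_lt_of_gt c3, if_true,
        if_false] <;> omega
  · by_contra hc
    push Not at hc
    have h3 : ({(s1, s2), (s2, s3), (s3, s1)} : Finset (α × α)).card = 3 := by
      rw [card_insert_of_notMem e1, card_insert_of_notMem e2, card_singleton]
    have hsub : (Low U f P Q v) ⊆ ({(s1, s2), (s2, s3), (s3, s1)} : Finset (α × α)) := by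
      rw [hL]
      exact filter_subset _ _
    have heq : Low U f P Q v = ({(s1, s2), (s2, s3), (s3, s1)} : Finset (α × α)) :=
      eq_of_subset_of_card_le hsub (by omega)
    have m1 : (s1, s2) ∈ Low U f P Q v := by rw [heq]; simp
    have m2 : (s2, s3) ∈ Low U f P Q v := by rw [heq]; simp
    have m3 : (s3, s1) ∈ Low U f P Q v := by rw [heq]; simp
    rw [hL, mem_filter] at m1 m2 m3
    have q1 := m1.2
    have q2 := m2.2
    have q3 := m3.2
    dsimp only at q1 q2 q3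
    linarith

theorem tripod_edges (v : ℝ × ℝ) (s1 s2 s3 : α)
    (hopt : opt U f P Q v = {s1, s2, s3})
    (h12 : P s1 ≠ P s2) (h23 : P s2 ≠ P s3) (h31 : P s3 ≠ P s1)
    (hD : D P Q s1 s2 s3 ≠ 0) (a b : α) (ha : a ∈ opt U f P Q v) (hb : b ∈ opt U f P Q v)
    (hab : a ≠ b) :
    (a, b) ∈ Low U f P Q v ∪ Upp U f P Q v ∨ (b, a) ∈ Low U f P Q v ∪ Upp U f P Q v := by
  have main : ∀ (s1 s2 s3 : α), opt U f P Q v = {s1, s2, s3} → P s1 ≠ P s2 → P s2 ≠ P s3 →
      P s3 ≠ P s1 → 0 < D P Q s1 s2 s3 →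
      (a, b) ∈ Low U f P Q v ∪ Upp U f P Q v ∨ (b, a) ∈ Low U f P Q v ∪ Upp U f P Q v := by
    clear h12 h23 h31 hD hopt s1 s2 s3
    intro s1 s2 s3 hopt h12 h23 h31 hD
    rw [mem_union, mem_union, tripod_low U f P Q v s1 s2 s3 hopt h12 h23 h31 hD,
      tripod_upp U f P Q v s1 s2 s3 hopt h12 h23 h31 hD,
      tripod_low U f P Q v s1 s2 s3 hopt h12 h23 h31 hD,
      tripod_upp U f P Q v s1 s2 s3 hopt h12 h23 h31 hD]
    rw [hopt] at ha hb
    simp only [mem_insert, mem_singleton] at ha hb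
    rcases ha with ha | ha | ha <;> rcases hb with hb | hb | hb <;> subst ha <;> subst hb
    · exact absurd rfl hab
    · rcases lt_or_gt_of_ne h12 with c | c
      · right; right; exact ⟨Or.inl rfl, c⟩
      · left; left; exact ⟨Or.inl rfl, c⟩
    · rcases lt_or_gt_of_ne h31 with c | c
      · left; right; exact ⟨Or.inr (Or.inr rfl), c⟩
      · right; left; exact ⟨Or.inr (Or.inr rfl), c⟩
    · rcases lt_or_gt_of_ne h12 with c | c
      · left; right; exact ⟨Or.inl rfl, c⟩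
      · right; left; exact ⟨Or.inl rfl, c⟩
    · exact absurd rfl hab
    · rcases lt_or_gt_of_ne h23 with c | c
      · right; right; exact ⟨Or.inr (Or.inl rfl), c⟩
      · left; left; exact ⟨Or.inr (Or.inl rfl), c⟩
    · rcases lt_or_gt_of_ne h31 with c | c
      · right; right; exact ⟨Or.inr (Or.inr rfl), c⟩
      · left; left; exact ⟨Or.inr (Or.inr rfl), c⟩
    · rcases lt_or_gt_of_ne h23 with c | c
      · left; right; exact ⟨Or.inr (Or.inl rfl), c⟩
      · right; left; exact ⟨Or.inr (Or.inl rfl), c⟩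
    · exact absurd rfl hab
  rcases lt_or_gt_of_ne hD with hneg | hpos
  · refine main s1 s3 s2 ?_ h31.symm h23.symm h12.symm ?_
    · rw [hopt]
      ext x
      simp only [mem_insert, mem_singleton]
      tauto
    · have : D P Q s1 s3 s2 = - D P Q s1 s2 s3 := by unfold D; ring
      linarith
  · exact main s1 s2 s3 hopt h12 h23 h31 hpos

end Pool.Agent.H36.CV
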