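import Pool.Agent.H36.CV.Count
import Pool.Agent.H36.CV.Tripod
import Pool.Agent.H36.CV.Cross
import Pool.Agent.H36.CV.CellsCard
import Pool.Agent.H36.CV.Omega
import Pool.Agent.H36.CV.Rays
import Pool.Agent.H36.CV.Pert

/-!
# CV-CORE: valuated matroids over convex polygons have few cells (assembly; helper36)
-/

set_option autoImplicit false

open Finset

namespace Pool.Agent.H36.CV

variable {n : ℕ}

theorem D_swap12 {α : Type*} (P Q : α → ℝ) (a b c : α) : D P Q b a c = - D P Q a b c := by
  unfold D; ring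

theorem D_swap23 {α : Type*} (P Q : α → ℝ) (a b c : α) : D P Q a c b = - D P Q a b c := by
  unfold D; ring

theorem mem_W {α : Type*} [DecidableEq α] (U : Finset α) (f P Q : α → ℝ) (w : α × α) :
    w ∈ W U f P Q ↔ (w.1 ∈ U ∧ w.2 ∈ U) ∧ P w.2 < P w.1 ∧ (act U f P Q w).Nonempty := by
  classical
  unfold W
  simp only [mem_filter, mem_product]

theorem mem_Wb {α : Type*} [DecidableEq α] (U : Finset α) (f P Q : α → ℝ) (w : α × α) :
    w ∈ Wb U f P Q ↔ w ∈ W U f P Q ∧ BddBelow (act U f P Q w) := by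
  classical
  unfold Wb
  simp only [mem_filter]

theorem mem_Wa {α : Type*} [DecidableEq α] (U : Finset α) (f P Q : α → ℝ) (w : α × α) :
    w ∈ Wa U f P Q ↔ w ∈ W U f P Q ∧ BddAbove (act U f P Q w) := by
  classical
  unfold Wa
  simp only [mem_filter]

theorem mem_opt {α : Type*} [DecidableEq α] (U : Finset α) (f P Q : α → ℝ) (v : ℝ × ℝ) (s : α) :
    s ∈ opt U f P Q v ↔ s ∈ U ∧ ∀ t ∈ U, F f P Q v.1 v.2 s ≤ F f P Q v.1 v.2 t := by
  classical
  unfold opt
  simp only [mem_filter]

theorem mem_cells {α : Type*} [DecidableEq α] (U : Finset α) (f P Q : α → ℝ) (s : α) :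
    s ∈ cells U f P Q ↔ s ∈ U ∧ ∃ x y : ℝ, ∀ t ∈ U, t ≠ s → F f P Q x y s < F f P Q x y t := by
  classical
  unfold cells
  simp only [mem_filter]

theorem low_W {α : Type*} [DecidableEq α] (U : Finset α) (f P Q : α → ℝ) (v : ℝ × ℝ) (w : α × α)
    (hw : w ∈ Low U f P Q v ∪ Upp U f P Q v) : w ∈ W U f P Q := by
  rcases mem_union.1 hw with h | h
  · exact ((mem_Wb U f P Q w).1 (low_wb U f P Q v w h).1).1
  · exact ((mem_Wa U f P Q w).1 (upp_wa U f P Q v w h).1).1

theorem sw_back (S : Finset (Fin n)) (i j : Fin n) (hi : i ∈ S) (hj : j ∉ S) :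
    sw (sw S i j) j i = S := by
  ext x
  simp only [sw, mem_insert, mem_erase]
  by_cases hx : x = i
  · subst hx; simp [hi]
  · by_cases hxj : x = j
    · subst hxj; simp [hx, hj]
    · simp [hx, hxj]

theorem opt_sub (m : ℕ) (f P Q : Finset (Fin n) → ℝ) (v : ℝ × ℝ) :
    opt (U n m) f P Q v ⊆ U n m := by
  intro s hs
  exact ((mem_opt _ _ _ _ _ _).1 hs).1

/-- Every wall is an exchange pair. -/
theorem wall_adj (m : ℕ) (hmn : m ≤ n) (f : Finset (Fin n) → ℝ) (p q : Fin n → ℝ)
    (hVM : VM m f) (hGen : Gen m f p q) (w : Finset (Fin n) × Finset (Fin n))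
    (hw : w ∈ W (U n m) f (sm p) (sm q)) :
    w.1 ∈ U n m ∧ w.2 ∈ U n m ∧ sm p w.2 < sm p w.1 ∧
      ∃ i j, i ∈ w.1 ∧ j ∉ w.1 ∧ w.2 = sw w.1 i j := by
  obtain ⟨⟨h1, h2⟩, hlt, -⟩ := (mem_W _ _ _ _ _).1 hw
  refine ⟨h1, h2, hlt, ?_⟩
  have hne : w.1 ≠ w.2 := by
    intro h; rw [h] at hlt; exact lt_irrefl _ hlt
  obtain ⟨v, hv⟩ := act_opt (U n m) f (sm p) (sm q) w hw
  have hcard : (opt (U n m) f (sm p) (sm q) v).card = 2 := by
    rw [hv]; exact card_pair hne
  have h1m : w.1 ∈ opt (U n m) f (sm p) (sm q) v := by rw [hv]; simp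
  have h2m : w.2 ∈ opt (U n m) f (sm p) (sm q) v := by rw [hv]; simp
  have three : ∀ a b c : Finset (Fin n), a ≠ b → a ≠ c → b ≠ c →
      a ∈ opt (U n m) f (sm p) (sm q) v → b ∈ opt (U n m) f (sm p) (sm q) v →
      c ∈ opt (U n m) f (sm p) (sm q) v → False := by
    intro a b c hab hac hbc ha hb hc
    have hsub : ({a, b, c} : Finset (Finset (Fin n))) ⊆ opt (U n m) f (sm p) (sm q) v := by
      intro x hx
      simp only [mem_insert, mem_singleton] at hx
      rcases hx with rfl | rfl | rfl <;> assumption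
    have := card_le_card hsub
    rw [hcard, card_eq_three.2 ⟨a, b, c, hab, hac, hbc, rfl⟩] at this
    omega
  have swne : ∀ (S : Finset (Fin n)) (i j : Fin n), i ∈ S → j ∉ S → S ≠ sw S i j := by
    intro S i j hi hj h
    apply hj; rw [h]; simp [sw]
  rcases shape m f p q hmn hVM hGen v with ⟨S, hS⟩ | ⟨S, i, j, hi, hj, hS⟩ |
    ⟨S, i, j, k, hi, hj, hk, hjk, hS⟩ | ⟨S, i, j, k, hi, hj, hij, hk, hS⟩ |
    ⟨S, i, j, k, l, hi, hj, hij, hk, hl, hkl, hS⟩
  · rw [hS] at hcard; simp at hcard
  · rw [hS] at h1m h2m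
    simp only [mem_insert, mem_singleton] at h1m h2m
    rcases h1m with h1m | h1m <;> rcases h2m with h2m | h2m
    · exact absurd (h1m.trans h2m.symm) hne
    · exact ⟨i, j, by rw [h1m]; exact hi, by rw [h1m]; exact hj, by rw [h1m]; exact h2m⟩
    · refine ⟨j, i, by rw [h1m]; simp [sw], ?_, ?_⟩
      · rw [h1m]; simp only [sw, mem_insert, mem_erase, not_or, not_and]
        refine ⟨fun h => hj (h ▸ hi), fun h => absurd rfl h⟩
      · rw [h1m, h2m, sw_back S i j hi hj]
    · exact absurd (h1m.trans h2m.symm) hne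
  · exfalso
    refine three S (sw S i j) (sw S i k) (swne S i j hi hj) (swne S i k hi hk) ?_ ?_ ?_ ?_
    · intro h
      have : j ∈ sw S i k := by rw [← h]; simp [sw]
      simp only [sw, mem_insert, mem_erase] at this
      rcases this with h' | ⟨-, h'⟩
      · exact hjk h'
      · exact hj h'
    all_goals (rw [hS]; simp)
  · exfalso
    refine three S (sw S i k) (sw S j k) (swne S i k hi hk) (swne S j k hj hk) ?_ ?_ ?_ ?_
    · intro h
      have : i ∉ sw S j k := by
        rw [← h]; simp only [sw, mem_insert, mem_erase, not_or, not_and]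
        exact ⟨fun h => hk (h ▸ hi), fun h => absurd rfl h⟩
      apply this
      simp only [sw, mem_insert, mem_erase]
      exact Or.inr ⟨hij, hi⟩
    all_goals (rw [hS]; simp)
  · exfalso
    refine three S (sw S i k) (sw S j l) (swne S i k hi hk) (swne S j l hj hl) ?_ ?_ ?_ ?_
    · intro h
      have : k ∈ sw S j l := by rw [← h]; simp [sw]
      simp only [sw, mem_insert, mem_erase] at this
      rcases this with h' | ⟨-, h'⟩
      · exact hkl h'
      · exact hk h'
    all_goals (rw [hS]; simp)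

theorem mem_sw_of (S : Finset (Fin n)) (i j k : Fin n) (hj : j ∈ S) (hij : i ≠ j) :
    j ∈ sw S i k := by
  simp only [sw, mem_insert, mem_erase]
  exact Or.inr ⟨hij.symm, hj⟩

theorem not_mem_sw_of (S : Finset (Fin n)) (i k l : Fin n) (hl : l ∉ S) (hkl : k ≠ l) :
    l ∉ sw S i k := by
  simp only [sw, mem_insert, mem_erase, not_or, not_and]
  exact ⟨hkl.symm, fun _ => hl⟩

theorem key_sub (f : Finset (Fin n) → ℝ) (p q : Fin n → ℝ)
    (w w' : Finset (Fin n) × Finset (Fin n)) (h : key f w = key f w') :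
    f w.2 - f w.1 = f w'.2 - f w'.1 ∧ sm p w.2 - sm p w.1 = sm p w'.2 - sm p w'.1 ∧
      sm q w.2 - sm q w.1 = sm q w'.2 - sm q w'.1 := by
  have h1 : w.1 \ w.2 = w'.1 \ w'.2 := congrArg (fun z => z.1) h
  have h2 : w.2 \ w.1 = w'.2 \ w'.1 := congrArg (fun z => z.2.1) h
  have h3 : f w.2 - f w.1 = f w'.2 - f w'.1 := congrArg (fun z => z.2.2) h
  have key1 : ∀ (r : Fin n → ℝ) (A B : Finset (Fin n)),
      sm r B - sm r A = sm r (B \ A) - sm r (A \ B) := by
    intro r A B
    unfold sm
    exact sum_sdiff_sub_sum_sdiff.symm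
  refine ⟨h3, ?_, ?_⟩
  · rw [key1 p w.1 w.2, key1 p w'.1 w'.2, h1, h2]
  · rw [key1 q w.1 w.2, key1 q w'.1 w'.2, h1, h2]

theorem sw_sdiff (S : Finset (Fin n)) (i j : Fin n) (hi : i ∈ S) (hj : j ∉ S) :
    S \ sw S i j = {i} := by
  ext x
  simp only [sw, mem_sdiff, mem_insert, mem_erase, not_or, not_and, mem_singleton]
  constructor
  · rintro ⟨h1, h2, h3⟩
    by_contra hx
    exact h3 hx h1
  · rintro rfl
    exact ⟨hi, fun h => hj (h ▸ hi), fun h => absurd rfl h⟩

theorem sdiff_sw (S : Finset (Fin n)) (i j : Fin n) (_hi : i ∈ S) (hj : j ∉ S) :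
    sw S i j \ S = {j} := by
  ext x
  simp only [sw, mem_sdiff, mem_insert, mem_erase, mem_singleton]
  constructor
  · rintro ⟨h1 | h1, h2⟩
    · exact h1
    · exact absurd h1.2 h2
  · rintro rfl
    exact ⟨Or.inl rfl, hj⟩

theorem opt_F_eq (m : ℕ) (f P Q : Finset (Fin n) → ℝ) (v : ℝ × ℝ) (S T : Finset (Fin n))
    (hS : S ∈ opt (U n m) f P Q v) (hT : T ∈ opt (U n m) f P Q v) :
    F f P Q v.1 v.2 S = F f P Q v.1 v.2 T := by
  rw [mem_opt] at hS hT
  exact le_antisymm (hS.2 T hT.1) (hT.2 S hS.1)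

theorem key_eq (m : ℕ) (f : Finset (Fin n) → ℝ) (p q : Fin n → ℝ) (v : ℝ × ℝ)
    (S S1 S2 S3 : Finset (Fin n))
    (h0 : S ∈ opt (U n m) f (sm p) (sm q) v) (h1 : S1 ∈ opt (U n m) f (sm p) (sm q) v)
    (h2 : S2 ∈ opt (U n m) f (sm p) (sm q) v) (h3 : S3 ∈ opt (U n m) f (sm p) (sm q) v)
    (hP : sm p S1 - sm p S = sm p S3 - sm p S2) (hQ : sm q S1 - sm q S = sm q S3 - sm q S2)
    (e1 : S \ S1 = S2 \ S3) (e2 : S1 \ S = S3 \ S2) : key f (S, S1) = key f (S2, S3) := by
  have a := opt_F_eq m f (sm p) (sm q) v S S1 h0 h1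
  have b := opt_F_eq m f (sm p) (sm q) v S2 S3 h2 h3
  unfold F at a b
  have : f S1 - f S = f S3 - f S2 := by
    have e : sm p S1 = sm p S + (sm p S3 - sm p S2) := by linarith
    have e' : sm q S1 = sm q S + (sm q S3 - sm q S2) := by linarith
    rw [e, e'] at a
    nlinarith [a, b]
  simp only [key]
  rw [e1, e2, this]

theorem core_hloc (m : ℕ) (hmn : m ≤ n) (f : Finset (Fin n) → ℝ) (p q : Fin n → ℝ)
    (hp : Function.Injective p) (hVM : VM m f) (hGen : Gen m f p q) (hc : Cvx p q) :
    ∀ v : ℝ × ℝ, 3 ≤ (opt (U n m) f (sm p) (sm q) v).card →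
      ((∑ w ∈ Low (U n m) f (sm p) (sm q) v, om w.1 w.2)
          - (∑ w ∈ Upp (U n m) f (sm p) (sm q) v, om w.1 w.2) ≤ -1 ∧
        (Low (U n m) f (sm p) (sm q) v).card ≤ 2) ∨
      ((∑ w ∈ Low (U n m) f (sm p) (sm q) v, om w.1 w.2)
          - (∑ w ∈ Upp (U n m) f (sm p) (sm q) v, om w.1 w.2) ≤ 0 ∧
        ∀ w ∈ Low (U n m) f (sm p) (sm q) v, ∃ w' ∈ Upp (U n m) f (sm p) (sm q) v,
          key f w' = key f w) := by
  have hpne : ∀ {a b : Fin n}, a ≠ b → p a ≠ p b := fun h h' => h (hp h')
  intro v hv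
  rcases shape m f p q hmn hVM hGen v with ⟨S, hS⟩ | ⟨S, i, j, hi, hj, hS⟩ |
    ⟨S, i, j, k, hi, hj, hk, hjk, hS⟩ | ⟨S, i, j, k, hi, hj, hij, hk, hS⟩ |
    ⟨S, i, j, k, l, hi, hj, hij, hk, hl, hkl, hS⟩
  · rw [hS] at hv; simp at hv
  · rw [hS] at hv
    have := card_le_two (a := S) (b := sw S i j)
    omega
  · left
    have P1 := sm_sw p S i j hi hj
    have P2 := sm_sw p S i k hi hk
    have n1 : p i ≠ p j := hpne (fun h => hj (h ▸ hi))
    have n2 : p i ≠ p k := hpne (fun h => hk (h ▸ hi))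
    have n3 : p j ≠ p k := hpne hjk
    have g1 : sm p S ≠ sm p (sw S i j) := by
      rw [P1]; intro h; apply n1; linarith
    have g2 : sm p (sw S i j) ≠ sm p (sw S i k) := by
      rw [P1, P2]; intro h; apply n3; linarith
    have g3 : sm p (sw S i k) ≠ sm p S := by
      rw [P2]; intro h; apply n2; linarith
    have hD := shape_det m f p q hp hGen v S i i j k hi hi hj hk (Or.inr hjk)
      (by rw [hS]; simp) (by rw [hS]; simp) (by rw [hS]; simp)
    obtain ⟨o1, o2⟩ := om_white p q hc S i j k hi hj hk hjk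
    rcases lt_or_gt_of_ne hD with h | h
    · refine tripod_sum (U n m) f (sm p) (sm q) om om_anti v S (sw S i k) (sw S i j) ?_
        g3.symm g2.symm g1.symm ?_ ?_
      · rw [hS]; congr 1; exact pair_comm _ _
      · rw [D_swap23]; linarith
      · have := o2 h
        have a1 := om_anti S (sw S i j)
        have a2 := om_anti (sw S i j) (sw S i k)
        have a3 := om_anti (sw S i k) S
        linarith
    · exact tripod_sum (U n m) f (sm p) (sm q) om om_anti v S (sw S i j) (sw S i k) hS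
        g1 g2 g3 h (o1 h)
  · left
    have P1 := sm_sw p S i k hi hk
    have P2 := sm_sw p S j k hj hk
    have n1 : p i ≠ p k := hpne (fun h => hk (h ▸ hi))
    have n2 : p j ≠ p k := hpne (fun h => hk (h ▸ hj))
    have n3 : p i ≠ p j := hpne hij
    have g1 : sm p S ≠ sm p (sw S i k) := by
      rw [P1]; intro h; apply n1; linarith
    have g2 : sm p (sw S i k) ≠ sm p (sw S j k) := by
      rw [P1, P2]; intro h; apply n3; linarith
    have g3 : sm p (sw S j k) ≠ sm p S := by
      rw [P2]; intro h; apply n2; linarith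
    have hD := shape_det m f p q hp hGen v S i j k k hi hj hk hk (Or.inl hij)
      (by rw [hS]; simp) (by rw [hS]; simp) (by rw [hS]; simp)
    obtain ⟨o1, o2⟩ := om_black p q hc S i j k hi hj hij hk
    rcases lt_or_gt_of_ne hD with h | h
    · refine tripod_sum (U n m) f (sm p) (sm q) om om_anti v S (sw S j k) (sw S i k) ?_
        g3.symm g2.symm g1.symm ?_ ?_
      · rw [hS]; congr 1; exact pair_comm _ _
      · rw [D_swap23]; linarith
      · have := o2 h
        have a1 := om_anti S (sw S i k)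
        have a2 := om_anti (sw S i k) (sw S j k)
        have a3 := om_anti (sw S j k) S
        linarith
    · exact tripod_sum (U n m) f (sm p) (sm q) om om_anti v S (sw S i k) (sw S j k) hS
        g1 g2 g3 h (o1 h)
  · right
    have hj' : j ∈ sw S i k := mem_sw_of S i j k hj hij
    have hl' : l ∉ sw S i k := not_mem_sw_of S i k l hl hkl
    have P1 := sm_sw p S i k hi hk
    have P2 := sm_sw p S j l hj hl
    have P3 := sm_sw p (sw S i k) j l hj' hl'
    have Q1 := sm_sw q S i k hi hk
    have Q2 := sm_sw q S j l hj hl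
    have Q3 := sm_sw q (sw S i k) j l hj' hl'
    have n1 : p i ≠ p k := hpne (fun h => hk (h ▸ hi))
    have n2 : p j ≠ p l := hpne (fun h => hl (h ▸ hj))
    have g1 : sm p (sw S i k) ≠ sm p S := by
      rw [P1]; intro h; apply n1; linarith
    have g2 : sm p (sw S j l) ≠ sm p S := by
      rw [P2]; intro h; apply n2; linarith
    have m0 : S ∈ opt (U n m) f (sm p) (sm q) v := by rw [hS]; simp
    have m1 : sw S i k ∈ opt (U n m) f (sm p) (sm q) v := by rw [hS]; simp
    have m2 : sw S j l ∈ opt (U n m) f (sm p) (sm q) v := by rw [hS]; simp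
    have m3 : sw (sw S i k) j l ∈ opt (U n m) f (sm p) (sm q) v := by rw [hS]; simp
    have hD := shape_det m f p q hp hGen v S i j k l hi hj hk hl (Or.inl hij) m0 m1 m2
    obtain ⟨o1, o2⟩ := om_cross p q hc S i j k l hi hj hij hk hl hkl
    have e0 : sw (sw S j l) i k = sw (sw S i k) j l := by
      ext x
      simp only [sw, mem_insert, mem_erase]
      have hik : i ≠ k := fun h => hk (h ▸ hi)
      have hil : i ≠ l := fun h => hl (h ▸ hi)
      have hjk : j ≠ k := fun h => hk (h ▸ hj)
      constructor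
      · rintro (h | ⟨h1, h2 | ⟨h2, h3⟩⟩)
        · subst h; exact Or.inr ⟨hjk.symm, Or.inl rfl⟩
        · exact Or.inl h2
        · exact Or.inr ⟨h2, Or.inr ⟨h1, h3⟩⟩
      · rintro (h | ⟨h1, h2 | ⟨h2, h3⟩⟩)
        · subst h; exact Or.inr ⟨hil.symm, Or.inl rfl⟩
        · exact Or.inl h2
        · exact Or.inr ⟨h2, Or.inr ⟨h1, h3⟩⟩
    have hi2 : i ∈ sw S j l := mem_sw_of S j i l hi hij.symm
    have hk2 : k ∉ sw S j l := not_mem_sw_of S j l k hk hkl.symm
    have k1 : key f (S, sw S i k) = key f (sw S j l, sw (sw S i k) j l) := by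
      refine key_eq m f p q v _ _ _ _ m0 m1 m2 m3 (by linarith) (by linarith) ?_ ?_
      · rw [sw_sdiff S i k hi hk, ← e0, sw_sdiff _ i k hi2 hk2]
      · rw [sdiff_sw S i k hi hk, ← e0, sdiff_sw _ i k hi2 hk2]
    have k2 : key f (sw S i k, S) = key f (sw (sw S i k) j l, sw S j l) := by
      refine key_eq m f p q v _ _ _ _ m1 m0 m3 m2 (by linarith) (by linarith) ?_ ?_
      · rw [sdiff_sw S i k hi hk, ← e0, sdiff_sw _ i k hi2 hk2]
      · rw [sw_sdiff S i k hi hk, ← e0, sw_sdiff _ i k hi2 hk2]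
    have k3 : key f (S, sw S j l) = key f (sw S i k, sw (sw S i k) j l) := by
      refine key_eq m f p q v _ _ _ _ m0 m2 m1 m3 (by linarith) (by linarith) ?_ ?_
      · rw [sw_sdiff S j l hj hl, sw_sdiff _ j l hj' hl']
      · rw [sdiff_sw S j l hj hl, sdiff_sw _ j l hj' hl']
    have k4 : key f (sw S j l, S) = key f (sw (sw S i k) j l, sw S i k) := by
      refine key_eq m f p q v _ _ _ _ m2 m0 m3 m1 (by linarith) (by linarith) ?_ ?_
      · rw [sdiff_sw S j l hj hl, sdiff_sw _ j l hj' hl']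
      · rw [sw_sdiff S j l hj hl, sw_sdiff _ j l hj' hl']
    refine ⟨cross_sum (U n m) f (sm p) (sm q) om om_anti v S (sw S i k) (sw S j l)
      (sw (sw S i k) j l) hS (by linarith) (by linarith) g1 g2 hD o1 o2, ?_⟩
    intro w hw
    exact cross_key (U n m) f (sm p) (sm q) (key f) v S (sw S i k) (sw S j l)
      (sw (sw S i k) j l) hS (by linarith) (by linarith) g1 g2 hD k1 k2 k3 k4 w hw

theorem core_hadj (m : ℕ) (hmn : m ≤ n) (f : Finset (Fin n) → ℝ) (p q : Fin n → ℝ)
    (hp : Function.Injective p) (hVM : VM m f) (hGen : Gen m f p q) :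
    ∀ v : ℝ × ℝ, ∀ dx dy : ℝ, ∀ s ∈ opt (U n m) f (sm p) (sm q) v,
      ∀ t ∈ opt (U n m) f (sm p) (sm q) v,
      dx * sm p t + dy * sm q t < dx * sm p s + dy * sm q s →
      ∃ t' ∈ opt (U n m) f (sm p) (sm q) v,
        dx * sm p t' + dy * sm q t' < dx * sm p s + dy * sm q s ∧
        ((s, t') ∈ W (U n m) f (sm p) (sm q) ∨ (t', s) ∈ W (U n m) f (sm p) (sm q)) := by
  have hpne : ∀ {a b : Fin n}, a ≠ b → p a ≠ p b := fun h h' => h (hp h')
  intro v dx dy s hs t ht hst
  have hne : s ≠ t := by rintro rfl; exact lt_irrefl _ hst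
  have toW : ∀ a b : Finset (Fin n),
      ((a, b) ∈ Low (U n m) f (sm p) (sm q) v ∪ Upp (U n m) f (sm p) (sm q) v ∨
        (b, a) ∈ Low (U n m) f (sm p) (sm q) v ∪ Upp (U n m) f (sm p) (sm q) v) →
      ((a, b) ∈ W (U n m) f (sm p) (sm q) ∨ (b, a) ∈ W (U n m) f (sm p) (sm q)) := by
    intro a b h
    exact h.imp (low_W _ _ _ _ v _) (low_W _ _ _ _ v _)
  rcases shape m f p q hmn hVM hGen v with ⟨S, hS⟩ | ⟨S, i, j, hi, hj, hS⟩ |
    ⟨S, i, j, k, hi, hj, hk, hjk, hS⟩ | ⟨S, i, j, k, hi, hj, hij, hk, hS⟩ |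
    ⟨S, i, j, k, l, hi, hj, hij, hk, hl, hkl, hS⟩
  · rw [hS, mem_singleton] at hs ht
    exact absurd (hs.trans ht.symm) hne
  · refine ⟨t, ht, hst, ?_⟩
    have P1 := sm_sw p S i j hi hj
    have n1 : p i ≠ p j := hpne (fun h => hj (h ▸ hi))
    have hW : (S, sw S i j) ∈ W (U n m) f (sm p) (sm q) ∨
        (sw S i j, S) ∈ W (U n m) f (sm p) (sm q) := by
      rcases lt_or_gt_of_ne n1 with h | h
      · right
        refine opt_act (U n m) f (sm p) (sm q) _ _ (by linarith) v ?_
        rw [hS]; exact pair_comm _ _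
      · left
        exact opt_act (U n m) f (sm p) (sm q) _ _ (by linarith) v hS
    rw [hS] at hs ht
    simp only [mem_insert, mem_singleton] at hs ht
    rcases hs with hs | hs <;> rcases ht with ht | ht
    · exact absurd (hs.trans ht.symm) hne
    · rw [hs, ht]; exact hW
    · rw [hs, ht]; exact hW.symm
    · exact absurd (hs.trans ht.symm) hne
  · refine ⟨t, ht, hst, toW _ _ ?_⟩
    have P1 := sm_sw p S i j hi hj
    have P2 := sm_sw p S i k hi hk
    have n1 : p i ≠ p j := hpne (fun h => hj (h ▸ hi))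
    have n2 : p i ≠ p k := hpne (fun h => hk (h ▸ hi))
    have n3 : p j ≠ p k := hpne hjk
    have g1 : sm p S ≠ sm p (sw S i j) := by
      rw [P1]; intro h; apply n1; linarith
    have g2 : sm p (sw S i j) ≠ sm p (sw S i k) := by
      rw [P1, P2]; intro h; apply n3; linarith
    have g3 : sm p (sw S i k) ≠ sm p S := by
      rw [P2]; intro h; apply n2; linarith
    have hD := shape_det m f p q hp hGen v S i i j k hi hi hj hk (Or.inr hjk)
      (by rw [hS]; simp) (by rw [hS]; simp) (by rw [hS]; simp)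
    exact tripod_edges (U n m) f (sm p) (sm q) v S (sw S i j) (sw S i k) hS g1 g2 g3 hD s t
      hs ht hne
  · refine ⟨t, ht, hst, toW _ _ ?_⟩
    have P1 := sm_sw p S i k hi hk
    have P2 := sm_sw p S j k hj hk
    have n1 : p i ≠ p k := hpne (fun h => hk (h ▸ hi))
    have n2 : p j ≠ p k := hpne (fun h => hk (h ▸ hj))
    have n3 : p i ≠ p j := hpne hij
    have g1 : sm p S ≠ sm p (sw S i k) := by
      rw [P1]; intro h; apply n1; linarith
    have g2 : sm p (sw S i k) ≠ sm p (sw S j k) := by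
      rw [P1, P2]; intro h; apply n3; linarith
    have g3 : sm p (sw S j k) ≠ sm p S := by
      rw [P2]; intro h; apply n2; linarith
    have hD := shape_det m f p q hp hGen v S i j k k hi hj hk hk (Or.inl hij)
      (by rw [hS]; simp) (by rw [hS]; simp) (by rw [hS]; simp)
    exact tripod_edges (U n m) f (sm p) (sm q) v S (sw S i k) (sw S j k) hS g1 g2 g3 hD s t
      hs ht hne
  · have hj' : j ∈ sw S i k := mem_sw_of S i j k hj hij
    have hl' : l ∉ sw S i k := not_mem_sw_of S i k l hl hkl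
    have P1 := sm_sw p S i k hi hk
    have P2 := sm_sw p S j l hj hl
    have P3 := sm_sw p (sw S i k) j l hj' hl'
    have Q1 := sm_sw q S i k hi hk
    have Q2 := sm_sw q S j l hj hl
    have Q3 := sm_sw q (sw S i k) j l hj' hl'
    have n1 : p i ≠ p k := hpne (fun h => hk (h ▸ hi))
    have n2 : p j ≠ p l := hpne (fun h => hl (h ▸ hj))
    have g1 : sm p (sw S i k) ≠ sm p S := by
      rw [P1]; intro h; apply n1; linarith
    have g2 : sm p (sw S j l) ≠ sm p S := by
      rw [P2]; intro h; apply n2; linarith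
    have m0 : S ∈ opt (U n m) f (sm p) (sm q) v := by rw [hS]; simp
    have m1 : sw S i k ∈ opt (U n m) f (sm p) (sm q) v := by rw [hS]; simp
    have m2 : sw S j l ∈ opt (U n m) f (sm p) (sm q) v := by rw [hS]; simp
    have m3 : sw (sw S i k) j l ∈ opt (U n m) f (sm p) (sm q) v := by rw [hS]; simp
    have hD := shape_det m f p q hp hGen v S i j k l hi hj hk hl (Or.inl hij) m0 m1 m2
    have hedge := cross_edges (U n m) f (sm p) (sm q) v S (sw S i k) (sw S j l)
      (sw (sw S i k) j l) hS (by linarith) (by linarith) g1 g2 hD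
    have E1 := toW _ _ (hedge S (sw S i k) (by simp))
    have E2 := toW _ _ (hedge S (sw S j l) (by simp))
    have E3 := toW _ _ (hedge (sw S i k) (sw (sw S i k) j l) (by simp))
    have E4 := toW _ _ (hedge (sw S j l) (sw (sw S i k) j l) (by simp))
    -- planar parallelogram: if no neighbour improves, nothing improves
    have main : ∀ a b c d : Finset (Fin n),
        a ∈ opt (U n m) f (sm p) (sm q) v → b ∈ opt (U n m) f (sm p) (sm q) v →
        c ∈ opt (U n m) f (sm p) (sm q) v →
        sm p a + sm p d = sm p b + sm p c → sm q a + sm q d = sm q b + sm q c →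
        ((a, b) ∈ W (U n m) f (sm p) (sm q) ∨ (b, a) ∈ W (U n m) f (sm p) (sm q)) →
        ((a, c) ∈ W (U n m) f (sm p) (sm q) ∨ (c, a) ∈ W (U n m) f (sm p) (sm q)) →
        (t = a ∨ t = b ∨ t = c ∨ t = d) → s = a →
        ∃ t' ∈ opt (U n m) f (sm p) (sm q) v,
          dx * sm p t' + dy * sm q t' < dx * sm p s + dy * sm q s ∧
          ((s, t') ∈ W (U n m) f (sm p) (sm q) ∨ (t', s) ∈ W (U n m) f (sm p) (sm q)) := by
      intro a b c d ha hb hc' hp' hq' hab hac htt hsa
      subst hsa
      by_cases hbl : dx * sm p b + dy * sm q b < dx * sm p s + dy * sm q s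
      · exact ⟨b, hb, hbl, hab⟩
      by_cases hcl : dx * sm p c + dy * sm q c < dx * sm p s + dy * sm q s
      · exact ⟨c, hc', hcl, hac⟩
      exfalso
      rcases htt with h | h | h | h
      · exact hne h.symm
      · rw [h] at hst; exact hbl hst
      · rw [h] at hst; exact hcl hst
      · rw [h] at hst
        have e1 : sm p d = sm p b + sm p c - sm p s := by linarith
        have e2 : sm q d = sm q b + sm q c - sm q s := by linarith
        rw [e1, e2] at hst
        apply hbl
        have := not_lt.1 hcl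
        nlinarith
    have ht4 : t = S ∨ t = sw S i k ∨ t = sw S j l ∨ t = sw (sw S i k) j l := by
      rw [hS] at ht; simpa using ht
    have hs4 : s = S ∨ s = sw S i k ∨ s = sw S j l ∨ s = sw (sw S i k) j l := by
      rw [hS] at hs; simpa using hs
    rcases hs4 with h | h | h | h
    · exact main S (sw S i k) (sw S j l) (sw (sw S i k) j l) m0 m1 m2 (by linarith)
        (by linarith) E1 E2 ht4 h
    · refine main (sw S i k) S (sw (sw S i k) j l) (sw S j l) m1 m0 m3 (by linarith)
        (by linarith) E1.symm E3 (ht4.elim (fun x => Or.inr (Or.inl x)) (fun x => x.elim Or.inl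
          (fun x => x.elim (fun y => Or.inr (Or.inr (Or.inr y)))
            (fun y => Or.inr (Or.inr (Or.inl y)))))) h
    · refine main (sw S j l) S (sw (sw S i k) j l) (sw S i k) m2 m0 m3 (by linarith)
        (by linarith) E2.symm E4 (ht4.elim (fun x => Or.inr (Or.inl x)) (fun x => x.elim
          (fun y => Or.inr (Or.inr (Or.inr y))) (fun x => x.elim Or.inl
            (fun y => Or.inr (Or.inr (Or.inl y)))))) h
    · refine main (sw (sw S i k) j l) (sw S i k) (sw S j l) S m3 m1 m2 (by linarith)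
        (by linarith) E3.symm E4.symm (ht4.elim (fun y => Or.inr (Or.inr (Or.inr y)))
          (fun x => x.elim (fun y => Or.inr (Or.inl y)) (fun x => x.elim
            (fun y => Or.inr (Or.inr (Or.inl y))) Or.inl))) h

theorem core_gen (m : ℕ) (hm : 1 ≤ m) (hmn : m ≤ n) (f : Finset (Fin n) → ℝ) (p q : Fin n → ℝ)
    (hp : Function.Injective p) (hVM : VM m f) (hGen : Gen m f p q) (hc : Cvx p q) :
    (cells (U n m) f (sm p) (sm q)).card ≤ 1 + 5 * m * n + (5 * m * n).choose 2 := by
  have hloc := core_hloc m hmn f p q hp hVM hGen hc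
  have hOm : ∀ w ∈ W (U n m) f (sm p) (sm q), |om w.1 w.2| ≤ ((2 * m : ℕ) : ℤ) := by
    intro w hw
    obtain ⟨h1, -, -, i, j, hi, hj, h⟩ := wall_adj m hmn f p q hVM hGen w hw
    have := om_bound w.1 i j hi hj
    rw [← h] at this
    have hcard : w.1.card = m := (mem_powersetCard.1 h1).2
    rw [hcard] at this
    push_cast
    linarith
  have hN : (W (U n m) f (sm p) (sm q) \ Wa (U n m) f (sm p) (sm q)).card
      + (W (U n m) f (sm p) (sm q) \ Wb (U n m) f (sm p) (sm q)).card ≤ n := by
    set A := W (U n m) f (sm p) (sm q) \ Wa (U n m) f (sm p) (sm q) with hA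
    set B := W (U n m) f (sm p) (sm q) \ Wb (U n m) f (sm p) (sm q) with hB
    have hBs : (B.image Prod.swap).card = B.card :=
      card_image_of_injective _ Prod.swap_injective
    have hdisj : Disjoint A (B.image Prod.swap) := by
      rw [disjoint_left]
      intro w hwA hwB
      obtain ⟨w', hw', rfl⟩ := mem_image.1 hwB
      have h1 := (wall_adj m hmn f p q hVM hGen _ (mem_sdiff.1 hwA).1).2.2.1
      have h2 := (wall_adj m hmn f p q hVM hGen _ (mem_sdiff.1 hw').1).2.2.1
      simp only [Prod.fst_swap, Prod.snd_swap] at h1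
      exact lt_asymm h1 h2
    have := ray_card m p q hc (A ∪ B.image Prod.swap) ?_
    · rw [card_union_of_disjoint hdisj, hBs] at this
      exact this
    · intro w hw
      rcases mem_union.1 hw with hw | hw
      · obtain ⟨hw1, hw2⟩ := mem_sdiff.1 hw
        obtain ⟨h1, h2, h3, h4⟩ := wall_adj m hmn f p q hVM hGen w hw1
        refine ⟨h1, h4, ?_⟩
        intro T hT
        refine ray_up (U n m) f (sm p) (sm q) w hw1 ?_ T hT
        intro hb
        exact hw2 ((mem_Wa _ _ _ _ _).2 ⟨hw1, hb⟩)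
      · obtain ⟨w', hw', rfl⟩ := mem_image.1 hw
        obtain ⟨hw1, hw2⟩ := mem_sdiff.1 hw'
        obtain ⟨h1, h2, h3, i, j, hi, hj, h4⟩ := wall_adj m hmn f p q hVM hGen w' hw1
        refine ⟨h2, ⟨j, i, ?_, ?_, ?_⟩, ?_⟩
        · rw [Prod.fst_swap, h4]; simp [sw]
        · rw [Prod.fst_swap, h4]; simp only [sw, mem_insert, mem_erase, not_or, not_and]
          exact ⟨fun h => hj (h ▸ hi), fun h => absurd rfl h⟩
        · rw [Prod.fst_swap, Prod.snd_swap, h4, sw_back w'.1 i j hi hj]
        · intro T hT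
          have := ray_down (U n m) f (sm p) (sm q) w' hw1 ?_ T hT
          · rw [Prod.fst_swap, Prod.snd_swap, D_swap12]
            linarith
          · intro hb
            exact hw2 ((mem_Wb _ _ _ _ _).2 ⟨hw1, hb⟩)
  have hkeys := count_keys (U n m) f (sm p) (sm q) (key f) om n (2 * m) hloc hOm hN
  have hadj := core_hadj m hmn f p q hp hVM hGen
  have hcells := cells_card (U n m) f (sm p) (sm q) (key f) (key_sub f p q) hadj
  have hL : ((W (U n m) f (sm p) (sm q)).image (key f)).card ≤ 5 * m * n := by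
    refine hkeys.trans ?_
    have : n ≤ m * n := Nat.le_mul_of_pos_left n hm
    nlinarith
  refine hcells.trans ?_
  have := Nat.choose_le_choose 2 hL
  omega

theorem core_inj (m : ℕ) (hmn : m ≤ n) (f : Finset (Fin n) → ℝ) (p q : Fin n → ℝ)
    (hp : Function.Injective p) (hVM : VM m f) (hc : Cvx p q) :
    (cells (U n m) f (sm p) (sm q)).card ≤ 1 + 5 * m * n + (5 * m * n).choose 2 := by
  rcases Nat.eq_zero_or_pos m with h0 | hm
  · subst h0
    have h1 : (U n 0).card = 1 := by
      unfold U; rw [card_powersetCard]; simp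
    have h2 : cells (U n 0) f (sm p) (sm q) ⊆ U n 0 := by
      intro s hs; exact ((mem_cells _ _ _ _ _).1 hs).1
    have := card_le_card h2
    omega
  · obtain ⟨f', hVM', hGen', hsub⟩ := exists_gen m f p q hVM
    exact (card_le_card hsub).trans (core_gen m hm hmn f' p q hp hVM' hGen' hc)

theorem core (m : ℕ) (hmn : m ≤ n) (f : Finset (Fin n) → ℝ) (p q : Fin n → ℝ)
    (hVM : VM m f) (hc : Cvx p q) :
    (cells (U n m) f (sm p) (sm q)).card ≤ 1 + 5 * m * n + (5 * m * n).choose 2 := by
  by_cases hn : n ≤ 2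
  · have h2 : cells (U n m) f (sm p) (sm q) ⊆ U n m := by
      intro s hs; exact ((mem_cells _ _ _ _ _).1 hs).1
    have h3 := card_le_card h2
    have h1 : (U n m).card = n.choose m := by
      unfold U; rw [card_powersetCard]; simp
    have h4 : n.choose m ≤ 1 + 5 * m * n := by
      interval_cases n
      · have : m = 0 := by omega
        subst this; simp
      · interval_cases m <;> simp
      · interval_cases m <;> simp
    omega
  · -- distinct points
    have hdist : ∀ i j : Fin n, i ≠ j → ¬ (p i = p j ∧ q i = q j) := by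
      rintro i j hij ⟨h1, h2⟩
      obtain ⟨k, hki, hkj⟩ : ∃ k : Fin n, k ≠ i ∧ k ≠ j := by
        have hcard : ({i, j} : Finset (Fin n)).card < (univ : Finset (Fin n)).card := by
          have := card_le_two (a := i) (b := j)
          simp only [card_univ, Fintype.card_fin]
          omega
        obtain ⟨k, -, hk⟩ := exists_mem_notMem_of_card_lt_card hcard
        simp only [mem_insert, mem_singleton, not_or] at hk
        exact ⟨k, hk.1, hk.2⟩
      have hz : det3 p q i j k = 0 := by
        unfold det3; rw [h1, h2]; ring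
      rcases det3_sign p q hc i j k hij hkj.symm hki with ⟨h, -⟩ | ⟨h, -⟩
      · rw [hz] at h; exact lt_irrefl _ h
      · rw [hz] at h; exact lt_irrefl _ h
    obtain ⟨η, hη⟩ := Infinite.exists_notMem_finset
      ((univ : Finset (Fin n × Fin n)).image
        (fun z => (p z.1 - p z.2) / (q z.2 - q z.1)))
    set p' : Fin n → ℝ := fun i => p i + η * q i with hp'
    have hinj : Function.Injective p' := by
      intro i j hij
      by_contra hne
      simp only [hp'] at hij
      have h1 : p i - p j = η * (q j - q i) := by linarith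
      have hq : q j - q i ≠ 0 := by
        intro h
        rw [h, mul_zero] at h1
        exact hdist i j hne ⟨by linarith, by linarith⟩
      apply hη
      rw [mem_image]
      exact ⟨(i, j), mem_univ _, by simp only; rw [h1]; field_simp⟩
    have hc' : Cvx p' q := by
      intro i j k hij hjk
      have := hc i j k hij hjk
      have e : det3 p' q i j k = det3 p q i j k := by
        unfold det3; simp only [hp']; ring
      rw [e]; exact this
    have hsm : ∀ S : Finset (Fin n), sm p' S = sm p S + η * sm q S := by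
      intro S
      unfold sm
      simp only [hp', sum_add_distrib, mul_sum]
    have hsub : cells (U n m) f (sm p) (sm q) ⊆ cells (U n m) f (sm p') (sm q) := by
      intro S hS
      rw [mem_cells] at hS ⊢
      obtain ⟨h1, x, y, h2⟩ := hS
      refine ⟨h1, x, y - η * x, ?_⟩
      intro T hT hTS
      have := h2 T hT hTS
      unfold F at this ⊢
      rw [hsm, hsm]
      nlinarith
    exact (card_le_card hsub).trans (core_inj m hmn f p' q hinj hVM hc')

end Pool.Agent.H36.CV
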