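import Pool.Agent.H36.CV.Defs

/-!
# CV-RAY: unbounded walls, exact pairs, comparison of two walls

Notation: for a pair `w = (s, s')` with `P s' < P s`, `X y := xw f P Q s s' y` is the only `x` with
`F x y s = F x y s'` (field_simp); `gap t y := F (X y) y t - F (X y) y s`;
  (A)  `(P s - P s') * (gap t y - gap t y0) = (y - y0) * D P Q s s' t`   (field_simp; ring).

`ray_up`: if `D P Q s s' t < 0` then by (A) `gap t y < 0` for all large `y`, but `act w` contains
arbitrarily large `y`, where `gap t y > 0` if `t ≠ s, s'` (for `t = s, s'`: `D = 0` by ring).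
`ray_down`: same downwards.
`act_opt`: for `y ∈ act w`: the minimisers at `(X y, y)` are exactly `s, s'`.
`opt_act`: conversely.
`lt_of_stop`: `w' ∈ Wa` with `sSup (act w') = y0`; `act w'` is open, so it contains a point `y < y0`
(take any `y ∈ act w'`, `y ≤ y0`; if `y = y0` openness gives points above `y0`, contradiction);
so if it is bounded below, `sInf (act w') ≤ y < y0`.
-/

set_option autoImplicit false

set_option linter.unusedSectionVars false

open Finset

namespace Pool.Agent.H36.CV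

variable {α : Type*} [DecidableEq α] (U : Finset α) (f P Q : α → ℝ)

/-- equality of the two values at the abscissa `xw` -/
lemma ray_eq (s s' : α) (h : P s' < P s) (y : ℝ) :
    F f P Q (xw f P Q s s' y) y s = F f P Q (xw f P Q s s' y) y s' := by
  have h0 : P s - P s' ≠ 0 := by linarith
  have h1 : xw f P Q s s' y * (P s - P s') = f s' - f s + y * (Q s' - Q s) := by
    rw [xw, div_mul_cancel₀ _ h0]
  simp only [F]
  linarith

lemma ray_xw (s s' : α) (h : P s' < P s) (x y : ℝ)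
    (he : F f P Q x y s = F f P Q x y s') : x = xw f P Q s s' y := by
  have h0 : P s - P s' ≠ 0 := by linarith
  rw [xw, eq_div_iff h0]
  simp only [F] at he
  linarith

/-- identity (A) -/
lemma ray_gap (s s' t : α) (h : P s' < P s) (y y0 : ℝ) :
    (P s - P s') * ((F f P Q (xw f P Q s s' y) y t - F f P Q (xw f P Q s s' y) y s) -
      (F f P Q (xw f P Q s s' y0) y0 t - F f P Q (xw f P Q s s' y0) y0 s)) =
      (y - y0) * D P Q s s' t := by
  have h0 : P s - P s' ≠ 0 := by linarith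
  have h1 : xw f P Q s s' y * (P s - P s') = f s' - f s + y * (Q s' - Q s) := by
    rw [xw, div_mul_cancel₀ _ h0]
  have h2 : xw f P Q s s' y0 * (P s - P s') = f s' - f s + y0 * (Q s' - Q s) := by
    rw [xw, div_mul_cancel₀ _ h0]
  simp only [F, D]
  linear_combination (P t - P s) * (h1 - h2)

lemma ray_D_left (s s' : α) : D P Q s s' s = 0 := by simp only [D]; ring

lemma ray_D_right (s s' : α) : D P Q s s' s' = 0 := by simp only [D]; ring

lemma ray_mem_W (w : α × α) : w ∈ W U f P Q ↔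
    (w.1 ∈ U ∧ w.2 ∈ U) ∧ P w.2 < P w.1 ∧ (act U f P Q w).Nonempty := by
  simp [W, mem_filter, mem_product]

theorem ray_up (w : α × α) (hw : w ∈ W U f P Q) (hb : ¬ BddAbove (act U f P Q w)) (t : α)
    (ht : t ∈ U) : 0 ≤ D P Q w.1 w.2 t := by
  obtain ⟨-, hP, y0, hy0⟩ := (ray_mem_W U f P Q w).1 hw
  by_contra hD
  push Not at hD
  have h1 : t ≠ w.1 := by rintro rfl; rw [ray_D_left] at hD; exact lt_irrefl _ hD
  have h2 : t ≠ w.2 := by rintro rfl; rw [ray_D_right] at hD; exact lt_irrefl _ hD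
  set g0 := F f P Q (xw f P Q w.1 w.2 y0) y0 t - F f P Q (xw f P Q w.1 w.2 y0) y0 w.1 with hg0
  obtain ⟨y, hy, hlt⟩ := not_bddAbove_iff.1 hb (y0 + (P w.1 - P w.2) * g0 / (-D P Q w.1 w.2 t))
  have h3 := ray_gap f P Q w.1 w.2 t hP y y0
  have h4 := hy t ht h1 h2
  have h5 : (P w.1 - P w.2) * g0 < (y - y0) * (-D P Q w.1 w.2 t) := by
    rw [← div_lt_iff₀ (by linarith)]
    linarith
  have h6 : 0 < (P w.1 - P w.2) *
      (F f P Q (xw f P Q w.1 w.2 y) y t - F f P Q (xw f P Q w.1 w.2 y) y w.1) :=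
    mul_pos (by linarith) (by linarith)
  rw [← hg0] at h3
  linarith

theorem ray_down (w : α × α) (hw : w ∈ W U f P Q) (hb : ¬ BddBelow (act U f P Q w)) (t : α)
    (ht : t ∈ U) : D P Q w.1 w.2 t ≤ 0 := by
  obtain ⟨-, hP, y0, hy0⟩ := (ray_mem_W U f P Q w).1 hw
  by_contra hD
  push Not at hD
  have h1 : t ≠ w.1 := by rintro rfl; rw [ray_D_left] at hD; exact lt_irrefl _ hD
  have h2 : t ≠ w.2 := by rintro rfl; rw [ray_D_right] at hD; exact lt_irrefl _ hD
  set g0 := F f P Q (xw f P Q w.1 w.2 y0) y0 t - F f P Q (xw f P Q w.1 w.2 y0) y0 w.1 with hg0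
  obtain ⟨y, hy, hlt⟩ := not_bddBelow_iff.1 hb (y0 - (P w.1 - P w.2) * g0 / D P Q w.1 w.2 t)
  have h3 := ray_gap f P Q w.1 w.2 t hP y y0
  have h4 := hy t ht h1 h2
  have h5 : (P w.1 - P w.2) * g0 < (y0 - y) * D P Q w.1 w.2 t := by
    rw [← div_lt_iff₀ hD]
    linarith
  have h6 : 0 < (P w.1 - P w.2) *
      (F f P Q (xw f P Q w.1 w.2 y) y t - F f P Q (xw f P Q w.1 w.2 y) y w.1) :=
    mul_pos (by linarith) (by linarith)
  rw [← hg0] at h3
  linarith

lemma ray_mem_opt (v : ℝ × ℝ) (s : α) : s ∈ opt U f P Q v ↔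
    s ∈ U ∧ ∀ t ∈ U, F f P Q v.1 v.2 s ≤ F f P Q v.1 v.2 t := by
  simp [opt, mem_filter]

theorem act_opt (w : α × α) (hw : w ∈ W U f P Q) :
    ∃ v : ℝ × ℝ, opt U f P Q v = {w.1, w.2} := by
  obtain ⟨⟨hs, hs'⟩, hP, y, hy⟩ := (ray_mem_W U f P Q w).1 hw
  have he := ray_eq f P Q w.1 w.2 hP y
  refine ⟨(xw f P Q w.1 w.2 y, y), ?_⟩
  have hmin : ∀ t ∈ U, F f P Q (xw f P Q w.1 w.2 y) y w.1 ≤ F f P Q (xw f P Q w.1 w.2 y) y t := by
    intro t ht
    by_cases h1 : t = w.1
    · rw [h1]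
    by_cases h2 : t = w.2
    · rw [h2]; exact he.le
    exact (hy t ht h1 h2).le
  ext t
  rw [ray_mem_opt, mem_insert, mem_singleton]
  constructor
  · rintro ⟨ht, hle⟩
    by_contra hne
    push Not at hne
    exact absurd (hle w.1 hs) (not_le.2 (hy t ht hne.1 hne.2))
  · rintro (rfl | rfl)
    · exact ⟨hs, hmin⟩
    · exact ⟨hs', fun t ht => he.symm.le.trans (hmin t ht)⟩

theorem opt_act (s s' : α) (hP : P s' < P s) (v : ℝ × ℝ) (h : opt U f P Q v = {s, s'}) :
    (s, s') ∈ W U f P Q := by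
  have hs : s ∈ opt U f P Q v := by rw [h]; simp
  have hs' : s' ∈ opt U f P Q v := by rw [h]; simp
  rw [ray_mem_opt] at hs hs'
  have he : F f P Q v.1 v.2 s = F f P Q v.1 v.2 s' := le_antisymm (hs.2 s' hs'.1) (hs'.2 s hs.1)
  have hx := ray_xw f P Q s s' hP v.1 v.2 he
  rw [ray_mem_W]
  refine ⟨⟨hs.1, hs'.1⟩, hP, v.2, ?_⟩
  intro t ht h1 h2
  simp only at h1 h2 ⊢
  rw [← hx]
  refine lt_of_le_of_ne (hs.2 t ht) fun heq => ?_
  have : t ∈ opt U f P Q v := by
    rw [ray_mem_opt]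
    exact ⟨ht, fun r hr => heq ▸ hs.2 r hr⟩
  rw [h, mem_insert, mem_singleton] at this
  rcases this with rfl | rfl
  · exact h1 rfl
  · exact h2 rfl

lemma ray_act_open (w : α × α) : IsOpen (act U f P Q w) := by
  have h : act U f P Q w = ⋂ t ∈ U, {y | t ≠ w.1 → t ≠ w.2 →
      F f P Q (xw f P Q w.1 w.2 y) y w.1 < F f P Q (xw f P Q w.1 w.2 y) y t} := by
    ext y
    simp [act]
  rw [h]
  refine isOpen_biInter_finset fun t _ => ?_
  by_cases h1 : t = w.1
  · simp [h1]
  by_cases h2 : t = w.2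
  · simp [h2]
  simp only [ne_eq, h1, h2, not_false_eq_true, forall_const]
  refine isOpen_lt ?_ ?_
  · simp only [F, xw]; fun_prop
  · simp only [F, xw]; fun_prop

theorem lt_of_stop (w : α × α) (hw : w ∈ Wa U f P Q) (hb : BddBelow (act U f P Q w)) :
    sInf (act U f P Q w) < sSup (act U f P Q w) := by
  classical
  have hw' : w ∈ W U f P Q ∧ BddAbove (act U f P Q w) := by
    simpa [Wa, mem_filter] using hw
  obtain ⟨-, -, y, hy⟩ := (ray_mem_W U f P Q w).1 hw'.1
  obtain ⟨ε, hε, hball⟩ := Metric.isOpen_iff.1 (ray_act_open U f P Q w) y hy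
  have h1 : y + ε / 2 ∈ act U f P Q w := by
    apply hball
    rw [Metric.mem_ball, Real.dist_eq]
    simp only [add_sub_cancel_left]
    rw [abs_of_pos (by linarith)]
    linarith
  have h2 := csInf_le hb hy
  have h3 := le_csSup hw'.2 h1
  linarith

end Pool.Agent.H36.CV
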