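import Pool.Agent.H36.CV.Defs

/-!
# CV-STOP: highest points of walls

Mirror image (y -> -y) of CV-START; either repeat that proof with the signs changed, or reduce to it
by `Q := -Q`: `F f P (-Q) x (-y) s = F f P Q x y s`, `xw f P (-Q) s s' (-y) = xw f P Q s s' y`,
`D P (-Q) s s' t = - D P Q s s' t`, `act U f P (-Q) w = - act U f P Q w`, `sInf (-A) = - sSup A`.
(If you reduce: import Pool.Agent.H36.CV.Start, whose two theorems are another job.)

Direct proof. For a pair `w = (s, s')` with `P s' < P s`, at height `y` the abscissa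
`X y := xw f P Q s s' y` is the only `x` with `F x y s = F x y s'`. For `t ∈ U` put
`gap t y := F (X y) y t - F (X y) y s`.  Then
  (A)  `(P s - P s') * (gap t y - gap t y0) = (y - y0) * D P Q s s' t`   (field_simp; ring).
`stop_upp`: `y0 := sSup (act w)`; all `gap t y0 ≥ 0`; if all were `> 0` (t ≠ s, s') the set `act w`
would contain points above `y0`. So some `t` has `gap t y0 = 0`; for such `t`, `gap t y1 > 0` at some
`y1 ∈ act w`, `y1 < y0`, gives `D < 0`.
`upp_wa`: for `t ∈ opt v`, `t ≠ s, s'`, (A) gives `gap t y > 0` for `y < y0` and `< 0` for `y > y0`;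
for `t ∉ opt v` `gap t y0 > 0`; so `(y0 - δ, y0) ⊆ act w`, and `y ∈ act w → y < y0`.

Also two statements on rays and one on exactness (same tools):
`ray_up`: `act w` not bounded above, `y1 ∈ act w`, `t ∈ U`: if `D P Q s s' t < 0` then by (A)
`gap t y < 0` for all large `y`, but there are arbitrarily large `y ∈ act w` with `gap t y > 0`
(for `t = s, s'` the claim is `0 ≤ 0`: `D P Q s s' s = 0`, `D P Q s s' s' = 0` by ring).
`act_opt`: for `y ∈ act w`, `w ∈ W`: `opt (X y, y) = {s, s'}`.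
-/

set_option autoImplicit false

open Finset

namespace Pool.Agent.H36.CV

variable {α : Type*} [DecidableEq α] (U : Finset α) (f P Q : α → ℝ)

/-- The gap of `t` at height `y`. -/
private noncomputable def stopGap (f P Q : α → ℝ) (s s' t : α) (y : ℝ) : ℝ :=
  F f P Q (xw f P Q s s' y) y t - F f P Q (xw f P Q s s' y) y s

variable {U f P Q}

omit [DecidableEq α] in
private lemma stop_xw_eq {s s' : α} (h : P s' < P s) (y : ℝ) :
    F f P Q (xw f P Q s s' y) y s = F f P Q (xw f P Q s s' y) y s' := by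
  have hc : P s - P s' ≠ 0 := (sub_pos.2 h).ne'
  simp only [F, xw]
  field_simp
  ring

omit [DecidableEq α] in
private lemma stop_xw_unique {s s' : α} (h : P s' < P s) {x y : ℝ}
    (he : F f P Q x y s = F f P Q x y s') : x = xw f P Q s s' y := by
  have hc : P s - P s' ≠ 0 := (sub_pos.2 h).ne'
  rw [xw, eq_div_iff hc]
  simp only [F] at he
  linarith

omit [DecidableEq α] in
private lemma stopGap_diff {s s' : α} (h : P s' < P s) (t : α) (y y0 : ℝ) :
    (P s - P s') * (stopGap f P Q s s' t y - stopGap f P Q s s' t y0) =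
      (y - y0) * D P Q s s' t := by
  have hc : P s - P s' ≠ 0 := (sub_pos.2 h).ne'
  simp only [stopGap, F, xw, D]
  field_simp
  ring

omit [DecidableEq α] in
private lemma stopGap_cont (s s' t : α) : Continuous (stopGap f P Q s s' t) := by
  unfold stopGap F xw
  fun_prop

private lemma stop_mem_act {w : α × α} {y : ℝ} : y ∈ act U f P Q w ↔
    ∀ t ∈ U, t ≠ w.1 → t ≠ w.2 → 0 < stopGap f P Q w.1 w.2 t y := by
  constructor
  · intro h t ht h1 h2
    exact sub_pos.2 (h t ht h1 h2)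
  · intro h t ht h1 h2
    exact sub_pos.1 (h t ht h1 h2)

private lemma stop_mem_opt {v : ℝ × ℝ} {t : α} : t ∈ opt U f P Q v ↔
    t ∈ U ∧ ∀ u ∈ U, F f P Q v.1 v.2 t ≤ F f P Q v.1 v.2 u := by
  unfold opt
  rw [Finset.mem_filter]

private lemma stop_mem_Wa {w : α × α} : w ∈ Wa U f P Q ↔ (w.1 ∈ U ∧ w.2 ∈ U) ∧
    (P w.2 < P w.1 ∧ (act U f P Q w).Nonempty) ∧ BddAbove (act U f P Q w) := by
  classical
  unfold Wa W
  rw [Finset.mem_filter, Finset.mem_filter, Finset.mem_product]
  tauto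

private lemma stop_mem_Upp {v : ℝ × ℝ} {w : α × α} : w ∈ Upp U f P Q v ↔
    (w.1 ∈ opt U f P Q v ∧ w.2 ∈ opt U f P Q v) ∧ P w.2 < P w.1 ∧
    (∃ t ∈ opt U f P Q v, t ≠ w.1 ∧ t ≠ w.2) ∧
    ∀ t ∈ opt U f P Q v, t ≠ w.1 → t ≠ w.2 → D P Q w.1 w.2 t < 0 := by
  unfold Upp
  rw [Finset.mem_filter, Finset.mem_product]

variable (U f P Q)

theorem stop_upp (w : α × α) (hw : w ∈ Wa U f P Q) : w ∈ Upp U f P Q (stop U f P Q w) := by
  obtain ⟨⟨hs, hs'⟩, ⟨hP, hne⟩, hbd⟩ := stop_mem_Wa.1 hw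
  have hc : 0 < P w.1 - P w.2 := sub_pos.2 hP
  set y0 := sSup (act U f P Q w) with hy0
  have hstop : stop U f P Q w = (xw f P Q w.1 w.2 y0, y0) := rfl
  -- the gaps are nonnegative
  have h1 : ∀ t ∈ U, t ≠ w.1 → t ≠ w.2 → 0 ≤ stopGap f P Q w.1 w.2 t y0 := by
    intro t ht ht1 ht2
    by_contra hneg
    rw [not_le] at hneg
    have hev : ∀ᶠ y in nhds y0, stopGap f P Q w.1 w.2 t y < 0 :=
      (stopGap_cont w.1 w.2 t).continuousAt.eventually_lt continuousAt_const hneg
    obtain ⟨ε, hε, hball⟩ := Metric.eventually_nhds_iff.1 hev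
    obtain ⟨y, hy, hy2⟩ := exists_lt_of_lt_csSup hne (show y0 - ε < sSup (act U f P Q w) by
      rw [← hy0]; linarith)
    have hy3 : y ≤ y0 := le_csSup hbd hy
    have h2 := hball (show dist y y0 < ε by
      rw [Real.dist_eq, abs_lt]
      constructor <;> linarith)
    have h3 := stop_mem_act.1 hy t ht ht1 ht2
    linarith
  have hF : ∀ u ∈ U, F f P Q (xw f P Q w.1 w.2 y0) y0 w.1 ≤
      F f P Q (xw f P Q w.1 w.2 y0) y0 u := by
    intro u hu
    by_cases hu1 : u = w.1
    · rw [hu1]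
    · by_cases hu2 : u = w.2
      · rw [hu2, stop_xw_eq hP]
      · exact sub_nonneg.1 (h1 u hu hu1 hu2)
  have ho1 : w.1 ∈ opt U f P Q (stop U f P Q w) := by
    rw [hstop, stop_mem_opt]
    exact ⟨hs, hF⟩
  have ho2 : w.2 ∈ opt U f P Q (stop U f P Q w) := by
    rw [hstop, stop_mem_opt]
    refine ⟨hs', fun u hu => ?_⟩
    have h2 := hF u hu
    rw [stop_xw_eq hP] at h2
    exact h2
  rw [stop_mem_Upp]
  refine ⟨⟨ho1, ho2⟩, hP, ?_, ?_⟩
  · by_contra hcon
    push Not at hcon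
    have hpos : ∀ t ∈ U, t ≠ w.1 → t ≠ w.2 → 0 < stopGap f P Q w.1 w.2 t y0 := by
      intro t ht ht1 ht2
      refine lt_of_le_of_ne (h1 t ht ht1 ht2) fun h0 => ?_
      refine ht2 (hcon t ?_ ht1)
      rw [hstop, stop_mem_opt]
      refine ⟨ht, fun u hu => ?_⟩
      have h2 := hF u hu
      have h3 : F f P Q (xw f P Q w.1 w.2 y0) y0 t - F f P Q (xw f P Q w.1 w.2 y0) y0 w.1 = 0 :=
        h0.symm
      show F f P Q (xw f P Q w.1 w.2 y0) y0 t ≤ F f P Q (xw f P Q w.1 w.2 y0) y0 u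
      linarith
    have hev : ∀ᶠ y in nhds y0, y ∈ act U f P Q w := by
      have h2 : ∀ᶠ y in nhds y0, ∀ t ∈ U, (t ≠ w.1 → t ≠ w.2 →
          0 < stopGap f P Q w.1 w.2 t y) := by
        rw [Filter.eventually_all_finset]
        intro t ht
        by_cases ht1 : t = w.1
        · exact Filter.Eventually.of_forall fun y h => absurd ht1 h
        · by_cases ht2 : t = w.2
          · exact Filter.Eventually.of_forall fun y _ h => absurd ht2 h
          · have h3 : ∀ᶠ y in nhds y0, 0 < stopGap f P Q w.1 w.2 t y :=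
              continuousAt_const.eventually_lt (stopGap_cont w.1 w.2 t).continuousAt
                (hpos t ht ht1 ht2)
            exact h3.mono fun y hy _ _ => hy
      exact h2.mono fun y hy => stop_mem_act.2 hy
    obtain ⟨ε, hε, hball⟩ := Metric.eventually_nhds_iff.1 hev
    have h2 : y0 + ε / 2 ∈ act U f P Q w := hball (by
      rw [Real.dist_eq, abs_lt]
      constructor <;> linarith)
    have h3 := le_csSup hbd h2
    rw [← hy0] at h3
    linarith
  · intro t ht ht1 ht2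
    rw [hstop, stop_mem_opt] at ht
    obtain ⟨htU, htmin⟩ := ht
    obtain ⟨y1, hy1⟩ := hne
    have h2 : stopGap f P Q w.1 w.2 t y0 = 0 := by
      have h3 := htmin w.1 hs
      have h4 := hF t htU
      simp only at h3
      rw [stopGap]
      linarith
    have h3 := stop_mem_act.1 hy1 t htU ht1 ht2
    have h4 := stopGap_diff hP t y1 y0 (f := f) (Q := Q)
    rw [h2, sub_zero] at h4
    have h5 := mul_pos hc h3
    rw [h4] at h5
    have h6 : y1 ≤ y0 := le_csSup hbd hy1
    by_contra hD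
    rw [not_lt] at hD
    have h7 := mul_nonneg (sub_nonneg.2 h6) hD
    have h8 : (y0 - y1) * D P Q w.1 w.2 t = -((y1 - y0) * D P Q w.1 w.2 t) := by ring
    linarith

theorem upp_wa (v : ℝ × ℝ) (w : α × α) (hw : w ∈ Upp U f P Q v) :
    w ∈ Wa U f P Q ∧ stop U f P Q w = v := by
  obtain ⟨⟨ho1, ho2⟩, hP, ⟨t0, ht0, ht01, ht02⟩, hD⟩ := stop_mem_Upp.1 hw
  have hc : 0 < P w.1 - P w.2 := sub_pos.2 hP
  obtain ⟨hs, hmin1⟩ := stop_mem_opt.1 ho1
  obtain ⟨hs', hmin2⟩ := stop_mem_opt.1 ho2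
  have hx : v.1 = xw f P Q w.1 w.2 v.2 :=
    stop_xw_unique hP (le_antisymm (hmin1 _ hs') (hmin2 _ hs))
  have hgap0 : ∀ t ∈ opt U f P Q v, stopGap f P Q w.1 w.2 t v.2 = 0 := by
    intro t ht
    obtain ⟨htU, htmin⟩ := stop_mem_opt.1 ht
    have h1 := htmin w.1 hs
    have h2 := hmin1 t htU
    rw [stopGap, ← hx]
    linarith
  have hgap1 : ∀ t ∈ U, t ∉ opt U f P Q v → 0 < stopGap f P Q w.1 w.2 t v.2 := by
    intro t htU ht
    rw [stopGap, ← hx]
    by_contra hcon
    refine ht (stop_mem_opt.2 ⟨htU, fun u hu => ?_⟩)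
    have h1 := hmin1 u hu
    linarith
  have hup : ∀ y ∈ act U f P Q w, y < v.2 := by
    intro y hy
    by_contra hcon
    rw [not_lt] at hcon
    have h1 := stop_mem_act.1 hy t0 (stop_mem_opt.1 ht0).1 ht01 ht02
    have h2 := stopGap_diff hP t0 y v.2 (f := f) (Q := Q)
    rw [hgap0 t0 ht0, sub_zero] at h2
    have h3 := mul_pos hc h1
    have h4 := mul_nonneg (sub_nonneg.2 hcon) (neg_nonneg.2 (hD t0 ht0 ht01 ht02).le)
    have h5 : (y - v.2) * -D P Q w.1 w.2 t0 = -((y - v.2) * D P Q w.1 w.2 t0) := by ring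
    linarith
  have hev : ∀ᶠ y in nhds v.2, y < v.2 → y ∈ act U f P Q w := by
    have h2 : ∀ᶠ y in nhds v.2, ∀ t ∈ U, (y < v.2 → t ≠ w.1 → t ≠ w.2 →
        0 < stopGap f P Q w.1 w.2 t y) := by
      rw [Filter.eventually_all_finset]
      intro t ht
      by_cases hto : t ∈ opt U f P Q v
      · refine Filter.Eventually.of_forall fun y hy ht1 ht2 => ?_
        have h3 := stopGap_diff hP t y v.2 (f := f) (Q := Q)
        rw [hgap0 t hto, sub_zero] at h3
        have h4 := mul_pos_of_neg_of_neg (sub_neg.2 hy) (hD t hto ht1 ht2)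
        rw [← h3] at h4
        exact (mul_pos_iff_of_pos_left hc).1 h4
      · have h3 : ∀ᶠ y in nhds v.2, 0 < stopGap f P Q w.1 w.2 t y :=
          continuousAt_const.eventually_lt (stopGap_cont w.1 w.2 t).continuousAt
            (hgap1 t ht hto)
        exact h3.mono fun y hy _ _ _ => hy
    exact h2.mono fun y hy hlt => stop_mem_act.2 fun t ht => hy t ht hlt
  obtain ⟨ε, hε, hball⟩ := Metric.eventually_nhds_iff.1 hev
  have hmem : ∀ y, v.2 - ε < y → y < v.2 → y ∈ act U f P Q w := by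
    intro y h1 h2
    refine hball ?_ h2
    rw [Real.dist_eq, abs_lt]
    constructor <;> linarith
  have hne : (act U f P Q w).Nonempty := ⟨v.2 - ε / 2, hmem _ (by linarith) (by linarith)⟩
  have hbd : BddAbove (act U f P Q w) := ⟨v.2, fun y hy => (hup y hy).le⟩
  have hsup : sSup (act U f P Q w) = v.2 := by
    refine csSup_eq_of_forall_le_of_forall_lt_exists_gt hne (fun y hy => (hup y hy).le) ?_
    intro b hb
    refine ⟨max (v.2 - ε / 2) ((b + v.2) / 2), hmem _ ?_ ?_, ?_⟩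
    · exact lt_of_lt_of_le (by linarith) (le_max_left _ _)
    · exact max_lt (by linarith) (by linarith)
    · exact lt_of_lt_of_le (by linarith) (le_max_right _ _)
  refine ⟨stop_mem_Wa.2 ⟨⟨hs, hs'⟩, ⟨hP, hne⟩, hbd⟩, ?_⟩
  show (xw f P Q w.1 w.2 (sSup (act U f P Q w)), sSup (act U f P Q w)) = v
  rw [hsup, ← hx]

end Pool.Agent.H36.CV
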