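import Pool.Agent.H36.CV.Start
import Pool.Agent.H36.CV.Stop
import Pool.Agent.H36.CV.Ray

/-!
# CV-COUNT: the double count

`Om : α → α → ℤ` arbitrary. Every `v` at which a wall starts or ends is either a tripod
(`Σ_{Low v} Om - Σ_{Upp v} Om ≤ -1`, at most two walls start) or a crossing
(`Σ_{Low v} Om - Σ_{Upp v} Om ≤ 0`, every wall starting at `v` continues a wall with the same key
ending at `v`). The walls without lowest / highest point number at most `N` together, and
`|Om w| ≤ c` on them. Then the number of keys is at most `N + 2 c N`.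

Proof. `V := image start Wb ∪ image stop Wa` (Finset in ℝ × ℝ). By `start_low`, `low_wb`:
`Wb.filter (start = v) = Low v`; similarly `Wa.filter (stop = v) = Upp v`. For `v ∈ V` one of
`Low v`, `Upp v` is nonempty, so `opt v` has at least 3 elements and `hloc` applies.
`Finset.sum_fiberwise_of_maps_to`:
  `Σ_{Wb} Om = Σ_{v ∈ V} Σ_{Low v} Om`, `Σ_{Wa} Om = Σ_{v ∈ V} Σ_{Upp v} Om`.
Let `τ` = number of `v ∈ V` of tripod kind (say: those for which the first alternative of `hloc`
holds). Then `Σ_{Wb} Om - Σ_{Wa} Om ≤ -τ`. On the other hand `Wb, Wa ⊆ W` and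
`Σ_{Wb} Om - Σ_{Wa} Om = Σ_{W \ Wa} Om - Σ_{W \ Wb} Om ≥ - c * (|W \ Wa| + |W \ Wb|) ≥ - c N`.
So `τ ≤ c N`.
Keys: claim `image key W ⊆ image key (W \ Wb) ∪ image key (⋃_{v tripod} Low v)`. Let `κ = key w`,
`w ∈ W`. If some `w' ∈ W` with key `κ` is in `W \ Wb` we are done. Otherwise all walls with key `κ`
are in `Wb`; choose one, `w`, with `sInf (act w)` minimal (`Finset.exists_min_image`). Let
`v = start w`. If `v` is a crossing then there is `w' ∈ Upp v` with key `κ`; `w' ∈ Wa`,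
`stop w' = v` (`upp_wa`), in particular `sSup (act w') = v.2 = sInf (act w)`; `w' ∈ W` has key `κ`,
so it is in `Wb`, and `lt_of_stop` gives `sInf (act w') < sInf (act w)`, contradiction. So `v` is a
tripod and `w ∈ Low v`.
Hence `|image key W| ≤ |W \ Wb| + 2 τ ≤ N + 2 c N`.
-/

set_option autoImplicit false

open Finset

namespace Pool.Agent.H36.CV

variable {α : Type*} [DecidableEq α] (U : Finset α) (f P Q : α → ℝ)

theorem count_keys {κ : Type*} [DecidableEq κ] (key : α × α → κ) (Om : α → α → ℤ) (N c : ℕ)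
    (hloc : ∀ v : ℝ × ℝ, 3 ≤ (opt U f P Q v).card →
      ((∑ w ∈ Low U f P Q v, Om w.1 w.2) - (∑ w ∈ Upp U f P Q v, Om w.1 w.2) ≤ -1 ∧
        (Low U f P Q v).card ≤ 2) ∨
      ((∑ w ∈ Low U f P Q v, Om w.1 w.2) - (∑ w ∈ Upp U f P Q v, Om w.1 w.2) ≤ 0 ∧
        ∀ w ∈ Low U f P Q v, ∃ w' ∈ Upp U f P Q v, key w' = key w))
    (hOm : ∀ w ∈ W U f P Q, |Om w.1 w.2| ≤ c)
    (hN : (W U f P Q \ Wa U f P Q).card + (W U f P Q \ Wb U f P Q).card ≤ N) :
    ((W U f P Q).image key).card ≤ N + 2 * (c * N) := by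
  classical
  have hWb : Wb U f P Q ⊆ W U f P Q := by
    intro w hw
    rw [Wb, mem_filter] at hw
    exact hw.1
  have hWa : Wa U f P Q ⊆ W U f P Q := by
    intro w hw
    rw [Wa, mem_filter] at hw
    exact hw.1
  have hLow : ∀ v, Low U f P Q v = (Wb U f P Q).filter (fun w => start U f P Q w = v) := by
    intro v
    ext w
    rw [mem_filter]
    constructor
    · intro h
      exact low_wb U f P Q v w h
    · rintro ⟨h1, h2⟩
      have := start_low U f P Q w h1
      rwa [h2] at this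
  have hUpp : ∀ v, Upp U f P Q v = (Wa U f P Q).filter (fun w => stop U f P Q w = v) := by
    intro v
    ext w
    rw [mem_filter]
    constructor
    · intro h
      exact upp_wa U f P Q v w h
    · rintro ⟨h1, h2⟩
      have := stop_upp U f P Q w h1
      rwa [h2] at this
  have h3L : ∀ v w, w ∈ Low U f P Q v → 3 ≤ (opt U f P Q v).card := by
    intro v w hw
    rw [Low, mem_filter, mem_product] at hw
    obtain ⟨⟨ha, hb⟩, hP, ⟨t, ht, ht1, ht2⟩, -⟩ := hw
    have h12 : w.1 ≠ w.2 := by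
      intro h
      rw [h] at hP
      exact lt_irrefl _ hP
    exact two_lt_card.mpr ⟨w.1, ha, w.2, hb, t, ht, h12, ht1.symm, ht2.symm⟩
  have h3U : ∀ v w, w ∈ Upp U f P Q v → 3 ≤ (opt U f P Q v).card := by
    intro v w hw
    rw [Upp, mem_filter, mem_product] at hw
    obtain ⟨⟨ha, hb⟩, hP, ⟨t, ht, ht1, ht2⟩, -⟩ := hw
    have h12 : w.1 ≠ w.2 := by
      intro h
      rw [h] at hP
      exact lt_irrefl _ hP
    exact two_lt_card.mpr ⟨w.1, ha, w.2, hb, t, ht, h12, ht1.symm, ht2.symm⟩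
  obtain ⟨V, hVdef⟩ : ∃ V : Finset (ℝ × ℝ), V = (Wb U f P Q).image (start U f P Q) ∪
    (Wa U f P Q).image (stop U f P Q) := ⟨_, rfl⟩
  have hV : ∀ v ∈ V, 3 ≤ (opt U f P Q v).card := by
    intro v hv
    rw [hVdef, mem_union, mem_image, mem_image] at hv
    rcases hv with ⟨w, hw, rfl⟩ | ⟨w, hw, rfl⟩
    · exact h3L _ w (start_low U f P Q w hw)
    · exact h3U _ w (stop_upp U f P Q w hw)
  have sb : ∑ w ∈ Wb U f P Q, Om w.1 w.2 = ∑ v ∈ V, ∑ w ∈ Low U f P Q v, Om w.1 w.2 := by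
    simp only [hLow]
    refine (sum_fiberwise_of_maps_to (fun w hw => ?_) _).symm
    rw [hVdef]
    exact mem_union_left _ (mem_image_of_mem _ hw)
  have sa : ∑ w ∈ Wa U f P Q, Om w.1 w.2 = ∑ v ∈ V, ∑ w ∈ Upp U f P Q v, Om w.1 w.2 := by
    simp only [hUpp]
    refine (sum_fiberwise_of_maps_to (fun w hw => ?_) _).symm
    rw [hVdef]
    exact mem_union_right _ (mem_image_of_mem _ hw)
  obtain ⟨T, hTdef⟩ : ∃ T : Finset (ℝ × ℝ), T = V.filter (fun v =>
    (∑ w ∈ Low U f P Q v, Om w.1 w.2) - (∑ w ∈ Upp U f P Q v, Om w.1 w.2) ≤ -1 ∧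
        (Low U f P Q v).card ≤ 2) := ⟨_, rfl⟩
  have h1 : (∑ w ∈ Wb U f P Q, Om w.1 w.2) - (∑ w ∈ Wa U f P Q, Om w.1 w.2) ≤ -(T.card : ℤ) := by
    rw [sb, sa, ← sum_sub_distrib]
    have h : -(T.card : ℤ) = ∑ v ∈ V, (if ((∑ w ∈ Low U f P Q v, Om w.1 w.2) -
        (∑ w ∈ Upp U f P Q v, Om w.1 w.2) ≤ -1 ∧ (Low U f P Q v).card ≤ 2) then (-1 : ℤ) else 0) := by
      rw [hTdef, ← sum_filter, sum_const]
      simp
    rw [h]
    refine sum_le_sum (fun v hv => ?_)
    split_ifs with hif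
    · exact hif.1
    · rcases hloc v (hV v hv) with h' | h'
      · exact absurd h' hif
      · exact h'.1
  have habs : ∀ S : Finset (α × α), S ⊆ W U f P Q →
      |∑ w ∈ S, Om w.1 w.2| ≤ (c : ℤ) * (S.card : ℤ) := by
    intro S hS
    calc |∑ w ∈ S, Om w.1 w.2| ≤ ∑ w ∈ S, |Om w.1 w.2| := abs_sum_le_sum_abs _ _
      _ ≤ ∑ _w ∈ S, (c : ℤ) := sum_le_sum (fun w hw => hOm w (hS hw))
      _ = (c : ℤ) * (S.card : ℤ) := by rw [sum_const, nsmul_eq_mul]; ring
  have hT : T.card ≤ c * N := by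
    have e1 : ∑ w ∈ W U f P Q \ Wb U f P Q, Om w.1 w.2 + ∑ w ∈ Wb U f P Q, Om w.1 w.2 =
        ∑ w ∈ W U f P Q, Om w.1 w.2 := sum_sdiff hWb
    have e2 : ∑ w ∈ W U f P Q \ Wa U f P Q, Om w.1 w.2 + ∑ w ∈ Wa U f P Q, Om w.1 w.2 =
        ∑ w ∈ W U f P Q, Om w.1 w.2 := sum_sdiff hWa
    have b1 := habs (W U f P Q \ Wb U f P Q) sdiff_subset
    have b2 := habs (W U f P Q \ Wa U f P Q) sdiff_subset
    have hN' : ((W U f P Q \ Wa U f P Q).card : ℤ) + ((W U f P Q \ Wb U f P Q).card : ℤ)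
        ≤ (N : ℤ) := by exact_mod_cast hN
    have hmul := mul_le_mul_of_nonneg_left hN' (Int.natCast_nonneg c)
    have b1' := (abs_le.mp b1).2
    have b2' := (abs_le.mp b2).1
    have : (T.card : ℤ) ≤ (c : ℤ) * (N : ℤ) := by linarith
    exact_mod_cast this
  have hkeys : (W U f P Q).image key ⊆ (W U f P Q \ Wb U f P Q).image key ∪
      T.biUnion (fun v => (Low U f P Q v).image key) := by
    intro k hk
    rw [mem_union]
    by_cases hex : k ∈ (W U f P Q \ Wb U f P Q).image key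
    · exact Or.inl hex
    · right
      obtain ⟨w0, hw0, hk0⟩ := mem_image.mp hk
      have hall : ∀ w ∈ W U f P Q, key w = k → w ∈ Wb U f P Q := by
        intro w hw hkw
        by_contra hcon
        exact hex (mem_image.mpr ⟨w, mem_sdiff.mpr ⟨hw, hcon⟩, hkw⟩)
      obtain ⟨w, hw, hmin⟩ := exists_min_image ((W U f P Q).filter (fun w => key w = k))
        (fun w => sInf (act U f P Q w)) ⟨w0, mem_filter.mpr ⟨hw0, hk0⟩⟩
      rw [mem_filter] at hw
      have hwb := hall w hw.1 hw.2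
      have hwL := start_low U f P Q w hwb
      have hvV : start U f P Q w ∈ V := by
        rw [hVdef]
        exact mem_union_left _ (mem_image_of_mem _ hwb)
      rcases hloc _ (h3L _ w hwL) with h' | h'
      · rw [mem_biUnion]
        refine ⟨start U f P Q w, ?_, mem_image.mpr ⟨w, hwL, hw.2⟩⟩
        rw [hTdef, mem_filter]
        exact ⟨hvV, h'⟩
      · exfalso
        obtain ⟨w', hw', hkw'⟩ := h'.2 w hwL
        obtain ⟨hwa', hst⟩ := upp_wa U f P Q _ w' hw'
        have hW' := hWa hwa'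
        have hwb' := hall w' hW' (hkw'.trans hw.2)
        have hbdd : BddBelow (act U f P Q w') := by
          rw [Wb, mem_filter] at hwb'
          exact hwb'.2
        have hlt := lt_of_stop U f P Q w' hwa' hbdd
        have hsnd : sSup (act U f P Q w') = sInf (act U f P Q w) := congrArg Prod.snd hst
        have hle := hmin w' (mem_filter.mpr ⟨hW', hkw'.trans hw.2⟩)
        rw [hsnd] at hlt
        exact absurd hlt (not_lt.mpr hle)
  have hcard2 : (T.biUnion (fun v => (Low U f P Q v).image key)).card ≤ T.card * 2 := by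
    refine card_biUnion_le_card_mul _ _ _ (fun v hv => ?_)
    rw [hTdef, mem_filter] at hv
    exact card_image_le.trans hv.2.2
  calc ((W U f P Q).image key).card
      ≤ ((W U f P Q \ Wb U f P Q).image key ∪
        T.biUnion (fun v => (Low U f P Q v).image key)).card := card_le_card hkeys
    _ ≤ ((W U f P Q \ Wb U f P Q).image key).card +
        (T.biUnion (fun v => (Low U f P Q v).image key)).card := card_union_le _ _
    _ ≤ N + 2 * (c * N) := by
      have h5 : ((W U f P Q \ Wb U f P Q).image key).card ≤ (W U f P Q \ Wb U f P Q).card :=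
        card_image_le
      omega

end Pool.Agent.H36.CV
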