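import Mathlib

/-!
# Planar sections of finite families: definitions

Project MP_bd0985_co (helper36): least-squares matchings under translation, `B` in convex
position.

`U` is a finite set; every `s ∈ U` has a value `f s` and a planar point `(P s, Q s)`; at `t = (x, y)`
the value of `s` is `f s + x * P s + y * Q s`, and `opt` is the set of minimisers.
-/

set_option autoImplicit false

open Finset

namespace Pool.Agent.H36.CV

section Abstract

variable {α : Type*} [DecidableEq α]

/-- The value of `s` at the point `(x, y)`. -/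
def F (f P Q : α → ℝ) (x y : ℝ) (s : α) : ℝ := f s + x * P s + y * Q s

/-- The minimisers at the point `v`. -/
noncomputable def opt (U : Finset α) (f P Q : α → ℝ) (v : ℝ × ℝ) : Finset α := by
  classical exact U.filter (fun s => ∀ t ∈ U, F f P Q v.1 v.2 s ≤ F f P Q v.1 v.2 t)

/-- Minus twice the signed area of the triangle of the planar points of `s, s', t`; positive iff
`t` lies strictly to the right of the directed line from `s` to `s'`. -/
def D (P Q : α → ℝ) (s s' t : α) : ℝ :=
  (Q s' - Q s) * (P t - P s) + (P s - P s') * (Q t - Q s)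

/-- The abscissa of the point at height `y` at which `s` and `s'` have the same value
(used for `P s' < P s`). -/
noncomputable def xw (f P Q : α → ℝ) (s s' : α) (y : ℝ) : ℝ :=
  (f s' - f s + y * (Q s' - Q s)) / (P s - P s')

/-- The heights at which the pair `s, s'` is exactly the set of minimisers. -/
def act (U : Finset α) (f P Q : α → ℝ) (w : α × α) : Set ℝ :=
  {y | ∀ t ∈ U, t ≠ w.1 → t ≠ w.2 →
    F f P Q (xw f P Q w.1 w.2 y) y w.1 < F f P Q (xw f P Q w.1 w.2 y) y t}

/-- The walls: ordered pairs with `P w.2 < P w.1` which are exactly optimal somewhere. -/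
noncomputable def W (U : Finset α) (f P Q : α → ℝ) : Finset (α × α) := by
  classical exact (U ×ˢ U).filter (fun w => P w.2 < P w.1 ∧ (act U f P Q w).Nonempty)

/-- The walls with a lowest point. -/
noncomputable def Wb (U : Finset α) (f P Q : α → ℝ) : Finset (α × α) := by
  classical exact (W U f P Q).filter (fun w => BddBelow (act U f P Q w))

/-- The walls with a highest point. -/
noncomputable def Wa (U : Finset α) (f P Q : α → ℝ) : Finset (α × α) := by
  classical exact (W U f P Q).filter (fun w => BddAbove (act U f P Q w))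

/-- The lowest point of a wall. -/
noncomputable def start (U : Finset α) (f P Q : α → ℝ) (w : α × α) : ℝ × ℝ :=
  (xw f P Q w.1 w.2 (sInf (act U f P Q w)), sInf (act U f P Q w))

/-- The highest point of a wall. -/
noncomputable def stop (U : Finset α) (f P Q : α → ℝ) (w : α × α) : ℝ × ℝ :=
  (xw f P Q w.1 w.2 (sSup (act U f P Q w)), sSup (act U f P Q w))

/-- The walls that start at `v` (see `low_wb`, `start_low`). -/
noncomputable def Low (U : Finset α) (f P Q : α → ℝ) (v : ℝ × ℝ) : Finset (α × α) := by
  classical exact (opt U f P Q v ×ˢ opt U f P Q v).filter (fun w => P w.2 < P w.1 ∧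
    (∃ t ∈ opt U f P Q v, t ≠ w.1 ∧ t ≠ w.2) ∧
    ∀ t ∈ opt U f P Q v, t ≠ w.1 → t ≠ w.2 → 0 < D P Q w.1 w.2 t)

/-- The walls that end at `v`. -/
noncomputable def Upp (U : Finset α) (f P Q : α → ℝ) (v : ℝ × ℝ) : Finset (α × α) := by
  classical exact (opt U f P Q v ×ˢ opt U f P Q v).filter (fun w => P w.2 < P w.1 ∧
    (∃ t ∈ opt U f P Q v, t ≠ w.1 ∧ t ≠ w.2) ∧
    ∀ t ∈ opt U f P Q v, t ≠ w.1 → t ≠ w.2 → D P Q w.1 w.2 t < 0)

/-- The cells: elements that are the unique minimiser somewhere. -/
noncomputable def cells (U : Finset α) (f P Q : α → ℝ) : Finset α := by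
  classical exact U.filter (fun s => ∃ x y : ℝ, ∀ t ∈ U, t ≠ s →
    F f P Q x y s < F f P Q x y t)

end Abstract

section Sets

variable {n : ℕ}

/-- The `m`-subsets of `Fin n`. -/
def U (n m : ℕ) : Finset (Finset (Fin n)) := powersetCard m univ

/-- The exchange `S - i + j`. -/
def sw (S : Finset (Fin n)) (i j : Fin n) : Finset (Fin n) := insert j (S.erase i)

/-- The coordinate sum over a set. -/
def sm (p : Fin n → ℝ) (S : Finset (Fin n)) : ℝ := ∑ i ∈ S, p i

/-- Exchange axiom of valuated matroids (minimum convention) on the `m`-sets. -/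
def VM (m : ℕ) (f : Finset (Fin n) → ℝ) : Prop :=
  ∀ S ∈ U n m, ∀ S' ∈ U n m, ∀ i ∈ S \ S', ∃ j ∈ S' \ S,
    f (sw S i j) + f (sw S' j i) ≤ f S + f S'

/-- The indicator vector of a set. -/
def ind (S : Finset (Fin n)) (l : Fin n) : ℝ := if l ∈ S then 1 else 0

/-- Genericity: if four `m`-sets have equal values at a point, then every linear relation between
the differences of their planar points is a relation between the differences of their indicator
vectors. -/
def Gen (m : ℕ) (f : Finset (Fin n) → ℝ) (p q : Fin n → ℝ) : Prop :=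
  ∀ x y : ℝ, ∀ S0 ∈ U n m, ∀ S1 ∈ U n m, ∀ S2 ∈ U n m, ∀ S3 ∈ U n m,
    F f (sm p) (sm q) x y S1 = F f (sm p) (sm q) x y S0 →
    F f (sm p) (sm q) x y S2 = F f (sm p) (sm q) x y S0 →
    F f (sm p) (sm q) x y S3 = F f (sm p) (sm q) x y S0 →
    ∀ a b c : ℝ,
      a * (sm p S1 - sm p S0) + b * (sm p S2 - sm p S0) + c * (sm p S3 - sm p S0) = 0 →
      a * (sm q S1 - sm q S0) + b * (sm q S2 - sm q S0) + c * (sm q S3 - sm q S0) = 0 →
      ∀ l : Fin n, a * (ind S1 l - ind S0 l) + b * (ind S2 l - ind S0 l)
        + c * (ind S3 l - ind S0 l) = 0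

/-- Twice the signed area of the triangle `i j k`. -/
def det3 (p q : Fin n → ℝ) (i j k : Fin n) : ℝ :=
  (p j - p i) * (q k - q i) - (q j - q i) * (p k - p i)

/-- The points are the vertices of a convex polygon in counterclockwise order. -/
def Cvx (p q : Fin n → ℝ) : Prop := ∀ i j k : Fin n, i < j → j < k → 0 < det3 p q i j k

/-- The sign of `b - a`. -/
def sg (a b : Fin n) : ℤ := if a < b then 1 else if b < a then -1 else 0

/-- The alternating form on sets: sum of `sg a b` over `a ∈ S`, `b ∈ T`. -/
def om (S T : Finset (Fin n)) : ℤ := ∑ a ∈ S, ∑ b ∈ T, sg a b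

/-- The key of a pair: it determines the line on which the two sets have equal value. -/
def key (f : Finset (Fin n) → ℝ) (w : Finset (Fin n) × Finset (Fin n)) :
    Finset (Fin n) × Finset (Fin n) × ℝ :=
  (w.1 \ w.2, w.2 \ w.1, f w.2 - f w.1)

end Sets

end Pool.Agent.H36.CV
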