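import Pool.Agent.H36.CV.Defs

/-!
# CV-LABEL: labelling of a convex polygon

Points in convex position (`ConvexIndependent`) can be labelled in counterclockwise order.

Proof. `n = 0`: trivial. Fix one index `o : ι`. By convex independence `z o` is not in the convex hull
of the other points (a finite, hence compact convex hull), so there is a linear functional
`φ (x, y) = α x + β y` with `φ (z l) > φ (z o)` for all `l ≠ o` (Hahn-Banach,
`geometric_hahn_banach_point_closed` or `..._compact_...`; `(α, β) ≠ 0` if there is another point; if
`ι` has one element the claim is trivial). With `ψ (x, y) = - β x + α y`, `w l = z l - z o`: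
`φ (w j) ψ (w k) - ψ (w j) φ (w k) = (α² + β²) * det (w j) (w k)` (ring). Put
`key l = ψ (w l) / φ (w l)` for `l ≠ o`. For `j, k ≠ o`: `key j < key k` iff `0 < det (w j) (w k)`
`= det3 z o j k`. The keys are different: otherwise `z o, z j, z k` are collinear with `j, k` on the
same side of `o`, so one of `z j, z k` is between `z o` and the other, contradicting convex
independence. Let `key o` be smaller than all others. Let `σ : Fin n ≃ ι` be an enumeration with
`key ∘ σ` strictly increasing (`Tuple.sort`, `Tuple.monotone_sort` after `Fintype.equivFin`, or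
`Finset.orderIsoOfFin` on the image of `key`). Then `σ 0 = o` and for `0 < j < k`:
`det3 0 j k > 0`. For `0 < i < j < k`: `det3 0 i j, det3 0 j k, det3 0 i k > 0`. If `det3 i j k ≤ 0`
then `z j` is in the triangle `z 0, z i, z k`: with `A = det3 0 i k > 0`,
`z j = (det3 j i k / A) z 0 + (det3 0 j k / A) z i + (det3 0 i j / A) z k`, with
`det3 j i k = - det3 i j k ≥ 0`, sum of coefficients `1` (ring identities), contradicting convex
independence. So `Cvx` holds.
-/

set_option autoImplicit false

open Finset

namespace Pool.Agent.H36.CV

/-- Twice the signed area. -/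
def ld (a b c : ℝ × ℝ) : ℝ := (b.1 - a.1) * (c.2 - a.2) - (b.2 - a.2) * (c.1 - a.1)

theorem label_tri {ι : Type*} (z : ι → ℝ × ℝ) (hz : ConvexIndependent ℝ z)
    (x a b c : ι) (l1 l2 l3 : ℝ) (h1 : 0 ≤ l1) (h2 : 0 ≤ l2) (h3 : 0 ≤ l3) (hs : l1 + l2 + l3 = 1)
    (e1 : (z x).1 = l1 * (z a).1 + l2 * (z b).1 + l3 * (z c).1)
    (e2 : (z x).2 = l1 * (z a).2 + l2 * (z b).2 + l3 * (z c).2) : x = a ∨ x = b ∨ x = c := by
  have hconv := convex_convexHull ℝ (z '' {a, b, c})
  have ha : z a ∈ convexHull ℝ (z '' {a, b, c}) :=
    subset_convexHull _ _ ⟨a, by simp, rfl⟩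
  have hb : z b ∈ convexHull ℝ (z '' {a, b, c}) :=
    subset_convexHull _ _ ⟨b, by simp, rfl⟩
  have hc : z c ∈ convexHull ℝ (z '' {a, b, c}) :=
    subset_convexHull _ _ ⟨c, by simp, rfl⟩
  have hx : z x ∈ convexHull ℝ (z '' {a, b, c}) := by
    have hsum := hconv.sum_mem (t := (Finset.univ : Finset (Fin 3))) (w := ![l1, l2, l3])
      (z := ![z a, z b, z c]) (by intro i _; fin_cases i <;> simpa) (by
        simp [Fin.sum_univ_three, hs]) (by intro i _; fin_cases i <;> simpa)
    have e : ∑ i ∈ (Finset.univ : Finset (Fin 3)), (![l1, l2, l3] : Fin 3 → ℝ) i •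
        (![z a, z b, z c] : Fin 3 → ℝ × ℝ) i = z x := by
      rw [Fin.sum_univ_three]
      refine Prod.ext ?_ ?_
      · simp [e1]
      · simp [e2]
    rw [e] at hsum
    exact hsum
  have := hz {a, b, c} x hx
  simpa using this

theorem exists_label {ι : Type*} [Fintype ι] (z : ι → ℝ × ℝ) (hz : ConvexIndependent ℝ z) (n : ℕ)
    (hn : Fintype.card ι = n) :
    ∃ e : Fin n ≃ ι, Cvx (fun i => (z (e i)).1) (fun i => (z (e i)).2) := by
  classical
  subst hn
  by_cases hsmall : Fintype.card ι ≤ 2
  · refine ⟨(Fintype.equivFin ι).symm, ?_⟩
    intro i j k hij hjk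
    exfalso
    have h1 := k.2
    have h2 : (i : ℕ) < j := hij
    have h3 : (j : ℕ) < k := hjk
    omega
  · have hne : Nonempty ι := by
      rw [← Fintype.card_pos_iff]; omega
    obtain ⟨o⟩ := hne
    have hcompact : IsCompact (convexHull ℝ (z '' {o}ᶜ)) :=
      (Set.toFinite (z '' {o}ᶜ)).isCompact_convexHull (𝕜 := ℝ)
    have hnot : z o ∉ convexHull ℝ (z '' {o}ᶜ) := by
      intro h
      exact (hz _ _ h) rfl
    obtain ⟨φ, u, hu1, hu2⟩ := geometric_hahn_banach_point_closed (convex_convexHull ℝ _)
      hcompact.isClosed hnot
    set α := φ (1, 0) with hα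
    set β := φ (0, 1) with hβ
    have hφ : ∀ v : ℝ × ℝ, φ v = α * v.1 + β * v.2 := by
      intro v
      have : v = v.1 • ((1 : ℝ), (0 : ℝ)) + v.2 • ((0 : ℝ), (1 : ℝ)) := by
        refine Prod.ext ?_ ?_ <;> simp
      conv_lhs => rw [this]
      rw [map_add, map_smul, map_smul, ← hα, ← hβ]
      simp only [smul_eq_mul]
      ring
    let A : ι → ℝ := fun l => α * ((z l).1 - (z o).1) + β * ((z l).2 - (z o).2)
    let B : ι → ℝ := fun l => - β * ((z l).1 - (z o).1) + α * ((z l).2 - (z o).2)
    have hA : ∀ l, l ≠ o → 0 < A l := by
      intro l hl
      have h1 : z l ∈ convexHull ℝ (z '' {o}ᶜ) := subset_convexHull _ _ ⟨l, hl, rfl⟩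
      have h2 := hu2 _ h1
      rw [hφ] at h2 hu1
      show 0 < α * ((z l).1 - (z o).1) + β * ((z l).2 - (z o).2)
      linarith
    obtain ⟨l0, hl0⟩ : ∃ l, l ≠ o := by
      by_contra hcon
      push Not at hcon
      have : Fintype.card ι ≤ 1 := Fintype.card_le_one_iff.2 (fun a b => by
        rw [hcon a, hcon b])
      omega
    have hN : 0 < α ^ 2 + β ^ 2 := by
      have h1 := hA l0 hl0
      by_contra hcon
      have h2 : α ^ 2 + β ^ 2 = 0 := le_antisymm (not_lt.1 hcon) (by positivity)
      have h3 : α = 0 := by nlinarith [sq_nonneg α, sq_nonneg β]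
      have h4 : β = 0 := by nlinarith [sq_nonneg α, sq_nonneg β]
      have : A l0 = 0 := by
        show α * ((z l0).1 - (z o).1) + β * ((z l0).2 - (z o).2) = 0
        rw [h3, h4]; ring
      linarith
    have hdet : ∀ j k, A j * B k - B j * A k = (α ^ 2 + β ^ 2) * ld (z o) (z j) (z k) := by
      intro j k
      show (α * ((z j).1 - (z o).1) + β * ((z j).2 - (z o).2)) *
        (- β * ((z k).1 - (z o).1) + α * ((z k).2 - (z o).2)) -
        (- β * ((z j).1 - (z o).1) + α * ((z j).2 - (z o).2)) *
        (α * ((z k).1 - (z o).1) + β * ((z k).2 - (z o).2)) = _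
      unfold ld
      ring
    let key : ι → WithBot ℝ := fun l => if l = o then ⊥ else ((B l / A l : ℝ) : WithBot ℝ)
    have hkey_lt : ∀ j k, j ≠ o → k ≠ o → key j < key k → 0 < ld (z o) (z j) (z k) := by
      intro j k hj hk h
      simp only [key, if_neg hj, if_neg hk] at h
      rw [WithBot.coe_lt_coe, div_lt_div_iff₀ (hA j hj) (hA k hk)] at h
      have h1 := hdet j k
      have h2 : 0 < (α ^ 2 + β ^ 2) * ld (z o) (z j) (z k) := by rw [← h1]; linarith
      exact (pos_iff_pos_of_mul_pos h2).1 hN
    have hinj : Function.Injective key := by
      intro j k h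
      by_contra hjk
      by_cases hj : j = o
      · have hk : k ≠ o := fun h' => hjk (hj.trans h'.symm)
        simp only [key, if_pos hj, if_neg hk] at h
        exact absurd h.symm (WithBot.coe_ne_bot)
      · by_cases hk : k = o
        · simp only [key, if_pos hk, if_neg hj] at h
          exact absurd h (WithBot.coe_ne_bot)
        · simp only [key, if_neg hj, if_neg hk] at h
          rw [WithBot.coe_inj] at h
          have hAj := hA j hj
          have hAk := hA k hk
          have hEq : B j * A k = B k * A j := by
            rw [div_eq_div_iff hAj.ne' hAk.ne'] at h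
            exact h
          -- `w k = c w j`
          have hx : ∀ l, (α ^ 2 + β ^ 2) * ((z l).1 - (z o).1) = α * A l - β * B l := by
            intro l
            show _ = α * (α * ((z l).1 - (z o).1) + β * ((z l).2 - (z o).2)) -
              β * (- β * ((z l).1 - (z o).1) + α * ((z l).2 - (z o).2))
            ring
          have hy : ∀ l, (α ^ 2 + β ^ 2) * ((z l).2 - (z o).2) = β * A l + α * B l := by
            intro l
            show _ = β * (α * ((z l).1 - (z o).1) + β * ((z l).2 - (z o).2)) +
              α * (- β * ((z l).1 - (z o).1) + α * ((z l).2 - (z o).2))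
            ring
          have g1 : A j * ((z k).1 - (z o).1) = A k * ((z j).1 - (z o).1) := by
            have : (α ^ 2 + β ^ 2) * (A j * ((z k).1 - (z o).1)) =
                (α ^ 2 + β ^ 2) * (A k * ((z j).1 - (z o).1)) := by
              calc (α ^ 2 + β ^ 2) * (A j * ((z k).1 - (z o).1))
                  = A j * ((α ^ 2 + β ^ 2) * ((z k).1 - (z o).1)) := by ring
                _ = A j * (α * A k - β * B k) := by rw [hx]
                _ = A k * (α * A j - β * B j) := by linear_combination β * hEq
                _ = A k * ((α ^ 2 + β ^ 2) * ((z j).1 - (z o).1)) := by rw [hx]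
                _ = _ := by ring
            exact mul_left_cancel₀ hN.ne' this
          have g2 : A j * ((z k).2 - (z o).2) = A k * ((z j).2 - (z o).2) := by
            have : (α ^ 2 + β ^ 2) * (A j * ((z k).2 - (z o).2)) =
                (α ^ 2 + β ^ 2) * (A k * ((z j).2 - (z o).2)) := by
              calc (α ^ 2 + β ^ 2) * (A j * ((z k).2 - (z o).2))
                  = A j * ((α ^ 2 + β ^ 2) * ((z k).2 - (z o).2)) := by ring
                _ = A j * (β * A k + α * B k) := by rw [hy]
                _ = A k * (β * A j + α * B j) := by linear_combination (- α) * hEq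
                _ = A k * ((α ^ 2 + β ^ 2) * ((z j).2 - (z o).2)) := by rw [hy]
                _ = _ := by ring
            exact mul_left_cancel₀ hN.ne' this
          rcases le_total (A k) (A j) with hle | hle
          · have hc1 : A k / A j ≤ 1 := (div_le_one hAj).2 hle
            have := label_tri z hz k o j j (1 - A k / A j) (A k / A j) 0 (by linarith)
              (by positivity) le_rfl (by ring)
              (by
                have : (z k).1 - (z o).1 = A k / A j * ((z j).1 - (z o).1) := by
                  field_simp; linarith
                linear_combination this)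
              (by
                have : (z k).2 - (z o).2 = A k / A j * ((z j).2 - (z o).2) := by
                  field_simp; linarith
                linear_combination this)
            rcases this with h | h | h
            · exact hk h
            · exact hjk h.symm
            · exact hjk h.symm
          · have hc1 : A j / A k ≤ 1 := (div_le_one hAk).2 hle
            have := label_tri z hz j o k k (1 - A j / A k) (A j / A k) 0 (by linarith)
              (by positivity) le_rfl (by ring)
              (by
                have : (z j).1 - (z o).1 = A j / A k * ((z k).1 - (z o).1) := by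
                  field_simp; linarith
                linear_combination this)
              (by
                have : (z j).2 - (z o).2 = A j / A k * ((z k).2 - (z o).2) := by
                  field_simp; linarith
                linear_combination this)
            rcases this with h | h | h
            · exact hj h
            · exact hjk h
            · exact hjk h
    let e0 := Fintype.equivFin ι
    let g : Fin (Fintype.card ι) → WithBot ℝ := fun i => key (e0.symm i)
    let e : Fin (Fintype.card ι) ≃ ι := (Tuple.sort g).trans e0.symm
    have hmono : Monotone (fun i => key (e i)) := Tuple.monotone_sort g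
    have hstrict : StrictMono (fun i => key (e i)) :=
      hmono.strictMono_of_injective (hinj.comp e.injective)
    refine ⟨e, ?_⟩
    intro i j k hij hjk
    have kij := hstrict hij
    have kjk := hstrict hjk
    simp only at kij kjk
    have hj : e j ≠ o := by
      intro h
      rw [h] at kij
      simp only [key, if_true] at kij
      exact not_lt_bot kij
    have hk : e k ≠ o := by
      intro h
      rw [h] at kjk
      simp only [key, if_true] at kjk
      exact not_lt_bot kjk
    have hdjk := hkey_lt _ _ hj hk kjk
    show 0 < ld (z (e i)) (z (e j)) (z (e k))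
    by_cases hi : e i = o
    · rw [hi]; exact hdjk
    · have hdij := hkey_lt _ _ hi hj kij
      have hdik := hkey_lt _ _ hi hk (kij.trans kjk)
      by_contra hcon
      have hcon' := not_lt.1 hcon
      have hsum : ld (z o) (z (e i)) (z (e k)) = - ld (z (e i)) (z (e j)) (z (e k)) +
          ld (z o) (z (e j)) (z (e k)) + ld (z o) (z (e i)) (z (e j)) := by
        unfold ld; ring
      have := label_tri z hz (e j) o (e i) (e k)
        (- ld (z (e i)) (z (e j)) (z (e k)) / ld (z o) (z (e i)) (z (e k)))
        (ld (z o) (z (e j)) (z (e k)) / ld (z o) (z (e i)) (z (e k)))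
        (ld (z o) (z (e i)) (z (e j)) / ld (z o) (z (e i)) (z (e k)))
        (div_nonneg (by linarith) hdik.le) (div_nonneg hdjk.le hdik.le)
        (div_nonneg hdij.le hdik.le)
        (by rw [← add_div, ← add_div, ← hsum]; exact div_self hdik.ne')
        (by
          field_simp
          unfold ld
          ring)
        (by
          field_simp
          unfold ld
          ring)
      rcases this with h | h | h
      · exact hj h
      · exact absurd (e.injective h) hij.ne'
      · exact absurd (e.injective h) hjk.ne

end Pool.Agent.H36.CV
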