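import Pool.Agent.H36.CV.Core
import Pool.Agent.H36.CV.Label

/-!
# CV-EXTRA: all but few points in convex position (helper36)

For `E ⊆ R` the function `T ↦ f (T ∪ E)` on the `(m - |E|)`-subsets of the complement of `R` is again
a valuated matroid; a cell `S` of `f` with `S ∩ R = E` gives the cell `S \ R` of this function.
-/

set_option autoImplicit false

open Finset

namespace Pool.Agent.H36.CV

variable {n : ℕ}

theorem bound16 (a b : ℕ) (hab : a ≤ b) (hb : 1 ≤ b) :
    1 + 5 * a + (5 * a).choose 2 ≤ 16 * b ^ 2 := by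
  have h1 : (5 * a).choose 2 ≤ (5 * b).choose 2 := Nat.choose_le_choose 2 (by omega)
  have h2 : 2 * (5 * b).choose 2 ≤ 25 * b ^ 2 - 5 * b := by
    rw [Nat.choose_two_right]
    have : 2 * (5 * b * (5 * b - 1) / 2) ≤ 5 * b * (5 * b - 1) := Nat.mul_div_le _ _
    refine this.trans ?_
    rw [Nat.mul_sub]
    apply le_of_eq
    congr 1
    · ring
    · ring
  have h3 : 25 * b ^ 2 - 5 * b + 5 * b = 25 * b ^ 2 := Nat.sub_add_cancel (by nlinarith)
  nlinarith

theorem cells_extra (m : ℕ) (hm : 1 ≤ m) (hmn : m ≤ n) (f : Finset (Fin n) → ℝ)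
    (z : Fin n → ℝ × ℝ) (hVM : VM m f) (R : Finset (Fin n))
    (hz : ConvexIndependent ℝ (fun i : {i : Fin n // i ∉ R} => z i)) :
    (cells (U n m) f (sm fun i => (z i).1) (sm fun i => (z i).2)).card
      ≤ 2 ^ R.card * (16 * m ^ 2 * n ^ 2) := by
  classical
  set p : Fin n → ℝ := fun i => (z i).1 with hp
  set q : Fin n → ℝ := fun i => (z i).2 with hq
  set n' := Fintype.card {i : Fin n // i ∉ R} with hn'
  obtain ⟨e, he⟩ := exists_label (fun i : {i : Fin n // i ∉ R} => z i) hz n' rfl
  have hn'n : n' ≤ n := by
    have := Fintype.card_subtype_le (fun i : Fin n => i ∉ R)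
    rw [Fintype.card_fin] at this
    exact this
  let emb : Fin n' ↪ Fin n :=
    ⟨fun i => (e i : Fin n), fun i j h => e.injective (Subtype.ext h)⟩
  have hembR : ∀ i, emb i ∉ R := fun i => (e i).2
  have hembsurj : ∀ j : Fin n, j ∉ R → ∃ i, emb i = j := by
    intro j hj
    refine ⟨e.symm ⟨j, hj⟩, ?_⟩
    show ((e (e.symm ⟨j, hj⟩) : {i : Fin n // i ∉ R}) : Fin n) = j
    rw [Equiv.apply_symm_apply]
  let p' : Fin n' → ℝ := fun i => p (emb i)
  let q' : Fin n' → ℝ := fun i => q (emb i)
  have hc : Cvx p' q' := he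
  let g : Finset (Fin n) → Finset (Fin n') → ℝ := fun E T => f (T.map emb ∪ E)
  have hdisj : ∀ (E : Finset (Fin n)), E ⊆ R → ∀ T : Finset (Fin n'), Disjoint (T.map emb) E := by
    intro E hE T
    rw [disjoint_left]
    intro a ha haE
    obtain ⟨i, -, rfl⟩ := mem_map.1 ha
    exact hembR i (hE haE)
  have hmemU : ∀ (E : Finset (Fin n)), E ⊆ R → E.card ≤ m → ∀ T ∈ U n' (m - E.card),
      T.map emb ∪ E ∈ U n m := by
    intro E hE hEm T hT
    unfold U at hT ⊢
    rw [mem_powersetCard] at hT ⊢
    refine ⟨subset_univ _, ?_⟩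
    rw [card_union_of_disjoint (hdisj E hE T), card_map, hT.2]
    omega
  have hsm : ∀ (r : Fin n → ℝ) (E : Finset (Fin n)), E ⊆ R → ∀ T : Finset (Fin n'),
      sm r (T.map emb ∪ E) = sm (fun i => r (emb i)) T + sm r E := by
    intro r E hE T
    unfold sm
    rw [sum_union (hdisj E hE T), sum_map]
  have hVM' : ∀ (E : Finset (Fin n)), E ⊆ R → E.card ≤ m → VM (m - E.card) (g E) := by
    intro E hE hEm T hT T' hT' i hi
    rw [mem_sdiff] at hi
    have hi1 : emb i ∈ (T.map emb ∪ E) \ (T'.map emb ∪ E) := by
      rw [mem_sdiff, mem_union, mem_union, not_or]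
      refine ⟨Or.inl (mem_map_of_mem _ hi.1), ?_, fun h => hembR i (hE h)⟩
      rw [mem_map']
      exact hi.2
    obtain ⟨j, hj, hle⟩ := hVM _ (hmemU E hE hEm T hT) _ (hmemU E hE hEm T' hT') _ hi1
    rw [mem_sdiff, mem_union, mem_union, not_or] at hj
    obtain ⟨hj1 | hj1, hj2, hj3⟩ := hj
    · obtain ⟨j', hj', rfl⟩ := mem_map.1 hj1
      rw [mem_map'] at hj2
      refine ⟨j', mem_sdiff.2 ⟨hj', hj2⟩, ?_⟩
      have hsw : ∀ (T : Finset (Fin n')) (a b : Fin n'),
          sw (T.map emb ∪ E) (emb a) (emb b) = (sw T a b).map emb ∪ E := by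
        intro T a b
        ext x
        simp only [sw, mem_insert, mem_erase, mem_union, map_insert]
        constructor
        · rintro (h | ⟨h1, h2 | h2⟩)
          · exact Or.inl (Or.inl h)
          · left; right
            obtain ⟨y, hy, rfl⟩ := mem_map.1 h2
            refine mem_map_of_mem _ (mem_erase.2 ⟨?_, hy⟩)
            rintro rfl; exact h1 rfl
          · exact Or.inr h2
        · rintro ((h | h) | h)
          · exact Or.inl h
          · right
            obtain ⟨y, hy, rfl⟩ := mem_map.1 h
            rw [mem_erase] at hy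
            exact ⟨fun h' => hy.1 (emb.injective h'), Or.inl (mem_map_of_mem _ hy.2)⟩
          · right
            refine ⟨?_, Or.inr h⟩
            rintro rfl
            exact hembR a (hE h)
      rw [hsw, hsw] at hle
      exact hle
    · exact absurd hj1 hj3
  have hbound : ∀ E ∈ R.powerset,
      (cells (U n' (m - E.card)) (g E) (sm p') (sm q')).card ≤ 16 * m ^ 2 * n ^ 2 := by
    intro E hE
    rw [mem_powerset] at hE
    have hsubU : cells (U n' (m - E.card)) (g E) (sm p') (sm q') ⊆ U n' (m - E.card) := by
      intro s hs; exact ((mem_cells _ _ _ _ _).1 hs).1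
    have hcU : (U n' (m - E.card)).card = n'.choose (m - E.card) := by
      unfold U; rw [card_powersetCard]; simp
    have hbig : 1 ≤ 16 * m ^ 2 * n ^ 2 := by
      have hn : 1 ≤ n := hm.trans hmn
      have : 1 ≤ m ^ 2 := Nat.one_le_pow _ _ hm
      have : 1 ≤ n ^ 2 := Nat.one_le_pow _ _ hn
      nlinarith
    by_cases hEm : E.card ≤ m
    · by_cases hmn' : m - E.card ≤ n'
      · refine (core (m - E.card) hmn' (g E) p' q' (hVM' E hE hEm) hc).trans ?_
        have h1 : (m - E.card) * n' ≤ m * n := Nat.mul_le_mul (Nat.sub_le _ _) hn'n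
        have := bound16 ((m - E.card) * n') (m * n) h1 (Nat.mul_pos hm (hm.trans hmn))
        calc 1 + 5 * (m - E.card) * n' + (5 * (m - E.card) * n').choose 2
            = 1 + 5 * ((m - E.card) * n') + (5 * ((m - E.card) * n')).choose 2 := by
              rw [mul_assoc]
          _ ≤ 16 * (m * n) ^ 2 := this
          _ = 16 * m ^ 2 * n ^ 2 := by ring
      · have h0 := card_le_card hsubU
        rw [hcU, Nat.choose_eq_zero_of_lt (by omega)] at h0
        omega
    · have h0 := card_le_card hsubU
      have : m - E.card = 0 := by omega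
      rw [hcU, this, Nat.choose_zero_right] at h0
      rw [this]
      exact h0.trans hbig
  have hsub : cells (U n m) f (sm p) (sm q) ⊆
      R.powerset.biUnion (fun E =>
        (cells (U n' (m - E.card)) (g E) (sm p') (sm q')).image (fun T => T.map emb ∪ E)) := by
    intro S hS
    rw [mem_cells] at hS
    obtain ⟨hSU, x, y, hxy⟩ := hS
    have hScard : S.card = m := (mem_powersetCard.1 hSU).2
    set E := S ∩ R with hEdef
    have hER : E ⊆ R := inter_subset_right
    have hEm : E.card ≤ m := by rw [← hScard]; exact card_le_card inter_subset_left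
    set T : Finset (Fin n') := univ.filter (fun i => emb i ∈ S) with hT
    have hST : T.map emb ∪ E = S := by
      ext a
      rw [mem_union, mem_map, hEdef, mem_inter]
      constructor
      · rintro (⟨i, hi, rfl⟩ | h)
        · exact (mem_filter.1 hi).2
        · exact h.1
      · intro ha
        by_cases haR : a ∈ R
        · exact Or.inr ⟨ha, haR⟩
        · obtain ⟨i, rfl⟩ := hembsurj a haR
          exact Or.inl ⟨i, mem_filter.2 ⟨mem_univ _, ha⟩, rfl⟩
    have hTcard : T.card = m - E.card := by
      have := congrArg Finset.card hST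
      rw [card_union_of_disjoint (hdisj E hER T), card_map, hScard] at this
      omega
    rw [mem_biUnion]
    refine ⟨E, mem_powerset.2 hER, mem_image.2 ⟨T, ?_, hST⟩⟩
    rw [mem_cells]
    refine ⟨?_, x, y, ?_⟩
    · unfold U; rw [mem_powersetCard]; exact ⟨subset_univ _, hTcard⟩
    · intro T1 hT1 hne
      have hS1 : T1.map emb ∪ E ∈ U n m := hmemU E hER hEm T1 hT1
      have hne1 : T1.map emb ∪ E ≠ S := by
        intro h
        apply hne
        rw [← hST] at h
        have h' : T1.map emb = T.map emb := by
          ext a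
          constructor
          · intro ha
            have hb : a ∈ T.map emb ∪ E := by rw [← h]; exact mem_union_left _ ha
            rcases mem_union.1 hb with h1 | h1
            · exact h1
            · exact absurd h1 (disjoint_left.1 (hdisj E hER T1) ha)
          · intro ha
            have hb : a ∈ T1.map emb ∪ E := by rw [h]; exact mem_union_left _ ha
            rcases mem_union.1 hb with h1 | h1
            · exact h1
            · exact absurd h1 (disjoint_left.1 (hdisj E hER T) ha)
        exact map_injective _ h'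
      have := hxy _ hS1 hne1
      rw [← hST] at this
      unfold F at this ⊢
      rw [hsm p E hER, hsm q E hER, hsm p E hER, hsm q E hER] at this
      show f (T.map emb ∪ E) + x * sm (fun i => p (emb i)) T + y * sm (fun i => q (emb i)) T
        < f (T1.map emb ∪ E) + x * sm (fun i => p (emb i)) T1 + y * sm (fun i => q (emb i)) T1
      linarith
  refine (card_le_card hsub).trans (card_biUnion_le.trans ?_)
  have : ∀ E ∈ R.powerset, ((cells (U n' (m - E.card)) (g E) (sm p') (sm q')).image
      (fun T => T.map emb ∪ E)).card ≤ 16 * m ^ 2 * n ^ 2 :=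
    fun E hE => card_image_le.trans (hbound E hE)
  refine (sum_le_card_nsmul _ _ _ this).trans ?_
  rw [card_powerset, smul_eq_mul]

end Pool.Agent.H36.CV
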