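import Pool.Agent.H36.CV.Assign

/-!
# CV-RED: uniquely optimal matchings inject into the cells (helper36)

`‖a - (b + t)‖² = ‖a - t‖² + (‖b‖² - 2 ⟪a, b⟫) + 2 ⟪t, b⟫`, so the cost of `π` at `t` is a constant plus
`cost u π + 2 t₀ Σ_{j ∈ im π} (b_j)₀ + 2 t₁ Σ_{j ∈ im π} (b_j)₁`, `u a j = ‖b_j‖² - 2 ⟪a_a, b_j⟫`.
The image of a uniquely optimal matching is a cell and determines the matching.
-/

set_option autoImplicit false

open Finset

namespace Pool.Agent.H36.CV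

variable {m n : ℕ}

theorem sq_expand (a b t : EuclideanSpace ℝ (Fin 2)) :
    ‖a - (b + t)‖ ^ 2 = ‖a - t‖ ^ 2 + (‖b‖ ^ 2 - 2 * inner ℝ a b) +
      (2 * t 0) * b 0 + (2 * t 1) * b 1 := by
  simp only [EuclideanSpace.real_norm_sq_eq, Fin.sum_univ_two, PiLp.inner_apply, PiLp.sub_apply,
    PiLp.add_apply, RCLike.inner_apply, conj_trivial]
  ring

theorem sm_map (r : Fin n → ℝ) (π : Fin m ↪ Fin n) : sm r (univ.map π) = ∑ i, r (π i) := by
  unfold sm
  rw [sum_map]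

theorem cost_expand (A : Fin m → EuclideanSpace ℝ (Fin 2)) (B : Fin n → EuclideanSpace ℝ (Fin 2))
    (t : EuclideanSpace ℝ (Fin 2)) (π : Fin m ↪ Fin n) :
    ∑ i, ‖A i - (B (π i) + t)‖ ^ 2 = (∑ i, ‖A i - t‖ ^ 2) +
      (cost (fun a j => ‖B j‖ ^ 2 - 2 * inner ℝ (A a) (B j)) π +
        (2 * t 0) * sm (fun j => B j 0) (univ.map π) +
        (2 * t 1) * sm (fun j => B j 1) (univ.map π)) := by
  rw [sm_map, sm_map]
  unfold cost
  rw [mul_sum, mul_sum, ← sum_add_distrib, ← sum_add_distrib, ← sum_add_distrib]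
  refine sum_congr rfl fun i _ => ?_
  rw [sq_expand]
  ring

theorem sopt_le (A : Fin m → EuclideanSpace ℝ (Fin 2)) (B : Fin n → EuclideanSpace ℝ (Fin 2)) :
    ({π : Fin m ↪ Fin n | ∃ t : EuclideanSpace ℝ (Fin 2), ∀ σ : Fin m ↪ Fin n, σ ≠ π →
        ∑ i, ‖A i - (B (π i) + t)‖ ^ 2 < ∑ i, ‖A i - (B (σ i) + t)‖ ^ 2}
      : Set (Fin m ↪ Fin n)).ncard ≤
    (cells (U n m) (fA fun a j => ‖B j‖ ^ 2 - 2 * inner ℝ (A a) (B j))
      (sm fun j => B j 0) (sm fun j => B j 1)).card := by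
  classical
  rw [← Set.ncard_coe_finset]
  refine Set.ncard_le_ncard_of_injOn (fun π : Fin m ↪ Fin n => univ.map π) ?_ ?_
    (Finset.finite_toSet _)
  · rintro π ⟨t, ht⟩
    simp only [Finset.mem_coe]
    unfold cells
    rw [mem_filter]
    have hmem : univ.map π ∈ U n m := by
      unfold U
      rw [mem_powersetCard]
      exact ⟨subset_univ _, by simp⟩
    refine ⟨hmem, 2 * t 0, 2 * t 1, ?_⟩
    intro T hT hne
    obtain ⟨σ, hσ, hσc⟩ := fA_attained (fun a j => ‖B j‖ ^ 2 - 2 * inner ℝ (A a) (B j)) T hT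
    have hσπ : σ ≠ π := by
      rintro rfl; exact hne hσ.symm
    have h1 := ht σ hσπ
    rw [cost_expand, cost_expand, hσ, hσc] at h1
    have h2 := fA_le (fun a j => ‖B j‖ ^ 2 - 2 * inner ℝ (A a) (B j)) π
    unfold F
    linarith
  · rintro π ⟨t, ht⟩ π' ⟨t', ht'⟩ h
    simp only at h
    by_contra hne
    have h1 := ht π' (Ne.symm hne)
    have h2 := ht' π hne
    rw [cost_expand, cost_expand, h] at h1 h2
    linarith

end Pool.Agent.H36.CV
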