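import Pool.Agent.H36.CV.Extra
import Pool.Agent.H36.CV.Red

/-!
# CV-MAIN (helper36)
-/

set_option autoImplicit false

open Finset

namespace Pool.Agent.H36.CV

/-- The coordinates, as a linear map to `ℝ × ℝ`. -/
noncomputable def toProd : EuclideanSpace ℝ (Fin 2) →ₗ[ℝ] ℝ × ℝ where
  toFun b := (b 0, b 1)
  map_add' a b := by simp
  map_smul' c a := by simp

theorem toProd_injective : Function.Injective toProd := by
  intro a b h
  have h0 : a 0 = b 0 := congrArg Prod.fst (show (a 0, a 1) = (b 0, b 1) from h)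
  have h1 : a 1 = b 1 := congrArg Prod.snd (show (a 0, a 1) = (b 0, b 1) from h)
  ext i
  fin_cases i
  · exact h0
  · exact h1

theorem convexIndependent_toProd {ι : Type*} (B : ι → EuclideanSpace ℝ (Fin 2))
    (h : ConvexIndependent ℝ B) : ConvexIndependent ℝ (fun i => toProd (B i)) := by
  intro s x hx
  apply h s x
  have e : (fun i => toProd (B i)) '' s = toProd '' (B '' s) := by
    rw [Set.image_image]
  rw [e, ← toProd.image_convexHull] at hx
  obtain ⟨y, hy, hyx⟩ := hx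
  rw [← toProd_injective hyx]
  exact hy

theorem main (m n : ℕ) (hm : 1 ≤ m) (hmn : m ≤ n)
    (A : Fin m → EuclideanSpace ℝ (Fin 2)) (B : Fin n → EuclideanSpace ℝ (Fin 2))
    (R : Finset (Fin n)) (hB : ConvexIndependent ℝ (fun i : {i : Fin n // i ∉ R} => B i)) :
    ({π : Fin m ↪ Fin n | ∃ t : EuclideanSpace ℝ (Fin 2), ∀ σ : Fin m ↪ Fin n, σ ≠ π →
        ∑ i, ‖A i - (B (π i) + t)‖ ^ 2 < ∑ i, ‖A i - (B (σ i) + t)‖ ^ 2}
      : Set (Fin m ↪ Fin n)).ncard ≤ 2 ^ R.card * (16 * m ^ 2 * n ^ 2) := by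
  refine (sopt_le A B).trans ?_
  exact cells_extra m hm hmn _ (fun i => toProd (B i)) (fA_VM _) R
    (convexIndependent_toProd _ hB)

end Pool.Agent.H36.CV
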