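import Pool.Agent.H36.CV.Ray

/-!
# CV-SEP: different cells are separated by a wall

`hadj`: at every point `v` the minimisers are connected by walls in the following sense: if
`s ∈ opt v` is not minimal on `opt v` in the direction `(dx, dy)`, then there is `t ∈ opt v` which is
better than `s` in this direction and such that `(s, t)` or `(t, s)` is a wall.

`s, s'` two different cells with witnesses `z, z'` (`F z s < F z t` for `t ≠ s`, ...). Then some wall
`w` has `(F z w.2 - F z w.1) * (F z' w.2 - F z' w.1) < 0`.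

Proof. Let `z_τ = z + τ (z' - z)`, `τ ∈ [0, 1]`. For `t ∈ U` put `g t τ = F z_τ t - F z_τ s`, affine
in `τ`: `g t τ = g t 0 + τ * δ t` with `δ t = dx (P t - P s) + dy (Q t - Q s)`, `(dx, dy) = z' - z`.
`g t 0 > 0` for `t ≠ s`; `g s' 1 < 0`. Let `τ1` be the largest `τ ∈ [0,1]` such that `g t τ' ≥ 0` for
all `t ∈ U`, `τ' ≤ τ`; explicitly `τ1 = min over t ∈ U with δ t < 0 of g t 0 / (- δ t)`
(`Finset.exists_min_image`; `s'` is such a `t` and `g s' 1 < 0` gives `τ1 < 1`; `τ1 > 0` since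
`g t 0 > 0`). At `v = z_{τ1}`: `g t τ1 ≥ 0` for all `t` (for `δ t ≥ 0` clear), so `s ∈ opt v`; the
minimising `t0` has `g t0 τ1 = 0`, so `t0 ∈ opt v`, `δ t0 < 0`: `s` is not minimal in the direction
`(dx, dy)` on `opt v`. By `hadj` there is `t ∈ opt v` with `δ t < 0` and `(s,t)` or `(t,s)` a wall.
`g t τ1 = 0`, `δ t < 0`, `0 < τ1 < 1` give `g t 0 > 0 > g t 1`.
`cells_card`: choose witnesses `z s` for `s ∈ cells`; they are different for different cells; apply
`card_le_of_separated` of CV-SS to `C = cells.image z` and `ι = ↥((W U f P Q).image key)`, where the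
affine function of a key `k = key w` is `F · w.2 - F · w.1` (well defined by `hkey`).
-/

set_option autoImplicit false

open Finset

namespace Pool.Agent.H36.CV

variable {α : Type*} [DecidableEq α] (U : Finset α) (f P Q : α → ℝ)

theorem exists_wall_between
    (hadj : ∀ v : ℝ × ℝ, ∀ dx dy : ℝ, ∀ s ∈ opt U f P Q v, ∀ t ∈ opt U f P Q v,
      dx * P t + dy * Q t < dx * P s + dy * Q s →
      ∃ t' ∈ opt U f P Q v, dx * P t' + dy * Q t' < dx * P s + dy * Q s ∧
        ((s, t') ∈ W U f P Q ∨ (t', s) ∈ W U f P Q))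
    (s s' : α) (hs : s ∈ U) (hs' : s' ∈ U) (hne : s ≠ s') (z z' : ℝ × ℝ)
    (hz : ∀ t ∈ U, t ≠ s → F f P Q z.1 z.2 s < F f P Q z.1 z.2 t)
    (hz' : ∀ t ∈ U, t ≠ s' → F f P Q z'.1 z'.2 s' < F f P Q z'.1 z'.2 t) :
    ∃ w ∈ W U f P Q, (F f P Q z.1 z.2 w.2 - F f P Q z.1 z.2 w.1) *
      (F f P Q z'.1 z'.2 w.2 - F f P Q z'.1 z'.2 w.1) < 0 := by
  classical
  set dx : ℝ := z'.1 - z.1 with hdx
  set dy : ℝ := z'.2 - z.2 with hdy
  set δ : α → ℝ := fun t => dx * (P t - P s) + dy * (Q t - Q s) with hδ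
  set g : α → ℝ := fun t => F f P Q z.1 z.2 t - F f P Q z.1 z.2 s with hg
  have hlin : ∀ t τ, F f P Q (z.1 + τ * dx) (z.2 + τ * dy) t -
      F f P Q (z.1 + τ * dx) (z.2 + τ * dy) s = g t + τ * δ t := by
    intro t τ
    simp only [hg, hδ]
    unfold F
    ring
  have hone : ∀ t, F f P Q z'.1 z'.2 t - F f P Q z'.1 z'.2 s = g t + δ t := by
    intro t
    have := hlin t 1
    rw [hdx, hdy] at this
    rw [show z.1 + 1 * (z'.1 - z.1) = z'.1 by ring, show z.2 + 1 * (z'.2 - z.2) = z'.2 by ring]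
      at this
    rw [this]
    ring
  have hgpos : ∀ t ∈ U, t ≠ s → 0 < g t := by
    intro t ht hts
    have := hz t ht hts
    simp only [hg]
    linarith
  have hgs : g s = 0 := by simp [hg]
  have hδs : δ s = 0 := by simp [hδ]
  have hs1 : g s' + δ s' < 0 := by
    rw [← hone s']
    have := hz' s hs hne
    linarith
  have hs0 : 0 < g s' := hgpos s' hs' hne.symm
  have hδs' : δ s' < 0 := by linarith
  obtain ⟨t0, ht0, hmin⟩ := Finset.exists_min_image (U.filter (fun t => δ t < 0))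
    (fun t => g t / (-δ t)) ⟨s', Finset.mem_filter.2 ⟨hs', hδs'⟩⟩
  rw [Finset.mem_filter] at ht0
  obtain ⟨ht0U, ht0δ⟩ := ht0
  have ht0s : t0 ≠ s := by
    rintro rfl
    rw [hδs] at ht0δ
    exact lt_irrefl _ ht0δ
  set τ : ℝ := g t0 / (-δ t0) with hτ
  have hτpos : 0 < τ := div_pos (hgpos t0 ht0U ht0s) (by linarith)
  have hτle : ∀ t ∈ U, δ t < 0 → τ * (-δ t) ≤ g t := by
    intro t ht htδ
    have h1 := hmin t (Finset.mem_filter.2 ⟨ht, htδ⟩)
    have h2 : τ ≤ g t / (-δ t) := h1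
    rwa [le_div_iff₀ (by linarith)] at h2
  have hτlt : τ < 1 := by
    have h1 := hτle s' hs' hδs'
    by_contra hcon
    have h2 : 1 ≤ τ := not_lt.1 hcon
    have h3 : 1 * (-δ s') ≤ τ * (-δ s') := mul_le_mul_of_nonneg_right h2 (by linarith)
    linarith
  have ht0eq : g t0 + τ * δ t0 = 0 := by
    have h1 : τ * (-δ t0) = g t0 := by
      rw [hτ]
      exact div_mul_cancel₀ _ (by linarith : -δ t0 ≠ 0)
    linarith
  have hnn : ∀ t ∈ U, 0 ≤ g t + τ * δ t := by
    intro t ht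
    by_cases htδ : δ t < 0
    · have := hτle t ht htδ
      linarith
    · have h1 : 0 ≤ δ t := not_lt.1 htδ
      have h2 : 0 ≤ g t := by
        by_cases hts : t = s
        · rw [hts, hgs]
        · exact (hgpos t ht hts).le
      have h3 := mul_nonneg hτpos.le h1
      linarith
  have hmem : ∀ t, t ∈ opt U f P Q (z.1 + τ * dx, z.2 + τ * dy) ↔ t ∈ U ∧ ∀ u ∈ U,
      F f P Q (z.1 + τ * dx) (z.2 + τ * dy) t ≤ F f P Q (z.1 + τ * dx) (z.2 + τ * dy) u := by
    intro t
    unfold opt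
    rw [Finset.mem_filter]
  have hsopt : s ∈ opt U f P Q (z.1 + τ * dx, z.2 + τ * dy) := by
    rw [hmem]
    refine ⟨hs, fun u hu => ?_⟩
    have h1 := hnn u hu
    rw [← hlin u τ] at h1
    linarith
  have ht0opt : t0 ∈ opt U f P Q (z.1 + τ * dx, z.2 + τ * dy) := by
    rw [hmem]
    refine ⟨ht0U, fun u hu => ?_⟩
    have h1 := hnn u hu
    rw [← hlin u τ] at h1
    have h2 := ht0eq
    rw [← hlin t0 τ] at h2
    linarith
  have hd0 : dx * P t0 + dy * Q t0 < dx * P s + dy * Q s := by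
    have : δ t0 = (dx * P t0 + dy * Q t0) - (dx * P s + dy * Q s) := by
      simp only [hδ]
      ring
    linarith
  obtain ⟨t, htopt, htd, hwall⟩ := hadj _ dx dy s hsopt t0 ht0opt hd0
  have htδ : δ t < 0 := by
    have : δ t = (dx * P t + dy * Q t) - (dx * P s + dy * Q s) := by
      simp only [hδ]
      ring
    linarith
  have hteq : g t + τ * δ t = 0 := by
    rw [← hlin t τ]
    have h1 := ((hmem t).1 htopt).2 s hs
    have h2 := ((hmem s).1 hsopt).2 t ((hmem t).1 htopt).1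
    linarith
  have hg0 : 0 < g t := by
    have := mul_pos_of_neg_of_neg (neg_neg_of_pos hτpos) htδ
    nlinarith
  have hg1 : g t + δ t < 0 := by
    have h1 : (1 - τ) * δ t < 0 := mul_neg_of_pos_of_neg (by linarith) htδ
    nlinarith
  have hp0 : 0 < F f P Q z.1 z.2 t - F f P Q z.1 z.2 s := hg0
  have hp1 : F f P Q z'.1 z'.2 t - F f P Q z'.1 z'.2 s < 0 := by
    rw [hone t]
    exact hg1
  rcases hwall with hw | hw
  · exact ⟨(s, t), hw, mul_neg_of_pos_of_neg hp0 hp1⟩
  · refine ⟨(t, s), hw, ?_⟩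
    have h1 : F f P Q z.1 z.2 s - F f P Q z.1 z.2 t < 0 := by linarith
    have h2 : 0 < F f P Q z'.1 z'.2 s - F f P Q z'.1 z'.2 t := by linarith
    exact mul_neg_of_neg_of_pos h1 h2

end Pool.Agent.H36.CV
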