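import Pool.Agent.H36.CV.Defs

/-!
# CV-SHAPE: the sets of minimisers of a generic valuated matroid in the plane

`shape`: `f` satisfies the exchange axiom `VM m f` and is generic (`Gen`). Then at every point `v` the
family `O` of minimisers is a single set, a pair `{S, S-i+j}`, a white tripod `{S, S-i+j, S-i+k}`,
a black tripod `{S, S-i+k, S-j+k}` or a parallelogram `{S, S-i+k, S-j+l, S-i-j+k+l}`.

Proof. (0) Exchange inside `O` (`opt_exchange`): `S, S' ∈ O`, `i ∈ S \ S'`: by `VM` there is
`j ∈ S' \ S` with `f (sw S i j) + f (sw S' j i) ≤ f S + f S'`. As `sm p (sw S i j) + sm p (sw S' j i)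
= sm p S + sm p S'` (`sm_sw`), the same inequality holds for the values `F` at `v`; both sets on the
left have card `m` and `F ≥` the minimum, so both are in `O`.
(1) `Gen` for members of `O`: any relation between differences of planar points of
`S0, S1, S2, S3 ∈ O` is a relation between indicator vectors. Three vectors in the plane are always
dependent, so (`dep`): for all `S0..S3 ∈ O` there are reals `(a,b,c) ≠ 0` with
`a (ind S1 - ind S0) + b (ind S2 - ind S0) + c (ind S3 - ind S0) = 0` at every `l`.
(2) If `O` has one element, done. Otherwise there are `S ≠ S' ∈ O`; by (0) applied to `S, S'` some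
`sw S i j ∈ O` with `i ∈ S`, `j ∉ S`. If `O = {S, sw S i j}` done. Otherwise there is a third element
`R ∈ O`. By (0) either `S` or `S1 := sw S i j` has a second neighbour in `O`: take `R` with `|S \ R|`
minimal, etc.; explicitly: if `R = sw S k l` for some `k ∈ S`, `l ∉ S` fine; otherwise `|S \ R| ≥ 2`:
apply (0) to `S, R` and every `k ∈ S \ R`: `sw S k l ∈ O` for some `l ∈ R \ S`; the two different
`k, k' ∈ S \ R` give two different neighbours of `S`. So `S` has two different neighbours
`sw S i j`, `sw S k l` in `O`, or (if all members of `O` other than `S` are neighbours of `S`) again two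
different neighbours. Hence in every case with `|O| ≥ 3` the set `S` has two different
neighbours `S1 = sw S i j`, `S2 = sw S k l` in `O`, `(i,j) ≠ (k,l)`.
(3) Case `k = i`, `l ≠ j`: by (1) with `S0 = S`, any `R ∈ O` has `c ≠ 0` (the first two difference
vectors are independent: look at the coordinates `j`, `l`), so `ind R - ind S = α (e_j - e_i) + β (e_l - e_i)`;
coordinates `j`, `l` give `α, β ∈ {0,1}`, coordinate `i` gives `α + β ≤ 1`; so
`R ∈ {S, S1, S2}`: white tripod. Case `l = j`, `k ≠ i`: similarly black tripod.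
Case `k ≠ i`, `l ≠ j`: `ind R - ind S = α (e_j - e_i) + β (e_l - e_k)` with `α, β ∈ {0, 1}`, so
`R ∈ {S, S1, S2, S3}`, `S3 = sw (sw S i j) k l`. And `S3 ∈ O`: (0) for `S1, S2`, `k ∈ S1 \ S2`: there is
`y ∈ S2 \ S1 = {i, l}` with `sw S1 k y ∈ O`; `y = i` would give `ind (sw S1 k i) - ind S = e_j - e_k`,
which is not of the form above (coordinate `i` forces `α = 0`, coordinate `j` forces `α = 1`). So
`y = l`.
(4) `shape_det`: nondegeneracy, from `Gen` with `S3 = S0` and coefficients
`(a, b, 0) = (sm q S2 - sm q S0, -(sm q S1 - sm q S0), 0)` and `(sm p S2 - sm p S0, ...)`: if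
`D (sm p) (sm q) S0 S1 S2 = 0` then these coefficients annihilate both coordinates, so (independence of
the indicator differences) they vanish; in particular `sm p S1 = sm p S0`, which contradicts the
injectivity of `p` (`sm p (sw S i j) - sm p S = p j - p i`).
-/

set_option autoImplicit false

open Finset

namespace Pool.Agent.H36.CV

variable {n : ℕ}

theorem sm_sw (p : Fin n → ℝ) (S : Finset (Fin n)) (i j : Fin n) (hi : i ∈ S) (hj : j ∉ S) :
    sm p (sw S i j) = sm p S + p j - p i := by
  unfold sm sw
  have hj' : j ∉ S.erase i := fun h => hj (mem_of_mem_erase h)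
  rw [sum_insert hj', ← add_sum_erase S p hi]
  ring

theorem shape_mem_opt {α : Type*} [DecidableEq α] (U : Finset α) (f P Q : α → ℝ) (v : ℝ × ℝ)
    (s : α) : s ∈ opt U f P Q v ↔ s ∈ U ∧ ∀ t ∈ U, F f P Q v.1 v.2 s ≤ F f P Q v.1 v.2 t := by
  unfold opt
  rw [mem_filter]

theorem shape_sw_mem (m : ℕ) (S : Finset (Fin n)) (i j : Fin n) (hS : S ∈ U n m) (hi : i ∈ S)
    (hj : j ∉ S) : sw S i j ∈ U n m := by
  unfold U at *
  rw [mem_powersetCard] at *
  refine ⟨subset_univ _, ?_⟩
  unfold sw
  rw [card_insert_of_notMem (fun h => hj (mem_of_mem_erase h)), card_erase_of_mem hi, hS.2]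
  have h1 : 0 < S.card := card_pos.mpr ⟨i, hi⟩
  have h2 := hS.2
  omega

theorem shape_exch (m : ℕ) (f : Finset (Fin n) → ℝ) (p q : Fin n → ℝ) (hVM : VM m f)
    (v : ℝ × ℝ) (S S' : Finset (Fin n)) (h : S ∈ opt (U n m) f (sm p) (sm q) v)
    (h' : S' ∈ opt (U n m) f (sm p) (sm q) v) (i : Fin n) (hi : i ∈ S \ S') :
    ∃ j ∈ S' \ S, sw S i j ∈ opt (U n m) f (sm p) (sm q) v := by
  rw [shape_mem_opt] at h h'
  obtain ⟨j, hj, hle⟩ := hVM S h.1 S' h'.1 i hi
  refine ⟨j, hj, ?_⟩
  rw [mem_sdiff] at hi hj
  have hA := shape_sw_mem m S i j h.1 hi.1 hj.2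
  have hB := shape_sw_mem m S' j i h'.1 hj.1 hi.2
  rw [shape_mem_opt]
  refine ⟨hA, fun t ht => ?_⟩
  have e1 := h.2 t ht
  have e2 := h'.2 _ hB
  have e3 : F f (sm p) (sm q) v.1 v.2 (sw S i j) + F f (sm p) (sm q) v.1 v.2 (sw S' j i)
      ≤ F f (sm p) (sm q) v.1 v.2 S + F f (sm p) (sm q) v.1 v.2 S' := by
    unfold F
    rw [sm_sw p S i j hi.1 hj.2, sm_sw q S i j hi.1 hj.2, sm_sw p S' j i hj.1 hi.2,
      sm_sw q S' j i hj.1 hi.2]
    linarith
  linarith

theorem shape_dep (x1 y1 x2 y2 x3 y3 : ℝ) : ∃ a b c : ℝ, (a ≠ 0 ∨ b ≠ 0 ∨ c ≠ 0) ∧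
    a * x1 + b * x2 + c * x3 = 0 ∧ a * y1 + b * y2 + c * y3 = 0 := by
  by_cases h : x2 * y3 - x3 * y2 = 0 ∧ x3 * y1 - x1 * y3 = 0 ∧ x1 * y2 - x2 * y1 = 0
  · by_cases hx : x1 = 0
    · by_cases hy : y1 = 0
      · exact ⟨1, 0, 0, Or.inl one_ne_zero, by rw [hx]; ring, by rw [hy]; ring⟩
      · exact ⟨y2, -y1, 0, Or.inr (Or.inl (neg_ne_zero.mpr hy)), by linarith [h.2.2], by ring⟩
    · exact ⟨x2, -x1, 0, Or.inr (Or.inl (neg_ne_zero.mpr hx)), by ring, by linarith [h.2.2]⟩
  · refine ⟨x2 * y3 - x3 * y2, x3 * y1 - x1 * y3, x1 * y2 - x2 * y1, by tauto, by ring, by ring⟩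

theorem shape_ind_sw (S : Finset (Fin n)) (i j : Fin n) (hi : i ∈ S) (hj : j ∉ S) (x : Fin n) :
    ind (sw S i j) x - ind S x = (if x = j then 1 else 0) - (if x = i then 1 else 0) := by
  have hij : i ≠ j := fun h => hj (h ▸ hi)
  unfold ind sw
  by_cases hxj : x = j
  · have hxi : x ≠ i := fun h => hij (h.symm.trans hxj)
    rw [hxj] at hxi ⊢
    simp [hj, hxi]
  · by_cases hxi : x = i
    · rw [hxi] at hxj ⊢
      simp [hxj, hi]
    · simp [hxj, hxi]

theorem shape_indep (a b : ℝ) (S : Finset (Fin n)) (i j k l : Fin n) (hi : i ∈ S) (hj : j ∈ S)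
    (hk : k ∉ S) (hl : l ∉ S) (hne : i ≠ j ∨ k ≠ l)
    (h : ∀ x : Fin n, a * (ind (sw S i k) x - ind S x) + b * (ind (sw S j l) x - ind S x) = 0) :
    a = 0 ∧ b = 0 := by
  have hik : i ≠ k := fun h => hk (h ▸ hi)
  have hil : i ≠ l := fun h => hl (h ▸ hi)
  have hjk : j ≠ k := fun h => hk (h ▸ hj)
  have hjl : j ≠ l := fun h => hl (h ▸ hj)
  have h' : ∀ x : Fin n, a * ((if x = k then 1 else 0) - (if x = i then 1 else 0)) +
      b * ((if x = l then 1 else 0) - (if x = j then 1 else 0)) = 0 := by
    intro x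
    rw [← shape_ind_sw S i k hi hk, ← shape_ind_sw S j l hj hl]
    exact h x
  rcases hne with hne | hne
  · have h1 := h' i
    have h2 := h' j
    simp [hik, hil, hjk, hjl, hne, hne.symm] at h1 h2
    exact ⟨h1, h2⟩
  · have h1 := h' k
    have h2 := h' l
    simp [hik.symm, hil.symm, hjk.symm, hjl.symm, hne, hne.symm] at h1 h2
    exact ⟨h1, h2⟩

theorem shape_span (m : ℕ) (f : Finset (Fin n) → ℝ) (p q : Fin n → ℝ)
    (hGen : Gen m f p q) (v : ℝ × ℝ) (S R : Finset (Fin n))
    (i j k l : Fin n) (hi : i ∈ S) (hj : j ∈ S) (hk : k ∉ S) (hl : l ∉ S)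
    (hne : i ≠ j ∨ k ≠ l)
    (h0 : S ∈ opt (U n m) f (sm p) (sm q) v)
    (h1 : sw S i k ∈ opt (U n m) f (sm p) (sm q) v)
    (h2 : sw S j l ∈ opt (U n m) f (sm p) (sm q) v)
    (hR : R ∈ opt (U n m) f (sm p) (sm q) v) :
    ∃ α β : ℝ, ∀ x, ind R x = ind S x + α * ((if x = k then 1 else 0) - (if x = i then 1 else 0)) +
      β * ((if x = l then 1 else 0) - (if x = j then 1 else 0)) := by
  rw [shape_mem_opt] at h0 h1 h2 hR
  obtain ⟨a, b, c, hne0, e1, e2⟩ := shape_dep (sm p (sw S i k) - sm p S) (sm q (sw S i k) - sm q S)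
    (sm p (sw S j l) - sm p S) (sm q (sw S j l) - sm q S) (sm p R - sm p S) (sm q R - sm q S)
  have rel := hGen v.1 v.2 S h0.1 (sw S i k) h1.1 (sw S j l) h2.1 R hR.1
    (le_antisymm (h1.2 _ h0.1) (h0.2 _ h1.1)) (le_antisymm (h2.2 _ h0.1) (h0.2 _ h2.1))
    (le_antisymm (hR.2 _ h0.1) (h0.2 _ hR.1)) a b c e1 e2
  have hc : c ≠ 0 := by
    intro hc
    have := shape_indep a b S i j k l hi hj hk hl hne (fun x => by
      have := rel x
      rw [hc, zero_mul, add_zero] at this
      exact this)
    rcases hne0 with h | h | h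
    · exact h this.1
    · exact h this.2
    · exact h hc
  refine ⟨-a / c, -b / c, fun x => ?_⟩
  rw [← shape_ind_sw S i k hi hk, ← shape_ind_sw S j l hj hl]
  have := rel x
  field_simp
  linarith

theorem shape_ind01 (S : Finset (Fin n)) (x : Fin n) : ind S x = 0 ∨ ind S x = 1 := by
  unfold ind
  split_ifs
  · exact Or.inr rfl
  · exact Or.inl rfl

theorem shape_ind_inj (S R : Finset (Fin n)) (h : ∀ x, ind R x = ind S x) : R = S := by
  ext x
  have := h x
  unfold ind at this
  by_cases h1 : x ∈ R <;> by_cases h2 : x ∈ S <;> simp_all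

theorem shape_ind_mem (S : Finset (Fin n)) (x : Fin n) (h : x ∈ S) : ind S x = 1 := by
  unfold ind
  rw [if_pos h]

theorem shape_ind_nmem (S : Finset (Fin n)) (x : Fin n) (h : x ∉ S) : ind S x = 0 := by
  unfold ind
  rw [if_neg h]

/-- A set with at least three members in the family has two different neighbours of each member. -/
theorem shape_two (m : ℕ) (f : Finset (Fin n) → ℝ) (p q : Fin n → ℝ) (hVM : VM m f)
    (v : ℝ × ℝ) (S : Finset (Fin n)) (hS : S ∈ opt (U n m) f (sm p) (sm q) v)
    (i j : Fin n) (hi : i ∈ S) (hj : j ∉ S)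
    (R : Finset (Fin n)) (hR : R ∈ opt (U n m) f (sm p) (sm q) v) (hRS : R ≠ S)
    (hR1 : R ≠ sw S i j) :
    ∃ k l, k ∈ S ∧ l ∉ S ∧ (i ≠ k ∨ j ≠ l) ∧ sw S k l ∈ opt (U n m) f (sm p) (sm q) v := by
  by_contra hcon
  push Not at hcon
  have hcS : S.card = m := by
    have := (shape_mem_opt _ _ _ _ _ _).mp hS
    exact (mem_powersetCard.mp this.1).2
  have hcR : R.card = m := by
    have := (shape_mem_opt _ _ _ _ _ _).mp hR
    exact (mem_powersetCard.mp this.1).2
  have hcard : (S \ R).card = (R \ S).card := by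
    have e1 := card_sdiff_add_card_inter S R
    have e2 := card_sdiff_add_card_inter R S
    rw [inter_comm] at e2
    omega
  have key : ∀ k ∈ S \ R, k = i ∧ j ∈ R \ S := by
    intro k hk
    obtain ⟨l, hl, hO⟩ := shape_exch m f p q hVM v S R hS hR k hk
    rw [mem_sdiff] at hk
    have hl' := mem_sdiff.mp hl
    by_cases hik : i = k
    · by_cases hjl : j = l
      · exact ⟨hik.symm, hjl ▸ hl⟩
      · exact absurd hO (hcon k l hk.1 hl'.2 (Or.inr hjl))
    · exact absurd hO (hcon k l hk.1 hl'.2 (Or.inl hik))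
  have hne : (S \ R).Nonempty := by
    rw [nonempty_iff_ne_empty]
    intro h
    have hsub : S ⊆ R := sdiff_eq_empty_iff_subset.mp h
    exact hRS (eq_of_subset_of_card_le hsub (by omega)).symm
  obtain ⟨k0, hk0⟩ := hne
  have hk0' := key k0 hk0
  have hSR : S \ R = {i} := by
    rw [eq_singleton_iff_unique_mem]
    refine ⟨hk0'.1 ▸ hk0, fun x hx => (key x hx).1⟩
  have hRS1 : (R \ S).card = 1 := by
    rw [← hcard, hSR, card_singleton]
  have hRSj : R \ S = {j} := by
    obtain ⟨z, hz⟩ := card_eq_one.mp hRS1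
    have := hk0'.2
    rw [hz, mem_singleton] at this
    rw [hz, this]
  apply hR1
  ext x
  unfold sw
  rw [mem_insert, mem_erase]
  constructor
  · intro hx
    by_cases hxS : x ∈ S
    · right
      refine ⟨?_, hxS⟩
      intro hxi
      have : i ∈ S \ R := by rw [hSR]; exact mem_singleton_self _
      exact (mem_sdiff.mp this).2 (hxi ▸ hx)
    · left
      have : x ∈ R \ S := mem_sdiff.mpr ⟨hx, hxS⟩
      rw [hRSj] at this
      exact mem_singleton.mp this
  · rintro (hx | ⟨hxi, hxS⟩)
    · rw [hx]
      exact (mem_sdiff.mp hk0'.2).1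
    · by_contra hxR
      have : x ∈ S \ R := mem_sdiff.mpr ⟨hxS, hxR⟩
      rw [hSR] at this
      exact hxi (mem_singleton.mp this)

theorem shape (m : ℕ) (f : Finset (Fin n) → ℝ) (p q : Fin n → ℝ) (hm : m ≤ n)
    (hVM : VM m f) (hGen : Gen m f p q) (v : ℝ × ℝ) :
    (∃ S, opt (U n m) f (sm p) (sm q) v = {S}) ∨
    (∃ S i j, i ∈ S ∧ j ∉ S ∧ opt (U n m) f (sm p) (sm q) v = {S, sw S i j}) ∨
    (∃ S i j k, i ∈ S ∧ j ∉ S ∧ k ∉ S ∧ j ≠ k ∧
      opt (U n m) f (sm p) (sm q) v = {S, sw S i j, sw S i k}) ∨
    (∃ S i j k, i ∈ S ∧ j ∈ S ∧ i ≠ j ∧ k ∉ S ∧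
      opt (U n m) f (sm p) (sm q) v = {S, sw S i k, sw S j k}) ∨
    (∃ S i j k l, i ∈ S ∧ j ∈ S ∧ i ≠ j ∧ k ∉ S ∧ l ∉ S ∧ k ≠ l ∧
      opt (U n m) f (sm p) (sm q) v = {S, sw S i k, sw S j l, sw (sw S i k) j l}) := by
  -- the family is nonempty
  have hUne : (U n m).Nonempty := by
    unfold U
    rw [powersetCard_nonempty]
    simpa using hm
  obtain ⟨S, hSU, hSmin⟩ := exists_min_image (U n m) (fun s => F f (sm p) (sm q) v.1 v.2 s) hUne
  have hS : S ∈ opt (U n m) f (sm p) (sm q) v := (shape_mem_opt _ _ _ _ _ _).mpr ⟨hSU, hSmin⟩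
  by_cases hone : ∀ R ∈ opt (U n m) f (sm p) (sm q) v, R = S
  · left
    exact ⟨S, eq_singleton_iff_unique_mem.mpr ⟨hS, hone⟩⟩
  push Not at hone
  obtain ⟨S', hS', hSS'⟩ := hone
  have hcS : ∀ R ∈ opt (U n m) f (sm p) (sm q) v, R.card = m := by
    intro R hR
    have := (shape_mem_opt _ _ _ _ _ _).mp hR
    exact (mem_powersetCard.mp this.1).2
  have hne : (S \ S').Nonempty := by
    rw [nonempty_iff_ne_empty]
    intro h
    have hsub : S ⊆ S' := sdiff_eq_empty_iff_subset.mp h
    exact hSS' (eq_of_subset_of_card_le hsub (by rw [hcS S hS, hcS S' hS'])).symm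
  obtain ⟨i, hi⟩ := hne
  obtain ⟨j, hj, hS1⟩ := shape_exch m f p q hVM v S S' hS hS' i hi
  have hiS : i ∈ S := (mem_sdiff.mp hi).1
  have hjS : j ∉ S := (mem_sdiff.mp hj).2
  by_cases htwo : ∀ R ∈ opt (U n m) f (sm p) (sm q) v, R = S ∨ R = sw S i j
  · right; left
    refine ⟨S, i, j, hiS, hjS, ?_⟩
    ext R
    rw [mem_insert, mem_singleton]
    constructor
    · exact htwo R
    · rintro (h | h)
      · rw [h]; exact hS
      · rw [h]; exact hS1
  push Not at htwo
  obtain ⟨R, hR, hRS, hR1⟩ := htwo
  obtain ⟨k, l, hkS, hlS, hne, hS2⟩ := shape_two m f p q hVM v S hS i j hiS hjS R hR hRS hR1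
  right; right
  have hij : i ≠ j := fun h => hjS (h ▸ hiS)
  have hil : i ≠ l := fun h => hlS (h ▸ hiS)
  have hkj : k ≠ j := fun h => hjS (h ▸ hkS)
  have hkl : k ≠ l := fun h => hlS (h ▸ hkS)
  have hspan : ∀ R ∈ opt (U n m) f (sm p) (sm q) v, ∃ α β : ℝ, ∀ x, ind R x = ind S x +
      α * ((if x = j then 1 else 0) - (if x = i then 1 else 0)) +
      β * ((if x = l then 1 else 0) - (if x = k then 1 else 0)) := fun R hR =>
    shape_span m f p q hGen v S R i k j l hiS hkS hjS hlS hne hS hS1 hS2 hR
  have hi1 := shape_ind_mem S i hiS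
  have hk1 := shape_ind_mem S k hkS
  have hj0 := shape_ind_nmem S j hjS
  have hl0 := shape_ind_nmem S l hlS
  by_cases hik : i = k
  · -- white tripod
    have hjl : j ≠ l := hne.resolve_left (fun h => h hik)
    left
    subst hik
    refine ⟨S, i, j, l, hiS, hjS, hlS, hjl, ?_⟩
    ext R
    rw [mem_insert, mem_insert, mem_singleton]
    constructor
    · intro hR
      obtain ⟨α, β, hx⟩ := hspan R hR
      have xi := hx i
      have xj := hx j
      have xl := hx l
      simp [hi1, hij, hil] at xi
      simp [hj0, hij.symm, hjl] at xj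
      simp [hl0, hil.symm, hjl.symm] at xl
      rcases shape_ind01 R j with h1 | h1 <;> rcases shape_ind01 R l with h2 | h2
      · left
        apply shape_ind_inj
        intro x
        have := hx x
        rw [← xj, ← xl, h1, h2] at this
        linarith
      · right; right
        apply shape_ind_inj
        intro x
        have := hx x
        rw [← xj, ← xl, h1, h2] at this
        have h3 := shape_ind_sw S i l hiS hlS x
        linarith
      · right; left
        apply shape_ind_inj
        intro x
        have := hx x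
        rw [← xj, ← xl, h1, h2] at this
        have h3 := shape_ind_sw S i j hiS hjS x
        linarith
      · exfalso
        rw [← xj, ← xl, h1, h2] at xi
        rcases shape_ind01 R i with h3 | h3 <;> rw [h3] at xi <;> norm_num at xi
    · rintro (h | h | h)
      · rw [h]; exact hS
      · rw [h]; exact hS1
      · rw [h]; exact hS2
  · by_cases hjl : j = l
    · -- black tripod
      right; left
      subst hjl
      refine ⟨S, i, k, j, hiS, hkS, hik, hjS, ?_⟩
      ext R
      rw [mem_insert, mem_insert, mem_singleton]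
      constructor
      · intro hR
        obtain ⟨α, β, hx⟩ := hspan R hR
        have xi := hx i
        have xj := hx j
        have xk := hx k
        simp [hi1, hij, hik] at xi
        simp [hj0, hij.symm, hkj.symm] at xj
        simp [hk1, hkj, Ne.symm hik] at xk
        rcases shape_ind01 R i with h1 | h1 <;> rcases shape_ind01 R k with h2 | h2
        · exfalso
          rw [h1] at xi
          rw [h2] at xk
          rcases shape_ind01 R j with h3 | h3 <;> rw [h3] at xj <;> linarith
        · right; left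
          apply shape_ind_inj
          intro x
          have := hx x
          rw [h1] at xi
          rw [h2] at xk
          have hα : α = 1 := by linarith
          have hβ : β = 0 := by linarith
          rw [hα, hβ] at this
          have h3 := shape_ind_sw S i j hiS hjS x
          linarith
        · right; right
          apply shape_ind_inj
          intro x
          have := hx x
          rw [h1] at xi
          rw [h2] at xk
          have hα : α = 0 := by linarith
          have hβ : β = 1 := by linarith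
          rw [hα, hβ] at this
          have h3 := shape_ind_sw S k j hkS hjS x
          linarith
        · left
          apply shape_ind_inj
          intro x
          have := hx x
          rw [h1] at xi
          rw [h2] at xk
          have hα : α = 0 := by linarith
          have hβ : β = 0 := by linarith
          rw [hα, hβ] at this
          linarith
      · rintro (h | h | h)
        · rw [h]; exact hS
        · rw [h]; exact hS1
        · rw [h]; exact hS2
    · -- parallelogram
      right; right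
      refine ⟨S, i, k, j, l, hiS, hkS, hik, hjS, hlS, hjl, ?_⟩
      have hk1' : k ∈ sw S i j := by
        unfold sw
        exact mem_insert_of_mem (mem_erase.mpr ⟨Ne.symm hik, hkS⟩)
      have hl1' : l ∉ sw S i j := by
        unfold sw
        rw [mem_insert, mem_erase]
        rintro (h | h)
        · exact hjl h.symm
        · exact hlS h.2
      have hS3 : sw (sw S i j) k l ∈ opt (U n m) f (sm p) (sm q) v := by
        have hk2 : k ∈ sw S i j \ sw S k l := by
          rw [mem_sdiff]
          refine ⟨hk1', ?_⟩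
          unfold sw
          rw [mem_insert, mem_erase]
          rintro (h | h)
          · exact hkl h
          · exact h.1 rfl
        obtain ⟨y, hy, hO⟩ := shape_exch m f p q hVM v _ _ hS1 hS2 k hk2
        rw [mem_sdiff] at hy
        obtain ⟨hy2, hy1⟩ := hy
        unfold sw at hy2 hy1
        rw [mem_insert, mem_erase] at hy2 hy1
        push Not at hy1
        rcases hy2 with hyl | ⟨hyk, hyS⟩
        · rw [hyl] at hO
          exact hO
        · exfalso
          have hyi : y = i := by
            by_contra hyi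
            exact hy1.2 hyi hyS
          subst hyi
          obtain ⟨α, β, hx⟩ := hspan _ hO
          have xi := hx y
          have xj := hx j
          have m1 : ind (sw (sw S y j) k y) y = 1 := by
            apply shape_ind_mem
            unfold sw
            exact mem_insert_self _ _
          have m2 : ind (sw (sw S y j) k y) j = 1 := by
            apply shape_ind_mem
            unfold sw
            rw [mem_insert, mem_erase, mem_insert]
            exact Or.inr ⟨hkj.symm, Or.inl rfl⟩
          rw [m1, hi1] at xi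
          rw [m2, hj0] at xj
          simp [hij, hil, hik] at xi
          simp [hij.symm, hkj.symm, hjl] at xj
          linarith
      ext R
      rw [mem_insert, mem_insert, mem_insert, mem_singleton]
      constructor
      · intro hR
        obtain ⟨α, β, hx⟩ := hspan R hR
        have xj := hx j
        have xl := hx l
        simp [hj0, hij.symm, hkj.symm, hjl] at xj
        simp [hl0, hil.symm, hkl.symm, Ne.symm hjl] at xl
        rcases shape_ind01 R j with h1 | h1 <;> rcases shape_ind01 R l with h2 | h2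
        · left
          apply shape_ind_inj
          intro x
          have := hx x
          rw [← xj, ← xl, h1, h2] at this
          linarith
        · right; right; left
          apply shape_ind_inj
          intro x
          have := hx x
          rw [← xj, ← xl, h1, h2] at this
          have h3 := shape_ind_sw S k l hkS hlS x
          linarith
        · right; left
          apply shape_ind_inj
          intro x
          have := hx x
          rw [← xj, ← xl, h1, h2] at this
          have h3 := shape_ind_sw S i j hiS hjS x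
          linarith
        · right; right; right
          apply shape_ind_inj
          intro x
          have := hx x
          rw [← xj, ← xl, h1, h2] at this
          have h3 := shape_ind_sw S i j hiS hjS x
          have h4 := shape_ind_sw (sw S i j) k l hk1' hl1' x
          linarith
      · rintro (h | h | h | h)
        · rw [h]; exact hS
        · rw [h]; exact hS1
        · rw [h]; exact hS2
        · rw [h]; exact hS3

theorem shape_det (m : ℕ) (f : Finset (Fin n) → ℝ) (p q : Fin n → ℝ)
    (hp : Function.Injective p) (hGen : Gen m f p q) (v : ℝ × ℝ) (S : Finset (Fin n))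
    (i j k l : Fin n) (hi : i ∈ S) (hj : j ∈ S) (hk : k ∉ S) (hl : l ∉ S)
    (hne : i ≠ j ∨ k ≠ l)
    (h0 : S ∈ opt (U n m) f (sm p) (sm q) v)
    (h1 : sw S i k ∈ opt (U n m) f (sm p) (sm q) v)
    (h2 : sw S j l ∈ opt (U n m) f (sm p) (sm q) v) :
    D (sm p) (sm q) S (sw S i k) (sw S j l) ≠ 0 := by
  intro hD
  rw [shape_mem_opt] at h0 h1 h2
  unfold D at hD
  have rel := hGen v.1 v.2 S h0.1 (sw S i k) h1.1 (sw S j l) h2.1 S h0.1
    (le_antisymm (h1.2 _ h0.1) (h0.2 _ h1.1)) (le_antisymm (h2.2 _ h0.1) (h0.2 _ h2.1))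
    rfl (sm p (sw S j l) - sm p S) (-(sm p (sw S i k) - sm p S)) 0 (by ring) (by linarith)
  have hind := shape_indep _ _ S i j k l hi hj hk hl hne (fun x => by
    have := rel x
    rw [zero_mul, add_zero] at this
    exact this)
  have h3 := hind.2
  rw [sm_sw p S i k hi hk] at h3
  have h4 : p k = p i := by linarith
  have h5 := hp h4
  exact hk (h5 ▸ hi)

end Pool.Agent.H36.CV
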