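import Pool.Agent.H36.CV.Defs

/-!
# CV-START: lowest points of walls

All statements are about an abstract finite set `U` with affine functions
`F f P Q x y s = f s + x P s + y Q s`.

For a pair `w = (s, s')` with `P s' < P s`, at height `y` the abscissa `X y := xw f P Q s s' y` is the
only `x` with `F x y s = F x y s'`, and `X y - X y0 = (y - y0) (Q s' - Q s) / (P s - P s')`.
For `t ∈ U` put `gap t y := F (X y) y t - F (X y) y s`.  Then
  (A)  `(P s - P s') * (gap t y - gap t y0) = (y - y0) * D P Q s s' t`   (field_simp; ring).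
`act w = {y | ∀ t ∈ U, t ≠ s → t ≠ s' → 0 < gap t y}` is open and convex (finite intersection of
sets `{affine > 0}`).

Proof of `start_low`. `w ∈ Wb`: `act w` nonempty and bounded below; `y0 := sInf (act w)`,
`v := (X y0, y0)`. For every `t` as above `gap t` is continuous, `gap t > 0` on `act w` and there
are points of `act w` arbitrarily close to `y0` (y0 is the infimum), so `gap t y0 ≥ 0`. Hence
`s, s' ∈ opt v` (`F v s = F v s'` is minimal). Take `y1 ∈ act w`; then `y0 ≤ y1`. If `gap t y0 > 0`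
for all `t ∈ U \ {s, s'}` then `y0 ∈ act w` and by (A) also `y ∈ act w` for `y` slightly less than
`y0`, contradicting the infimum. So some `t ∈ U \ {s,s'}` has `gap t y0 = 0`, i.e. `t ∈ opt v`;
in particular `y0 ∉ act w`, so `y0 < y1`. For every such `t` (`t ∈ opt v`, `t ≠ s, s'`)
`gap t y0 = 0 < gap t y1` and (A) give `0 < D P Q s s' t`.

Proof of `low_wb`. Let `w = (s, s') ∈ Low v`, `v = (x0, y0)`. `F v s = F v s'` gives `x0 = X y0`.
For `t ∈ opt v`, `t ≠ s, s'`: `gap t y0 = 0`, `D > 0`, so by (A) `gap t y > 0` for `y > y0` and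
`gap t y < 0` for `y < y0`. For `t ∈ U \ opt v`: `gap t y0 > 0`, so `gap t y > 0` for `y` near `y0`.
Since `U` is finite there is `δ > 0` with `(y0, y0 + δ) ⊆ act w`. There is at least one `t ∈ opt v`,
`t ≠ s, s'`, so `y ∈ act w → y0 < y`. Hence `act w` is nonempty, bounded below by `y0` and
`sInf (act w) = y0`, so `start w = (X y0, y0) = v`.
-/

set_option autoImplicit false

open Finset

namespace Pool.Agent.H36.CV

variable {α : Type*} [DecidableEq α] (U : Finset α) (f P Q : α → ℝ)

/-- The advantage of `w.1` over `t` at the point of height `y` of the line of `w`. -/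
noncomputable def startGap (w : α × α) (t : α) (y : ℝ) : ℝ :=
  F f P Q (xw f P Q w.1 w.2 y) y t - F f P Q (xw f P Q w.1 w.2 y) y w.1

lemma start_gap_affine (w : α × α) (hP : P w.2 < P w.1) (t : α) (y y0 : ℝ) :
    startGap f P Q w t y = startGap f P Q w t y0 + (y - y0) * (D P Q w.1 w.2 t / (P w.1 - P w.2)) := by
  have h : P w.1 - P w.2 ≠ 0 := by
    have : 0 < P w.1 - P w.2 := by linarith
    exact this.ne'
  unfold startGap F xw D
  field_simp
  ring

lemma start_gap_cont (w : α × α) (hP : P w.2 < P w.1) (t : α) : Continuous (startGap f P Q w t) := by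
  have h : startGap f P Q w t = fun y => startGap f P Q w t 0 +
      (y - 0) * (D P Q w.1 w.2 t / (P w.1 - P w.2)) := by
    funext y
    exact start_gap_affine f P Q w hP t y 0
  rw [h]
  fun_prop

lemma start_mem_act_iff (w : α × α) (y : ℝ) :
    y ∈ act U f P Q w ↔ ∀ t ∈ U, t ≠ w.1 → t ≠ w.2 → 0 < startGap f P Q w t y := by
  unfold act startGap
  simp only [Set.mem_ofPred_eq, sub_pos]

lemma start_act_open (w : α × α) (hP : P w.2 < P w.1) : IsOpen (act U f P Q w) := by
  have h : act U f P Q w = ⋂ t ∈ U.filter (fun t => t ≠ w.1 ∧ t ≠ w.2),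
      {y | 0 < startGap f P Q w t y} := by
    ext y
    rw [start_mem_act_iff]
    simp only [Finset.mem_filter, Set.mem_iInter, Set.mem_ofPred_eq]
    exact ⟨fun h t ht => h t ht.1 ht.2.1 ht.2.2, fun h t h1 h2 h3 => h t ⟨h1, h2, h3⟩⟩
  rw [h]
  apply isOpen_biInter_finset
  intro t _
  exact isOpen_lt continuous_const (start_gap_cont f P Q w hP t)

lemma start_F_xw_eq (w : α × α) (hP : P w.2 < P w.1) (y : ℝ) :
    F f P Q (xw f P Q w.1 w.2 y) y w.1 = F f P Q (xw f P Q w.1 w.2 y) y w.2 := by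
  have h : P w.1 - P w.2 ≠ 0 := by
    have : 0 < P w.1 - P w.2 := by linarith
    exact this.ne'
  unfold F xw
  field_simp
  ring

lemma start_mem_opt_iff (v : ℝ × ℝ) (s : α) : s ∈ opt U f P Q v ↔
    s ∈ U ∧ ∀ t ∈ U, F f P Q v.1 v.2 s ≤ F f P Q v.1 v.2 t := by
  unfold opt
  rw [Finset.mem_filter]

theorem start_low (w : α × α) (hw : w ∈ Wb U f P Q) : w ∈ Low U f P Q (start U f P Q w) := by
  classical
  unfold Wb at hw
  rw [Finset.mem_filter] at hw
  obtain ⟨hW, hbdd⟩ := hw
  unfold W at hW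
  rw [Finset.mem_filter, Finset.mem_product] at hW
  obtain ⟨⟨h1U, h2U⟩, hP, hne⟩ := hW
  set y0 := sInf (act U f P Q w) with hy0
  have hden : 0 < P w.1 - P w.2 := by linarith
  have hge : ∀ t ∈ U, t ≠ w.1 → t ≠ w.2 → 0 ≤ startGap f P Q w t y0 := by
    intro t ht h1 h2
    have hsub : act U f P Q w ⊆ {y | 0 ≤ startGap f P Q w t y} := by
      intro y hy
      exact ((start_mem_act_iff U f P Q w y).mp hy t ht h1 h2).le
    exact closure_minimal hsub (isClosed_le continuous_const (start_gap_cont f P Q w hP t))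
      (csInf_mem_closure hne hbdd)
  have hv : start U f P Q w = (xw f P Q w.1 w.2 y0, y0) := rfl
  rw [hv]
  have hopt1 : w.1 ∈ opt U f P Q (xw f P Q w.1 w.2 y0, y0) := by
    rw [start_mem_opt_iff]
    refine ⟨h1U, fun t ht => ?_⟩
    by_cases h1 : t = w.1
    · rw [h1]
    by_cases h2 : t = w.2
    · rw [h2]
      exact (start_F_xw_eq f P Q w hP y0).le
    · have := hge t ht h1 h2
      unfold startGap at this
      linarith
  have hopt2 : w.2 ∈ opt U f P Q (xw f P Q w.1 w.2 y0, y0) := by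
    rw [start_mem_opt_iff] at hopt1 ⊢
    refine ⟨h2U, fun t ht => ?_⟩
    have := hopt1.2 t ht
    have h3 := start_F_xw_eq f P Q w hP y0
    change F f P Q (xw f P Q w.1 w.2 y0) y0 w.2 ≤ _
    rw [← h3]
    exact this
  have hopt_zero : ∀ t ∈ opt U f P Q (xw f P Q w.1 w.2 y0, y0), startGap f P Q w t y0 = 0 := by
    intro t ht
    rw [start_mem_opt_iff] at ht hopt1
    have h3 := ht.2 w.1 hopt1.1
    have h4 := hopt1.2 t ht.1
    unfold startGap
    exact sub_eq_zero.mpr (le_antisymm h3 h4)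
  have hex : ∃ t ∈ U, t ≠ w.1 ∧ t ≠ w.2 ∧ startGap f P Q w t y0 = 0 := by
    by_contra hcon
    push Not at hcon
    have hmem : y0 ∈ act U f P Q w := by
      rw [start_mem_act_iff]
      intro t ht h1 h2
      exact lt_of_le_of_ne (hge t ht h1 h2) (Ne.symm (hcon t ht h1 h2))
    obtain ⟨ε, hε, hball⟩ := Metric.isOpen_iff.mp (start_act_open U f P Q w hP) y0 hmem
    have h5 : y0 - ε / 2 ∈ act U f P Q w := by
      apply hball
      rw [Metric.mem_ball, Real.dist_eq]
      rw [show y0 - ε / 2 - y0 = -(ε / 2) by ring, abs_neg, abs_of_pos (by linarith)]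
      linarith
    have h6 := csInf_le hbdd h5
    rw [← hy0] at h6
    linarith
  obtain ⟨y1, hy1⟩ := hne
  have hle : y0 ≤ y1 := csInf_le hbdd hy1
  have hlt : y0 < y1 := by
    obtain ⟨t, ht, h1, h2, h3⟩ := hex
    rcases hle.lt_or_eq with h | h
    · exact h
    · have := (start_mem_act_iff U f P Q w y1).mp hy1 t ht h1 h2
      rw [← h, h3] at this
      exact absurd this (lt_irrefl _)
  unfold Low
  rw [Finset.mem_filter, Finset.mem_product]
  refine ⟨⟨hopt1, hopt2⟩, hP, ?_, ?_⟩
  · obtain ⟨t, ht, h1, h2, h3⟩ := hex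
    refine ⟨t, ?_, h1, h2⟩
    rw [start_mem_opt_iff] at hopt1 ⊢
    refine ⟨ht, fun t' ht' => ?_⟩
    have h4 := hopt1.2 t' ht'
    have h5 : F f P Q (xw f P Q w.1 w.2 y0) y0 t = F f P Q (xw f P Q w.1 w.2 y0) y0 w.1 :=
      sub_eq_zero.mp h3
    change F f P Q (xw f P Q w.1 w.2 y0) y0 t ≤ _
    rw [h5]
    exact h4
  · intro t ht h1 h2
    have h3 := hopt_zero t ht
    have htU := ((start_mem_opt_iff U f P Q _ t).mp ht).1
    have h4 := (start_mem_act_iff U f P Q w y1).mp hy1 t htU h1 h2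
    rw [start_gap_affine f P Q w hP t y1 y0, h3, zero_add] at h4
    have h5 : 0 < y1 - y0 := by linarith
    have h6 : 0 < D P Q w.1 w.2 t / (P w.1 - P w.2) := (mul_pos_iff_of_pos_left h5).mp h4
    exact (div_pos_iff_of_pos_right hden).mp h6

theorem low_wb (v : ℝ × ℝ) (w : α × α) (hw : w ∈ Low U f P Q v) :
    w ∈ Wb U f P Q ∧ start U f P Q w = v := by
  classical
  unfold Low at hw
  rw [Finset.mem_filter, Finset.mem_product] at hw
  obtain ⟨⟨hopt1, hopt2⟩, hP, ⟨t1, ht1, ht11, ht12⟩, hD⟩ := hw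
  have hden : 0 < P w.1 - P w.2 := by linarith
  have hdne : P w.1 - P w.2 ≠ 0 := hden.ne'
  have hX : v.1 = xw f P Q w.1 w.2 v.2 := by
    have h1 := ((start_mem_opt_iff U f P Q v w.1).mp hopt1).2 w.2 ((start_mem_opt_iff U f P Q v w.2).mp hopt2).1
    have h2 := ((start_mem_opt_iff U f P Q v w.2).mp hopt2).2 w.1 ((start_mem_opt_iff U f P Q v w.1).mp hopt1).1
    have h3 := le_antisymm h1 h2
    unfold F at h3
    unfold xw
    rw [eq_div_iff hdne]
    linarith
  have hzero : ∀ t ∈ opt U f P Q v, startGap f P Q w t v.2 = 0 := by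
    intro t ht
    unfold startGap
    rw [← hX]
    rw [start_mem_opt_iff] at ht hopt1
    exact sub_eq_zero.mpr (le_antisymm (ht.2 w.1 hopt1.1) (hopt1.2 t ht.1))
  have hpos : ∀ t ∈ U, t ∉ opt U f P Q v → 0 < startGap f P Q w t v.2 := by
    intro t ht hto
    unfold startGap
    rw [← hX]
    have h1 := (start_mem_opt_iff U f P Q v w.1).mp hopt1
    have h2 := h1.2 t ht
    rcases h2.lt_or_eq with h3 | h3
    · exact sub_pos.mpr h3
    · exfalso
      apply hto
      rw [start_mem_opt_iff]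
      refine ⟨ht, fun t' ht' => ?_⟩
      rw [← h3]
      exact h1.2 t' ht'
  have hgt : ∀ y ∈ act U f P Q w, v.2 < y := by
    intro y hy
    have ht1U := ((start_mem_opt_iff U f P Q v t1).mp ht1).1
    have h1 := (start_mem_act_iff U f P Q w y).mp hy t1 ht1U ht11 ht12
    rw [start_gap_affine f P Q w hP t1 y v.2, hzero t1 ht1, zero_add] at h1
    have h2 : 0 < D P Q w.1 w.2 t1 / (P w.1 - P w.2) := div_pos (hD t1 ht1 ht11 ht12) hden
    have h3 : 0 < y - v.2 := (mul_pos_iff_of_pos_right h2).mp h1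
    linarith
  have hev : ∀ᶠ y in nhdsWithin v.2 (Set.Ioi v.2), y ∈ act U f P Q w := by
    have h1 : ∀ᶠ y in nhdsWithin v.2 (Set.Ioi v.2), ∀ t ∈ U, t ≠ w.1 → t ≠ w.2 →
        0 < startGap f P Q w t y := by
      rw [Filter.eventually_all_finset]
      intro t ht
      by_cases h1 : t = w.1
      · exact Filter.Eventually.of_forall fun y h => absurd h1 h
      by_cases h2 : t = w.2
      · exact Filter.Eventually.of_forall fun y _ h => absurd h2 h
      by_cases hto : t ∈ opt U f P Q v
      · filter_upwards [self_mem_nhdsWithin] with y hy _ _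
        rw [start_gap_affine f P Q w hP t y v.2, hzero t hto, zero_add]
        have h3 : v.2 < y := hy
        exact mul_pos (by linarith) (div_pos (hD t hto h1 h2) hden)
      · have h3 : ∀ᶠ y in nhds v.2, 0 < startGap f P Q w t y :=
          (start_gap_cont f P Q w hP t).continuousAt.eventually (lt_mem_nhds (hpos t ht hto))
        filter_upwards [nhdsWithin_le_nhds h3] with y hy _ _
        exact hy
    filter_upwards [h1] with y hy
    exact (start_mem_act_iff U f P Q w y).mpr hy
  have hne : (act U f P Q w).Nonempty := hev.exists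
  have hbdd : BddBelow (act U f P Q w) := ⟨v.2, fun y hy => (hgt y hy).le⟩
  have hinf : sInf (act U f P Q w) = v.2 := by
    apply csInf_eq_of_forall_ge_of_forall_gt_exists_lt hne
    · intro y hy
      exact (hgt y hy).le
    · intro z hz
      have h1 : Set.Ioo v.2 z ∈ nhdsWithin v.2 (Set.Ioi v.2) := Ioo_mem_nhdsGT hz
      obtain ⟨y, hy1, hy2⟩ := (hev.and h1).exists
      exact ⟨y, hy1, hy2.2⟩
  refine ⟨?_, ?_⟩
  · unfold Wb W
    rw [Finset.mem_filter, Finset.mem_filter, Finset.mem_product]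
    exact ⟨⟨⟨((start_mem_opt_iff U f P Q v w.1).mp hopt1).1, ((start_mem_opt_iff U f P Q v w.2).mp hopt2).1⟩,
      hP, hne⟩, hbdd⟩
  · unfold start
    rw [hinf, ← hX]

end Pool.Agent.H36.CV
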